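import Pool.Agent.Lib.MP_b07157_agN.CDefs

/-!
# The local version: definitions

The polynomial `f + x₀² + x₀ g`, `g = ∑ γ_j x_j ^ (M j)`.  The coordinate `0` of `Fin (n + 1)` is the
exponent of the new variable `x₀`, the coordinate `j.succ` the exponent of `x_j`.
-/

noncomputable section

namespace MPb07157T

open Finset Matrix

variable {n : ℕ}

/-- The exponent `(2, 0)`. -/
def cx2 (n : ℕ) : Fin (n + 1) → ℤ := Fin.cons 2 0

/-- The coefficient function of `F + x₀² + x₀ ∑ γ_j x_j ^ (M j)`. -/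
def Cay2 (F : (Fin n → ℤ) →₀ ℂ) (M : Fin n → ℕ) (g : Fin n → ℂ) : (Fin (n + 1) → ℤ) →₀ ℂ :=
  F.mapDomain c0 + (Finsupp.single (cx2 n) 1 +
    ∑ j, Finsupp.single (c1 ((M j : ℤ) • ee j)) (g j))

/-- The weight of `F + x₀² + x₀ g`: `x₀` has weight `N / 2`. -/
def cw2 (σ : (Fin n → ℤ) × ℤ) : (Fin (n + 1) → ℤ) × ℤ := (Fin.cons σ.2 ((2 : ℤ) • σ.1), 2 * σ.2)

/-- The weights used: positive weights of `f + ∑ x_j ^ (2 M j)`. -/
def WtL (f : MvPolynomial (Fin n) ℂ) (M : Fin n → ℕ) (σ : (Fin n → ℤ) × ℤ) : Prop :=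
  0 < σ.2 ∧ (∀ j, 0 < σ.1 j) ∧ (∀ v ∈ (Fc f).support, σ.2 ≤ σ.1 ⬝ᵥ v) ∧
    ∀ j, σ.2 ≤ 2 * (M j : ℤ) * σ.1 j

/-- A polynomial with the exponents of `f` and the `2 M_j e_j`. -/
def fM (f : MvPolynomial (Fin n) ℂ) (M : Fin n → ℕ) : MvPolynomial (Fin n) ℂ := by
  classical exact ∑ v ∈ f.support ∪ Finset.univ.image fun j => Finsupp.single j (2 * M j),
    MvPolynomial.monomial v 1

/-- The lattice set of the face of `κ`: inner walls only, at `-a`. -/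
def MMc2 (Sg : Finset ((Fin n → ℤ) × ℤ)) (κ : (Fin n → ℤ) × ℤ) (a : Fin (n + 1) → ℚ) :
    Set (Fin (n + 1) → ℤ) :=
  {m | (cw2 κ).2 ∣ (cw2 κ).1 ⬝ᵥ m ∧
    ∀ h ∈ H2c (CC n) (Sg.image cw2) (cw2 κ), -qf h a ≤ ((h ⬝ᵥ m : ℤ) : ℚ)}

/-- Nondegeneracy on all faces of the compact faces of the Newton polyhedron. -/
def NDcpt (f : MvPolynomial (Fin n) ℂ) : Prop :=
  ∀ a : Fin n → ℕ, (∀ j, 0 < a j) → ∀ ω : Fin n → ℤ,
    MPb07157.NondegAt f (MPb07157F.fc (MPb07157.face f a (MPb07157.nuf f a)) ω)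

/-- The data at a face: the positive weight `w'` (level `N'`) used for `f + x₀² + x₀ g`, and the
weight `w` (level `N`) which gives the candidate root; `w` is constant on the exponents of `f` of
least `w'`-weight, and `w j = 0` exactly for the `x₀ x_j ^ (M j)` of least weight. -/
structure DatL (f : MvPolynomial (Fin n) ℂ) (M : Fin n → ℕ) (w' : Fin n → ℕ) (N' : ℕ)
    (w : Fin n → ℕ) (N : ℕ) : Prop where
  hN' : 0 < N'
  hw' : ∀ j, 0 < w' j
  hmin' : ∀ v ∈ f.support, N' ≤ MPb07157.wt w' v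
  hN : 0 < N
  lev : ∀ v ∈ MPb07157.face f w' N', MPb07157.wt w v = N
  out : ∀ j, w j = 0 → 2 * M j * w' j = N'
  inn : ∀ j, 0 < w j → N' < 2 * M j * w' j

end MPb07157T
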