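import Pool.Agent.Lib.MP_b07157_agZ.A1
import Pool.Agent.Lib.MP_b07157_agNL.CDefsL

/-!
# The two weights
-/

noncomputable section

namespace MPb07157Z

open Finset MvPolynomial MPb07157 MPb07157T MPb07157F

variable {n : ℕ}

/-- The positive weight `w' = (2 Ω T - Nω) w + N ω`, `N' = 2 Ω T N`, `Ω = ∏ ω_j`, and the exponents
`M_j = Ω T / ω_j` if `w_j = 0`, `M_j = N'` if `w_j > 0`. -/
theorem exists_datL {f : MvPolynomial (Fin n) ℂ} {w : Fin n → ℕ} {N : ℕ} (hN : 0 < N)
    (hmin : ∀ v ∈ f.support, N ≤ wt w v) {ω : Fin n → ℕ} {Nω : ℕ} (hω : ∀ j, 0 < ω j)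
    (hminω : ∀ v ∈ f.support, Nω ≤ wt ω v) (T₀ : ℕ) :
    ∃ (M w' : Fin n → ℕ) (N' : ℕ), DatL f M w' N' w N ∧ (∀ j, T₀ ≤ M j) ∧
      face f w' N' = (face f w N).filter fun v => wt ω v = Nω := by
  classical
  set Ω : ℕ := ∏ j, ω j with hΩ
  have hΩ1 : 0 < Ω := Finset.prod_pos fun j _ => hω j
  have hdvd : ∀ j, ω j ∣ Ω := fun j => Finset.dvd_prod_of_mem ω (Finset.mem_univ j)
  set T : ℕ := T₀ + Nω + 1 with hT
  have hTΩ : T ≤ Ω * T := Nat.le_mul_of_pos_left T hΩ1
  obtain ⟨A, hA⟩ : ∃ A, 2 * (Ω * T) = Nω + A := Nat.exists_eq_add_of_le (by omega)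
  have hA0 : 0 < A := by omega
  set w' : Fin n → ℕ := fun j => A * w j + N * ω j with hw'
  set N' : ℕ := 2 * (Ω * T) * N with hN'
  have hN'0 : 0 < N' := by positivity
  have hwt : ∀ v : Fin n →₀ ℕ, wt w' v = A * wt w v + N * wt ω v := by
    intro v
    unfold wt
    rw [Finset.mul_sum, Finset.mul_sum, ← Finset.sum_add_distrib]
    refine Finset.sum_congr rfl fun j _ => ?_
    simp only [hw']
    ring
  have hN'2 : N' = A * N + N * Nω := by
    rw [hN', hA]
    ring
  have hmin' : ∀ v ∈ f.support, N' ≤ wt w' v := by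
    intro v hv
    rw [hwt, hN'2]
    exact add_le_add (Nat.mul_le_mul_left _ (hmin v hv)) (Nat.mul_le_mul_left _ (hminω v hv))
  have heq : ∀ v ∈ f.support, wt w' v = N' → wt w v = N ∧ wt ω v = Nω := by
    intro v hv h
    rw [hwt, hN'2] at h
    have h1 := Nat.mul_le_mul_left A (hmin v hv)
    have h2 := Nat.mul_le_mul_left N (hminω v hv)
    have h3 : A * wt w v = A * N := by omega
    have h4 : N * wt ω v = N * Nω := by omega
    exact ⟨Nat.eq_of_mul_eq_mul_left hA0 h3, Nat.eq_of_mul_eq_mul_left hN h4⟩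
  set M : Fin n → ℕ := fun j => if w j = 0 then Ω / ω j * T else N' with hM
  refine ⟨M, w', N', ⟨hN'0, fun j => ?_, hmin', hN, fun v hv => ?_, fun j hj => ?_,
    fun j hj => ?_⟩, fun j => ?_, ?_⟩
  · have := hω j
    positivity
  · obtain ⟨h1, h2⟩ := Finset.mem_filter.1 hv
    exact (heq v h1 h2).1
  · simp only [hM, hw']
    rw [if_pos hj, hj, mul_zero, zero_add]
    obtain ⟨e, he⟩ := hdvd j
    have h1 : Ω / ω j = e := by
      rw [he]
      exact Nat.mul_div_cancel_left e (hω j)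
    rw [h1, hN', he]
    ring
  · simp only [hM]
    rw [if_neg hj.ne']
    have h1 : 0 < w' j := by
      have := hω j
      simp only [hw']
      positivity
    have h2 : N' * 1 ≤ N' * w' j := Nat.mul_le_mul_left _ h1
    nlinarith
  · simp only [hM]
    split_ifs with h
    · obtain ⟨e, he⟩ := hdvd j
      have h1 : Ω / ω j = e := by
        rw [he]
        exact Nat.mul_div_cancel_left e (hω j)
      have h2 : 0 < e := by
        rcases Nat.eq_zero_or_pos e with h3 | h3
        · rw [h3, mul_zero] at he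
          omega
        · exact h3
      rw [h1]
      have h3 : T ≤ e * T := Nat.le_mul_of_pos_left T h2
      omega
    · have h3 : 2 * (Ω * T) ≤ N' := Nat.le_mul_of_pos_right _ hN
      omega
  · ext v
    unfold face
    rw [Finset.mem_filter, Finset.mem_filter, Finset.mem_filter]
    constructor
    · rintro ⟨h1, h2⟩
      exact ⟨⟨h1, (heq v h1 h2).1⟩, (heq v h1 h2).2⟩
    · rintro ⟨⟨h1, h2⟩, h3⟩
      refine ⟨h1, ?_⟩
      rw [hwt, h2, h3, hN'2]

end MPb07157Z
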