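import Pool.Agent.Lib.MP_b07157_agNL.FaceLa

/-!
# The face identity, local version
-/

noncomputable section

namespace MPb07157T

open Finset Matrix MvPolynomial MPb07157

variable {n : ℕ}

private theorem f8_con {r : ℕ} (v ξ : Fin r → ℂ) (a : ℂ) :
    con v (gi ξ * algebraMap ℂ (Lam ℂ r) a) = algebraMap ℂ (Lam ℂ r) ((v ⬝ᵥ ξ) * a) := by
  unfold con gi
  have h := CliffordAlgebra.contractLeft_ι_mul (Q := (0 : QuadraticForm ℂ (Fin r → ℂ)))
    (dualv v) ξ (algebraMap ℂ (Lam ℂ r) a)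
  have h2 := CliffordAlgebra.contractLeft_algebraMap (Q := (0 : QuadraticForm ℂ (Fin r → ℂ)))
    (dualv v) a
  refine Eq.trans h ?_
  rw [h2, mul_zero, sub_zero, map_mul]
  rw [Algebra.smul_def]
  rfl

private theorem f8_fil {r : ℕ} (ξ : Fin r → ℂ) (x : Lam ℂ r) : gi ξ * x ∈ Fil ℂ r 1 := by
  unfold Fil
  rw [pow_one]
  exact Submodule.mul_mem_mul ⟨ξ, rfl⟩ trivial

private theorem f8_hs_dot {r : ℕ} (σ : (Fin r → ℤ) × ℤ) (m : Fin (r + 1) → ℤ) :
    hs σ ⬝ᵥ m = -σ.2 * m 0 + σ.1 ⬝ᵥ Fin.tail m := by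
  simp only [hs, dotProduct, Fin.sum_univ_succ, Fin.cons_zero, Fin.cons_succ, Fin.tail]

private theorem f8_et_dot {r : ℕ} (κ τ : (Fin r → ℤ) × ℤ) (m : Fin r → ℤ) :
    et κ τ ⬝ᵥ m = κ.2 * (τ.1 ⬝ᵥ m) - τ.2 * (κ.1 ⬝ᵥ m) := by
  simp only [et, sub_dotProduct, smul_dotProduct, smul_eq_mul]

private theorem f8_mem_Fs {r : ℕ} {κ : (Fin r → ℤ) × ℤ} {F : (Fin r → ℤ) →₀ ℂ} {v : Fin r → ℤ}
    (hv : v ∈ (Fs κ F).support) : v ∈ F.support ∧ κ.1 ⬝ᵥ v = κ.2 := by
  classical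
  unfold Fs at hv
  rw [Finsupp.support_filter, Finset.mem_filter] at hv
  exact hv

private theorem f8_nonneg {f : MvPolynomial (Fin n) ℂ} {v : Fin n → ℤ}
    (hv : v ∈ (Fc f).support) (j : Fin n) : 0 ≤ v j := by
  obtain ⟨v', -, rfl⟩ := mem_Fc_support.1 hv
  exact Int.natCast_nonneg _

/-- `Θ₀` as a linear map. -/
private def f8T (κ : (Fin n → ℤ) × ℤ) (G : (Fin n → ℤ) →₀ ℂ) :
    ((Fin n → ℤ) → ℂ) →ₗ[ℂ] ((Fin n → ℤ) → ℂ) where
  toFun g := fun m => ((κ.1 ⬝ᵥ m : ℤ) : ℂ) / (κ.2 : ℂ) * g m + ∑ v ∈ G.support, G v * g (m - v)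
  map_add' x y := by
    funext m
    simp only [Pi.add_apply, mul_add, Finset.sum_add_distrib]
    ring
  map_smul' c x := by
    funext m
    simp only [Pi.smul_apply, smul_eq_mul, RingHom.id_apply, mul_add, Finset.mul_sum]
    congr 1
    · ring
    · exact Finset.sum_congr rfl fun v _ => by ring

private theorem f8T_apply (κ : (Fin n → ℤ) × ℤ) (G : (Fin n → ℤ) →₀ ℂ) (g : (Fin n → ℤ) → ℂ)
    (m : Fin n → ℤ) : f8T κ G g m =
      ((κ.1 ⬝ᵥ m : ℤ) : ℂ) / (κ.2 : ℂ) * g m + ∑ v ∈ G.support, G v * g (m - v) := rfl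

/-- Functions with good support. -/
private def f8S (Sg : Finset ((Fin n → ℤ) × ℤ)) (κ : (Fin n → ℤ) × ℤ) (k : Fin n → ℤ) (Nk : ℤ) :
    Submodule ℂ ((Fin n → ℤ) → ℂ) where
  carrier := {g | (Function.support g).Finite ∧ ∀ m, g m ≠ 0 → κ.2 ∣ κ.1 ⬝ᵥ m ∧ (∀ j, 0 ≤ m j) ∧
    (∀ τ ∈ Sg, 0 ≤ et κ τ ⬝ᵥ m) ∧ Nk * (κ.1 ⬝ᵥ m) = κ.2 * (k ⬝ᵥ m)}
  add_mem' := by
    rintro x y ⟨hx1, hx2⟩ ⟨hy1, hy2⟩
    refine ⟨(hx1.union hy1).subset (Function.support_add x y), ?_⟩
    intro m hm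
    by_cases h : x m = 0
    · apply hy2
      intro h'
      apply hm
      rw [Pi.add_apply, h, h', add_zero]
    · exact hx2 m h
  zero_mem' := by
    refine ⟨?_, fun m hm => absurd rfl hm⟩
    simp
  smul_mem' := by
    rintro c x ⟨hx1, hx2⟩
    refine ⟨hx1.subset (Function.support_const_smul_subset c x), ?_⟩
    intro m hm
    apply hx2
    intro h'
    apply hm
    rw [Pi.smul_apply, h', smul_zero]

private theorem f8S_T {f : MvPolynomial (Fin n) ℂ} {Sg : Finset ((Fin n → ℤ) × ℤ)}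
    (hSg : ∀ σ ∈ Sg, Wt f σ) {κ : (Fin n → ℤ) × ℤ} (hκ : κ ∈ Sg) {k : Fin n → ℤ} {Nk : ℤ}
    (hkv : ∀ v ∈ (Fs κ (Fc f)).support, k ⬝ᵥ v = Nk) {g : (Fin n → ℤ) → ℂ}
    (hg : g ∈ f8S Sg κ k Nk) : f8T κ (Fs κ (Fc f)) g ∈ f8S Sg κ k Nk := by
  obtain ⟨h1, h2⟩ := hg
  have key : ∀ m, f8T κ (Fs κ (Fc f)) g m ≠ 0 →
      g m ≠ 0 ∨ ∃ v ∈ (Fs κ (Fc f)).support, g (m - v) ≠ 0 := by
    intro m hm
    by_contra hcon
    push Not at hcon
    apply hm
    rw [f8T_apply, hcon.1, mul_zero, zero_add]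
    exact Finset.sum_eq_zero fun v hv => by rw [hcon.2 v hv, mul_zero]
  constructor
  · have h3 : (Function.support g ∪ ⋃ v ∈ (Fs κ (Fc f)).support,
        (fun m => m + v) '' Function.support g).Finite :=
      h1.union ((Fs κ (Fc f)).support.finite_toSet.biUnion fun v _ => h1.image _)
    apply h3.subset
    intro m hm
    rcases key m hm with h | ⟨v, hv, h⟩
    · exact Or.inl h
    · right
      rw [Set.mem_iUnion₂]
      exact ⟨v, hv, m - v, h, by simp⟩
  · intro m hm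
    rcases key m hm with h | ⟨v, hv, h⟩
    · exact h2 m h
    · obtain ⟨h3, h4, h5, h10⟩ := h2 _ h
      have hv3 := hkv v hv
      obtain ⟨hv1, hv2⟩ := f8_mem_Fs hv
      refine ⟨?_, ?_, ?_, ?_⟩
      · rw [dotProduct_sub, hv2] at h3
        have := dvd_add h3 (dvd_refl κ.2)
        simpa using this
      · intro j
        have h6 := h4 j
        have h7 := f8_nonneg hv1 j
        rw [Pi.sub_apply] at h6
        linarith
      · intro τ hτ
        have h6 := h5 τ hτ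
        rw [dotProduct_sub] at h6
        have h7 : 0 ≤ et κ τ ⬝ᵥ v := by
          rw [f8_et_dot, hv2]
          have h8 := (hSg τ hτ).2.2 v hv1
          have h9 := (hSg κ hκ).1
          nlinarith
        linarith
      · rw [dotProduct_sub, dotProduct_sub, hv2, hv3] at h10
        linarith

private theorem f8S_delta {Sg : Finset ((Fin n → ℤ) × ℤ)} {κ : (Fin n → ℤ) × ℤ}
    {k : Fin n → ℤ} {Nk : ℤ} : (Pi.single 0 1 : (Fin n → ℤ) → ℂ) ∈ f8S Sg κ k Nk := by
  constructor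
  · apply (Set.finite_singleton (0 : Fin n → ℤ)).subset
    intro m hm
    by_contra h
    exact hm (Pi.single_eq_of_ne h 1)
  · intro m hm
    have h : m = 0 := by
      by_contra h
      exact hm (Pi.single_eq_of_ne h 1)
    subst h
    simp

private theorem f8S_iter {f : MvPolynomial (Fin n) ℂ} {Sg : Finset ((Fin n → ℤ) × ℤ)}
    (hSg : ∀ σ ∈ Sg, Wt f σ) {κ : (Fin n → ℤ) × ℤ} (hκ : κ ∈ Sg) {k : Fin n → ℤ} {Nk : ℤ}
    (hkv : ∀ v ∈ (Fs κ (Fc f)).support, k ⬝ᵥ v = Nk) (i : ℕ) :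
    (f8T κ (Fs κ (Fc f)))^[i] (Pi.single 0 1) ∈ f8S Sg κ k Nk := by
  induction i with
  | zero => exact f8S_delta
  | succ i ih =>
    rw [Function.iterate_succ_apply']
    exact f8S_T hSg hκ hkv ih

private theorem f8_aeval_apply (L : ((Fin n → ℤ) → ℂ) →ₗ[ℂ] ((Fin n → ℤ) → ℂ)) (q : Polynomial ℂ)
    (g : (Fin n → ℤ) → ℂ) : Polynomial.aeval L q g =
      ∑ i ∈ range (q.natDegree + 1), q.coeff i • L^[i] g := by
  rw [Polynomial.aeval_eq_sum_range, LinearMap.sum_apply]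
  exact Finset.sum_congr rfl fun i _ => by
    rw [LinearMap.smul_apply, Module.End.pow_apply]

private theorem f8_level {f : MvPolynomial (Fin n) ℂ} {κ : (Fin n → ℤ) × ℤ} (hκ : Wt f κ)
    (i : ℕ) :
    (∀ m, (thL (Fc f))^[i] (Pi.single 0 1) m ≠ 0 → 0 ≤ hs κ ⬝ᵥ m) ∧
      ∀ m, κ.2 ∣ κ.1 ⬝ᵥ m → (thL (Fc f))^[i] (Pi.single 0 1) (Fin.cons ((κ.1 ⬝ᵥ m) / κ.2) m) =
        (f8T κ (Fs κ (Fc f)))^[i] (Pi.single 0 1) m := by
  classical
  have hN : 0 < κ.2 := hκ.1
  have hNC : (κ.2 : ℂ) ≠ 0 := by exact_mod_cast hN.ne'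
  have hsh : ∀ v : Fin n → ℤ, hs κ ⬝ᵥ sh v = -κ.2 + κ.1 ⬝ᵥ v := by
    intro v
    rw [f8_hs_dot]
    simp [sh]
  induction i with
  | zero =>
    constructor
    · intro m hm
      have h : m = 0 := by
        by_contra h
        exact hm (Pi.single_eq_of_ne h 1)
      subst h
      simp
    · intro m hm
      rw [Function.iterate_zero_apply, Function.iterate_zero_apply]
      by_cases h : m = 0
      · subst h
        have h0 : (Fin.cons ((κ.1 ⬝ᵥ (0 : Fin n → ℤ)) / κ.2) (0 : Fin n → ℤ) : Fin (n + 1) → ℤ)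
            = 0 := by
          funext j
          refine Fin.cases ?_ (fun j => ?_) j
          · simp
          · simp
        rw [h0, Pi.single_eq_same, Pi.single_eq_same]
      · rw [Pi.single_eq_of_ne h, Pi.single_eq_of_ne]
        intro h'
        apply h
        funext j
        have := congrFun h' j.succ
        simpa using this
  | succ i ih =>
    obtain ⟨ih1, ih2⟩ := ih
    constructor
    · intro m hm
      rw [Function.iterate_succ_apply'] at hm
      by_contra hneg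
      apply hm
      have h1 : (thL (Fc f))^[i] (Pi.single 0 1) m = 0 := by
        by_contra h
        exact hneg (ih1 m h)
      show ((m 0 : ℤ) : ℂ) * (thL (Fc f))^[i] (Pi.single 0 1) m +
        ∑ v ∈ (Fc f).support, (Fc f) v * (thL (Fc f))^[i] (Pi.single 0 1) (m - sh v) = 0
      rw [h1, mul_zero, zero_add]
      refine Finset.sum_eq_zero fun v hv => ?_
      have h2 : (thL (Fc f))^[i] (Pi.single 0 1) (m - sh v) = 0 := by
        by_contra h
        have h3 := ih1 _ h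
        rw [dotProduct_sub, hsh] at h3
        have h4 := hκ.2.2 v hv
        omega
      rw [h2, mul_zero]
    · intro m hm
      rw [Function.iterate_succ_apply', Function.iterate_succ_apply', f8T_apply, ← ih2 m hm]
      have h4 : κ.2 * ((κ.1 ⬝ᵥ m) / κ.2) = κ.1 ⬝ᵥ m := Int.mul_ediv_cancel' hm
      have h5 : (((κ.1 ⬝ᵥ m) / κ.2 : ℤ) : ℂ) = ((κ.1 ⬝ᵥ m : ℤ) : ℂ) / (κ.2 : ℂ) := by
        rw [eq_div_iff hNC]
        conv_rhs => rw [← h4]
        push_cast
        ring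
      have hk0 : hs κ ⬝ᵥ (Fin.cons ((κ.1 ⬝ᵥ m) / κ.2) m : Fin (n + 1) → ℤ) = 0 := by
        rw [f8_hs_dot, Fin.cons_zero, Fin.tail_cons]
        linear_combination -h4
      show (((Fin.cons ((κ.1 ⬝ᵥ m) / κ.2) m : Fin (n + 1) → ℤ) 0 : ℤ) : ℂ) *
        (thL (Fc f))^[i] (Pi.single 0 1) (Fin.cons ((κ.1 ⬝ᵥ m) / κ.2) m) +
        ∑ v ∈ (Fc f).support, (Fc f) v * (thL (Fc f))^[i] (Pi.single 0 1)
          ((Fin.cons ((κ.1 ⬝ᵥ m) / κ.2) m : Fin (n + 1) → ℤ) - sh v) = _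
      rw [Fin.cons_zero, h5]
      congr 1
      have hFsup : (Fs κ (Fc f)).support =
          (Fc f).support.filter (fun v => κ.1 ⬝ᵥ v = κ.2) := by
        ext v
        simp [Fs, and_comm]
      have hFval : ∀ v, κ.1 ⬝ᵥ v = κ.2 → Fs κ (Fc f) v = (Fc f) v := by
        intro v hv
        simp [Fs, hv]
      rw [hFsup, Finset.sum_filter]
      refine Finset.sum_congr rfl fun v hv => ?_
      by_cases hvk : κ.1 ⬝ᵥ v = κ.2
      · rw [if_pos hvk, hFval v hvk]
        have hd' : κ.2 ∣ κ.1 ⬝ᵥ (m - v) := by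
          rw [dotProduct_sub, hvk]
          exact dvd_sub hm (dvd_refl _)
        rw [← ih2 _ hd']
        have h7 : (κ.1 ⬝ᵥ (m - v)) / κ.2 = (κ.1 ⬝ᵥ m) / κ.2 - 1 := by
          rw [dotProduct_sub, hvk, Int.sub_ediv_of_dvd _ (dvd_refl _), Int.ediv_self hN.ne']
        have e : (Fin.cons ((κ.1 ⬝ᵥ m) / κ.2) m : Fin (n + 1) → ℤ) - sh v =
            Fin.cons ((κ.1 ⬝ᵥ (m - v)) / κ.2) (m - v) := by
          funext j
          refine Fin.cases ?_ (fun j => ?_) j
          · rw [h7]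
            simp [sh]
          · simp [sh]
        rw [e]
      · rw [if_neg hvk]
        have h8 : (thL (Fc f))^[i] (Pi.single 0 1)
            ((Fin.cons ((κ.1 ⬝ᵥ m) / κ.2) m : Fin (n + 1) → ℤ) - sh v) = 0 := by
          by_contra hne
          have h9 := ih1 _ hne
          rw [dotProduct_sub, hk0, hsh] at h9
          have h12 := hκ.2.2 v hv
          exact hvk (by omega)
        rw [h8, mul_zero]

private theorem f8_cw_dot (κ : (Fin n → ℤ) × ℤ) (m : Fin (n + 1) → ℤ) :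
    (cw2 κ).1 ⬝ᵥ m = κ.2 * m 0 + 2 * (κ.1 ⬝ᵥ Fin.tail m) := by
  simp only [cw2, dotProduct, Fin.sum_univ_succ, Fin.cons_zero, Fin.cons_succ, Fin.tail,
    Finset.mul_sum]
  congr 1
  exact Finset.sum_congr rfl fun j _ => by rw [Pi.smul_apply, smul_eq_mul]; ring

private theorem f8_c0_tail (m : Fin (n + 1) → ℤ) (h : m 0 = 0) : m = c0 (Fin.tail m) := by
  funext i
  refine Fin.cases ?_ (fun j => ?_) i
  · simp [c0, h]
  · simp [c0, Fin.tail]

/-- **The face identity** (as `face_identityC` in `FaceC.lean`).  `k` is a second weight: constant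
`= Nk` on the exponents of `f` in the face of `κ`, `k j = 0` for the `(1, M_j e_j)` in the face;
`Θ₀ - s₀` is `Eop` of `gi (vec (c0 k)) * u / Nk`. -/
theorem face_identityL {f : MvPolynomial (Fin n) ℂ} (hf : f ≠ 0) {b : Polynomial ℂ}
    (hb : InDnForm f 1 (b.map (MvPowerSeries.C (σ := Fin n) (R := ℂ)))) :
    ∃ M₀ : ℕ, ∀ M : Fin n → ℕ, (∀ j, M₀ ≤ M j) → (∀ j, 1 ≤ M j) → ∀ (g : Fin n → ℂ)
    (_ : ∀ j, g j ≠ 0)
    (Sg : Finset ((Fin n → ℤ) × ℤ)) (_ : ∀ σ ∈ Sg, WtL f M σ)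
    (Ho : (Fin (n + 1) → ℤ) × ℤ → Finset (Fin (n + 1) → ℤ))
    (_ : WOKc (CC n) (ee 0) (Sg.image cw2) Ho (Cay2 (Fc f) M g))
    (κ : (Fin n → ℤ) × ℤ) (_ : κ ∈ Sg) (k : Fin n → ℤ) (Nk : ℤ) (_ : 0 < Nk)
    (_ : ∀ v ∈ (Fs κ (Fc f)).support, k ⬝ᵥ v = Nk)
    (_ : ∀ j, κ.2 = 2 * (M j : ℤ) * κ.1 j → k j = 0) (t : ℚ)
    (a : Fin (n + 1) → ℚ) (_ : ∀ j : Fin n, 1 ≤ a j.succ)
    (_ : ∀ τ ∈ Sg, 0 ≤ qf (et (cw2 κ) (cw2 τ)) a) (S : List (Fin n)) (_ : S.Nodup)
    (_ : ∀ j ∈ S, a j.succ = 1) (s₀ : ℚ) (_ : s₀ * Nk = -∑ j, (k j : ℚ)),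
    ∃ V : LFun ℂ (n + 1), SuppIn (MMc2 Sg κ a) V ∧ Deg 1 V ∧
      (∀ m, ∀ j ∈ sS S, m j = -1 → gi (vec ℂ (ee j)) * V m = 0) ∧
      ∀ m, Eop (bv n t) (Fs (cw2 κ) (Cay2 (Fc f) M g)) V m =
        if m = 0 then algebraMap ℂ _ (b.eval (s₀ : ℂ)) else 0 := by
  classical
  obtain ⟨M₀, hM₀⟩ := exists_latticeL hf hb
  refine ⟨M₀, fun M hMM hM1 g hg0 Sg hSg Ho hW κ hκ k Nk hNk hkv hk0 t a ha haS S hS haS1 s₀
    hs₀ => ?_⟩
  have hNkC : (Nk : ℂ) ≠ 0 := by exact_mod_cast hNk.ne'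
  have hN : 0 < κ.2 := (hSg κ hκ).1
  have hNC : (κ.2 : ℂ) ≠ 0 := by exact_mod_cast hN.ne'
  have hsQ : s₀ * (Nk : ℚ) = -((∑ j, k j : ℤ) : ℚ) := by
    rw [hs₀]
    push_cast
    rfl
  have hsC : (s₀ : ℂ) * (Nk : ℂ) = -((∑ j, k j : ℤ) : ℂ) := by
    exact_mod_cast congrArg (fun q : ℚ => (q : ℂ)) hsQ
  have hSgW : ∀ σ ∈ Sg, Wt f σ := fun σ hσ =>
    ⟨(hSg σ hσ).1, fun j => ((hSg σ hσ).2.1 j).le, (hSg σ hσ).2.2.1⟩
  obtain ⟨V₀, hV1, hV2, hV3, hV4⟩ := exists_face_rawL hSg hW hκ t (hM₀ M hMM g t) a ha haS S hS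
    haS1
  set L := f8T κ (Fs κ (Fc f)) with hL
  set q : Polynomial ℂ := b /ₘ (Polynomial.X - Polynomial.C (s₀ : ℂ)) with hq
  set δ : (Fin n → ℤ) → ℂ := Pi.single 0 1 with hδ
  set u : (Fin n → ℤ) → ℂ := Polynomial.aeval L q δ with hu
  have hbq : Polynomial.aeval L b δ = b.eval (s₀ : ℂ) • δ + (L u - (s₀ : ℂ) • u) := by
    have h1 : Polynomial.C (b.eval (s₀ : ℂ)) + (Polynomial.X - Polynomial.C (s₀ : ℂ)) * q = b := by
      rw [← Polynomial.modByMonic_X_sub_C_eq_C_eval, hq]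
      exact Polynomial.modByMonic_add_div b _
    conv_lhs => rw [← h1]
    rw [map_add, map_mul, map_sub, Polynomial.aeval_X, Polynomial.aeval_C, Polynomial.aeval_C,
      LinearMap.add_apply, Module.End.mul_apply, LinearMap.sub_apply, Module.algebraMap_end_apply,
      Module.algebraMap_end_apply]
  have huS : u ∈ f8S Sg κ k Nk := by
    rw [hu, f8_aeval_apply]
    exact Submodule.sum_mem _ fun i _ => Submodule.smul_mem _ _ (f8S_iter hSgW hκ hkv i)
  have hsum : ∀ m : Fin n → ℤ, (if κ.2 ∣ κ.1 ⬝ᵥ m then ∑ i ∈ range (b.natDegree + 1), b.coeff i *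
      (thL (Fc f))^[i] (Pi.single 0 1) (Fin.cons ((κ.1 ⬝ᵥ m) / κ.2) m) else 0) =
      Polynomial.aeval L b δ m := by
    intro m
    rw [f8_aeval_apply, Finset.sum_apply]
    split_ifs with h
    · refine Finset.sum_congr rfl fun i _ => ?_
      rw [(f8_level (hSgW κ hκ) i).2 m h, Pi.smul_apply, smul_eq_mul]
    · symm
      refine Finset.sum_eq_zero fun i _ => ?_
      rw [Pi.smul_apply, smul_eq_mul]
      have h1 : L^[i] δ m = 0 := by
        by_contra hne
        exact h ((f8S_iter hSgW hκ hkv i).2 m hne).1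
      rw [h1, mul_zero]
  have hκ2 : (cw2 κ).2 = 2 * κ.2 := rfl
  have hsum' : ∀ m : Fin (n + 1) → ℤ,
      (if (cw2 κ).2 ∣ (cw2 κ).1 ⬝ᵥ m then ins (fun m' => ∑ i ∈ range (b.natDegree + 1),
          b.coeff i * (thL (Fc f))^[i] (Pi.single 0 1) m')
            (Fin.cons (((cw2 κ).1 ⬝ᵥ m) / (cw2 κ).2) m) else 0) =
      if m 0 = 0 then Polynomial.aeval L b δ (Fin.tail m) else 0 := by
    intro m
    by_cases h0 : m 0 = 0
    · rw [if_pos h0, ← hsum]
      have e1 : (cw2 κ).1 ⬝ᵥ m = 2 * (κ.1 ⬝ᵥ Fin.tail m) := by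
        rw [f8_cw_dot, h0, mul_zero, zero_add]
      have e3 : (2 * (κ.1 ⬝ᵥ Fin.tail m)) / (2 * κ.2) = (κ.1 ⬝ᵥ Fin.tail m) / κ.2 :=
        Int.mul_ediv_mul_of_pos _ _ (by norm_num)
      rw [e1, hκ2, e3]
      have e4 : 2 * κ.2 ∣ 2 * (κ.1 ⬝ᵥ Fin.tail m) ↔ κ.2 ∣ κ.1 ⬝ᵥ Fin.tail m :=
        mul_dvd_mul_iff_left (by norm_num)
      simp only [e4]
      split_ifs with h
      · unfold ins
        have e2 : (Fin.cons ((κ.1 ⬝ᵥ Fin.tail m) / κ.2) m : Fin (n + 2) → ℤ) 1 = 0 := by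
          show m 0 = 0
          exact h0
        rw [if_pos e2]
        rfl
      · rfl
    · rw [if_neg h0]
      split_ifs with h
      · unfold ins
        have e2 : (Fin.cons (((cw2 κ).1 ⬝ᵥ m) / (cw2 κ).2) m : Fin (n + 2) → ℤ) 1 ≠ 0 := by
          show m 0 ≠ 0
          exact h0
        rw [if_neg e2]
      · rfl
  let ξ : Fin (n + 1) → ℂ := vec ℂ (c0 k)
  let U : LFun ℂ (n + 1) := fun m =>
    if m 0 = 0 then gi ξ * algebraMap ℂ (Lam ℂ (n + 1)) (u (Fin.tail m) / Nk) else 0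
  have hUdef : ∀ m, m 0 = 0 →
      U m = gi ξ * algebraMap ℂ (Lam ℂ (n + 1)) (u (Fin.tail m) / Nk) := fun m h => if_pos h
  have hUne0 : ∀ m, m 0 ≠ 0 → U m = 0 := fun m h => if_neg h
  have hUne : ∀ m, U m ≠ 0 → m 0 = 0 ∧ u (Fin.tail m) ≠ 0 := by
    intro m h
    by_cases h0 : m 0 = 0
    · refine ⟨h0, fun h' => h ?_⟩
      rw [hUdef m h0, h', zero_div, map_zero, mul_zero]
    · exact absurd (hUne0 m h0) h
  have hdotξ : ∀ v : Fin (n + 1) → ℤ, vec ℂ v ⬝ᵥ ξ = ((k ⬝ᵥ Fin.tail v : ℤ) : ℂ) := by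
    intro v
    simp only [ξ, dotProduct, vec, c0, Fin.sum_univ_succ, Fin.cons_zero, Fin.cons_succ, Fin.tail]
    push_cast
    rw [mul_zero, zero_add]
    exact Finset.sum_congr rfl fun j _ => mul_comm _ _
  have hbvξ : bv n t ⬝ᵥ ξ = ((∑ j, k j : ℤ) : ℂ) := by
    simp only [ξ, dotProduct, vec, c0, bv, bq, Fin.sum_univ_succ, Fin.cons_zero, Fin.cons_succ]
    push_cast
    rw [mul_zero, zero_add]
    exact Finset.sum_congr rfl fun j _ => one_mul _
  have hEU : ∀ m : Fin (n + 1) → ℤ, Eop (bv n t) (Fs (cw2 κ) (Cay2 (Fc f) M g)) U m =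
      algebraMap ℂ _ (if m 0 = 0 then (L u - (s₀ : ℂ) • u) (Fin.tail m) else 0) := by
    intro m
    unfold Eop iF
    -- the terms of the sum
    have h2 : ∑ v ∈ (Fs (cw2 κ) (Cay2 (Fc f) M g)).support,
        (Fs (cw2 κ) (Cay2 (Fc f) M g)) v • con (vec ℂ v) (U (m - v)) =
        algebraMap ℂ (Lam ℂ (n + 1)) (if m 0 = 0 then ∑ v ∈ (Fs κ (Fc f)).support,
          (Fs κ (Fc f)) v * u (Fin.tail m - v) else 0) := by
      have e1 : ∑ v ∈ (Fs (cw2 κ) (Cay2 (Fc f) M g)).support,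
          (Fs (cw2 κ) (Cay2 (Fc f) M g)) v • con (vec ℂ v) (U (m - v)) =
          ∑ v ∈ (Fs κ (Fc f)).support, (Fs (cw2 κ) (Cay2 (Fc f) M g)) (c0 v) •
            con (vec ℂ (c0 v)) (U (m - c0 v)) := by
        rw [← Finset.sum_image (s := (Fs κ (Fc f)).support) (g := (c0 : (Fin n → ℤ) → _))
          (f := fun v => (Fs (cw2 κ) (Cay2 (Fc f) M g)) v • con (vec ℂ v) (U (m - v)))
          (fun x _ y _ h => c0_injective h)]
        symm
        refine Finset.sum_subset ?_ ?_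
        · intro v hv
          obtain ⟨v', hv', rfl⟩ := Finset.mem_image.1 hv
          rw [mem_Fs_support] at hv' ⊢
          refine ⟨by rw [cw2_dot_c0, hκ2, hv'.1], ?_⟩
          rw [Cay2_c0]
          exact hv'.2
        · intro v hv hv'
          rcases (mem_cay2_support f hM1 hg0 v).1 hv with ⟨u', hu', hu'', rfl⟩ | rfl | ⟨j, hj, rfl⟩
          · exfalso
            apply hv'
            refine Finset.mem_image_of_mem _ ?_
            rw [mem_Fs_support]
            exact ⟨hu'', Finsupp.mem_support_iff.1 hu'⟩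
          · by_cases h0 : (m - cx2 n) 0 = 0
            · rw [hUdef _ h0, f8_con, hdotξ]
              have h4 : Fin.tail (cx2 n) = (0 : Fin n → ℤ) := by
                funext j
                simp [cx2, Fin.tail]
              rw [h4, dotProduct_zero]
              simp
            · rw [hUne0 _ h0, map_zero, smul_zero]
          · by_cases h0 : (m - c1 ((M j : ℤ) • ee j)) 0 = 0
            · rw [hUdef _ h0, f8_con, hdotξ]
              have h4 : Fin.tail (c1 ((M j : ℤ) • ee j)) = ((M j : ℤ) • ee j : Fin n → ℤ) := by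
                funext i
                simp [c1, Fin.tail]
              have h5 : k ⬝ᵥ ((M j : ℤ) • ee j : Fin n → ℤ) = 0 := by
                rw [dot_smul_ee, hk0 j hj.symm, mul_zero]
              rw [h4, h5]
              simp
            · rw [hUne0 _ h0, map_zero, smul_zero]
      rw [e1]
      by_cases h0 : m 0 = 0
      · rw [if_pos h0, map_sum]
        refine Finset.sum_congr rfl fun v hv => ?_
        have hv' := (mem_Fs_support _ _ _).1 hv
        have h3 : (m - c0 v) 0 = 0 := by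
          rw [Pi.sub_apply, h0]
          simp [c0]
        have h4 : Fin.tail (m - c0 v) = Fin.tail m - v := by
          funext j
          simp [c0, Fin.tail]
        have h5 : Fin.tail (c0 v) = v := by
          funext j
          simp [c0, Fin.tail]
        have h6 : (Fs (cw2 κ) (Cay2 (Fc f) M g)) (c0 v) = (Fs κ (Fc f)) v := by
          have e2 : (cw2 κ).1 ⬝ᵥ c0 v = (cw2 κ).2 := by rw [cw2_dot_c0, hκ2, hv'.1]
          have e3 : (Fs (cw2 κ) (Cay2 (Fc f) M g)) (c0 v) = Cay2 (Fc f) M g (c0 v) := by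
            unfold Fs
            exact Finsupp.filter_apply_pos _ _ e2
          have e4 : (Fs κ (Fc f)) v = Fc f v := by
            unfold Fs
            exact Finsupp.filter_apply_pos _ _ hv'.1
          rw [e3, e4, Cay2_c0]
        rw [h6, hUdef _ h3, f8_con, hdotξ, h4, h5, hkv v hv, Algebra.smul_def, ← map_mul]
        congr 2
        field_simp
      · rw [if_neg h0, map_zero]
        refine Finset.sum_eq_zero fun v _ => ?_
        have h3 : (m - c0 v) 0 ≠ 0 := by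
          rw [Pi.sub_apply]
          simpa [c0] using h0
        rw [hUne0 _ h3, map_zero, smul_zero]
    rw [h2]
    by_cases h0 : m 0 = 0
    · rw [if_pos h0, if_pos h0]
      have h1 : con (vec ℂ m + bv n t) (U m) = algebraMap ℂ (Lam ℂ (n + 1))
          ((((κ.1 ⬝ᵥ Fin.tail m : ℤ) : ℂ) / κ.2 - s₀) * u (Fin.tail m)) := by
        rw [hUdef m h0, f8_con, add_dotProduct, hdotξ, hbvξ]
        congr 1
        by_cases hu0 : u (Fin.tail m) = 0
        · rw [hu0, zero_div, mul_zero, mul_zero]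
        · have h7 := (huS.2 _ hu0).2.2.2
          have h8 : (Nk : ℂ) * ((κ.1 ⬝ᵥ Fin.tail m : ℤ) : ℂ) =
              (κ.2 : ℂ) * ((k ⬝ᵥ Fin.tail m : ℤ) : ℂ) := by exact_mod_cast h7
          have h9 : ((κ.1 ⬝ᵥ Fin.tail m : ℤ) : ℂ) / κ.2 = ((k ⬝ᵥ Fin.tail m : ℤ) : ℂ) / Nk := by
            rw [div_eq_div_iff hNC hNkC]
            linear_combination h8
          rw [h9]
          field_simp
          linear_combination hsC
      rw [h1, ← map_add]
      congr 1
      rw [Pi.sub_apply, Pi.smul_apply, smul_eq_mul, hL, f8T_apply]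
      ring
    · rw [if_neg h0, if_neg h0, map_zero, hUne0 m h0, map_zero, add_zero]
  have hUfin : (Function.support U).Finite := by
    apply (huS.1.image (c0 : (Fin n → ℤ) → Fin (n + 1) → ℤ)).subset
    intro m hm
    obtain ⟨h0, h1⟩ := hUne m hm
    exact ⟨Fin.tail m, h1, (f8_c0_tail m h0).symm⟩
  refine ⟨V₀ - U, ⟨?_, ?_⟩, ?_, ?_, ?_⟩
  · apply (hV1.1.union hUfin).subset
    intro m hm
    by_contra h
    simp only [Set.mem_union, Function.mem_support, not_or, not_not] at h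
    apply hm
    rw [Pi.sub_apply, h.1, h.2, sub_zero]
  · intro m hm
    by_cases h : V₀ m = 0
    · have h1 : U m ≠ 0 := by
        intro h'
        apply hm
        rw [Pi.sub_apply, h, h', sub_zero]
      obtain ⟨h0, h1⟩ := hUne m h1
      obtain ⟨h2, h3, h4, -⟩ := huS.2 _ h1
      refine ⟨?_, ?_⟩
      · rw [f8_cw_dot, h0, mul_zero, zero_add, hκ2]
        exact mul_dvd_mul_left 2 h2
      · intro h hh
        unfold H2c CC at hh
        rcases Finset.mem_union.1 hh with hh | hh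
        · obtain ⟨τ', hτ', rfl⟩ := Finset.mem_image.1 hh
          obtain ⟨τ, hτ, rfl⟩ := Finset.mem_image.1 hτ'
          have h5 : et (cw2 κ) (cw2 τ) ⬝ᵥ m = 4 * (et κ τ ⬝ᵥ Fin.tail m) := by
            rw [f8_et_dot, f8_et_dot, f8_cw_dot, f8_cw_dot, h0]
            have e1 : (cw2 κ).2 = 2 * κ.2 := rfl
            have e2 : (cw2 τ).2 = 2 * τ.2 := rfl
            rw [e1, e2]
            ring
          rw [h5]
          have h6 : (0 : ℚ) ≤ ((et κ τ ⬝ᵥ Fin.tail m : ℤ) : ℚ) := by exact_mod_cast h4 τ hτ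
          have h7 := haS τ hτ
          push_cast
          linarith
        · obtain ⟨j', hj', rfl⟩ := Finset.mem_image.1 hh
          obtain ⟨j, -, rfl⟩ := Finset.mem_image.1 hj'
          have h5 : ee (j.succ : Fin (n + 1)) ⬝ᵥ m = m j.succ := by
            unfold ee
            rw [single_one_dotProduct]
          have h6 : qf (ee (j.succ : Fin (n + 1))) a = a j.succ := by
            unfold qf ee
            rw [Finset.sum_eq_single j.succ]
            · rw [Pi.single_eq_same]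
              simp
            · intro i _ hi
              rw [Pi.single_eq_of_ne hi]
              simp
            · intro h
              exact absurd (Finset.mem_univ _) h
          rw [h5, h6]
          have h7 : (0 : ℚ) ≤ ((m j.succ : ℤ) : ℚ) := by exact_mod_cast h3 j
          linarith [ha j]
    · exact hV1.2 m h
  · intro m
    rw [Pi.sub_apply]
    refine Submodule.sub_mem _ (hV2 m) ?_
    by_cases h0 : m 0 = 0
    · rw [hUdef m h0]
      exact f8_fil _ _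
    · rw [hUne0 m h0]
      exact Submodule.zero_mem _
  · intro m j hj hm
    have h1 : U m = 0 := by
      by_contra h
      obtain ⟨h0, h1⟩ := hUne m h
      obtain ⟨i, hi, hij⟩ := List.mem_map.1 hj
      have := (huS.2 _ h1).2.1 i
      have h2 : Fin.tail m i = m j := by rw [← hij]; rfl
      rw [h2, hm] at this
      norm_num at this
    rw [Pi.sub_apply, h1, sub_zero]
    exact hV3 m j hj hm
  · intro m
    have h1 : Eop (bv n t) (Fs (cw2 κ) (Cay2 (Fc f) M g)) (V₀ - U) m =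
        Eop (bv n t) (Fs (cw2 κ) (Cay2 (Fc f) M g)) V₀ m -
        Eop (bv n t) (Fs (cw2 κ) (Cay2 (Fc f) M g)) U m := by
      unfold Eop iF
      simp only [Pi.sub_apply, map_sub, smul_sub, Finset.sum_sub_distrib]
      abel
    rw [h1, hV4, hEU, hsum', ← map_sub]
    by_cases h0 : m 0 = 0
    · rw [if_pos h0, if_pos h0, hbq, Pi.add_apply, add_sub_cancel_right, Pi.smul_apply,
        smul_eq_mul]
      by_cases h : m = 0
      · subst h
        have h2 : Fin.tail (0 : Fin (n + 1) → ℤ) = 0 := rfl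
        rw [if_pos rfl, h2, hδ, Pi.single_eq_same, mul_one]
      · have h2 : Fin.tail m ≠ 0 := by
          intro h3
          apply h
          rw [f8_c0_tail m h0, h3]
          funext i
          refine Fin.cases ?_ (fun j => ?_) i
          · simp [c0]
          · simp [c0]
        rw [if_neg h, hδ, Pi.single_eq_of_ne h2, mul_zero, map_zero]
    · have h : m ≠ 0 := by
        rintro rfl
        exact h0 rfl
      rw [if_neg h0, if_neg h0, if_neg h, sub_zero, map_zero]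

end MPb07157T
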