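import Pool.Agent.Lib.MP_b07157_ag.NewtFF2
import Pool.Agent.Lib.MP_b07157_agN.LatB

/-!
# The functional equation with a factor `u(x)`, `u(0) = 1`
-/

noncomputable section

namespace MPb07157T

open Finset Matrix MvPolynomial MPb07157

variable {n : ℕ}

private theorem la_ph_range (f : MvPolynomial (Fin n) ℂ) (K N : ℕ) (m : PY n)
    (hN : m.natDegree < N) :
    ph f K m = ∑ j ∈ range N, (descPochhammer (MvPowerSeries (Fin n) ℂ) j) * Polynomial.C
      (m.coeff j * (f : MvPowerSeries (Fin n) ℂ) ^ (K - j)) := by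
  unfold ph
  refine Polynomial.sum_over_range' m ?_ N hN
  intro j
  simp

private theorem la_ph_add (f : MvPolynomial (Fin n) ℂ) (K : ℕ) (m m' : PY n) :
    ph f K (m + m') = ph f K m + ph f K m' := by
  unfold ph
  refine Polynomial.sum_add_index m m' _ ?_ ?_
  · intro j
    simp
  · intro j a b
    rw [add_mul, map_add, mul_add]

private theorem la_ph_zero (f : MvPolynomial (Fin n) ℂ) (K : ℕ) : ph f K (0 : PY n) = 0 := by
  unfold ph
  exact Polynomial.sum_zero_index _

private theorem la_ph_sum (f : MvPolynomial (Fin n) ℂ) (K : ℕ) {ι : Type} (s : Finset ι)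
    (g : ι → PY n) : ph f K (∑ i ∈ s, g i) = ∑ i ∈ s, ph f K (g i) := by
  classical
  induction s using Finset.induction_on with
  | empty => simpa using la_ph_zero f K
  | insert a s ha ih => rw [Finset.sum_insert ha, Finset.sum_insert ha, la_ph_add, ih]

private theorem la_ph_C_mul (f : MvPolynomial (Fin n) ℂ) (K : ℕ) (c : MvPowerSeries (Fin n) ℂ)
    (m : PY n) : ph f K (Polynomial.C c * m) = Polynomial.C c * ph f K m := by
  have h1 : (Polynomial.C c * m).natDegree < m.natDegree + 1 :=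
    lt_of_le_of_lt (Polynomial.natDegree_C_mul_le c m) (Nat.lt_succ_self _)
  rw [la_ph_range f K (m.natDegree + 1) _ h1,
    la_ph_range f K (m.natDegree + 1) m (Nat.lt_succ_self _), Finset.mul_sum]
  refine Finset.sum_congr rfl fun j _ => ?_
  rw [Polynomial.coeff_C_mul, mul_assoc c, map_mul]
  ring

private theorem la_ph_succ (f : MvPolynomial (Fin n) ℂ) (K : ℕ) (m : PY n)
    (hm : m.natDegree ≤ K) :
    ph f (K + 1) m = Polynomial.C (f : MvPowerSeries (Fin n) ℂ) * ph f K m := by
  rw [la_ph_range f (K + 1) (K + 1) m (Nat.lt_succ_of_le hm),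
    la_ph_range f K (K + 1) m (Nat.lt_succ_of_le hm), Finset.mul_sum]
  refine Finset.sum_congr rfl fun j hj => ?_
  have hj' : j ≤ K := Nat.lt_succ_iff.1 (Finset.mem_range.1 hj)
  rw [Nat.succ_sub hj', pow_succ, ← mul_assoc, map_mul _ (m.coeff j * _)]
  ring

private theorem la_ph_raise (f : MvPolynomial (Fin n) ℂ) (K j : ℕ) (m : PY n)
    (hm : m.natDegree ≤ K) :
    ph f (K + j) m = Polynomial.C (f : MvPowerSeries (Fin n) ℂ) ^ j * ph f K m := by
  induction j with
  | zero => simp
  | succ j ih =>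
    rw [← add_assoc, la_ph_succ f (K + j) m (by omega), ih, pow_succ]
    ring

private theorem la_deg_tht (f : MvPolynomial (Fin n) ℂ) (m : PY n) :
    (Tht f m).natDegree ≤ m.natDegree + 1 := by
  unfold Tht
  refine Polynomial.natDegree_add_le_of_degree_le ?_ ?_
  · refine le_trans Polynomial.natDegree_mul_le ?_
    have h1 : (Polynomial.X : PY n).natDegree ≤ 1 := Polynomial.natDegree_X_le
    have h2 := Polynomial.natDegree_derivative_le m
    omega
  · refine le_trans Polynomial.natDegree_mul_le ?_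
    have h1 : (Polynomial.X * Polynomial.C (f : MvPowerSeries (Fin n) ℂ) : PY n).natDegree ≤ 1 :=
      le_trans Polynomial.natDegree_mul_le
        (by rw [Polynomial.natDegree_C, add_zero]; exact Polynomial.natDegree_X_le)
    omega

private theorem la_deg_tht_iter (f : MvPolynomial (Fin n) ℂ) (m : PY n) (i : ℕ) :
    ((Tht f)^[i] m).natDegree ≤ m.natDegree + i := by
  induction i with
  | zero => simp
  | succ i ih =>
    rw [Function.iterate_succ_apply']
    have := la_deg_tht f ((Tht f)^[i] m)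
    omega

private theorem la_ph_tht_iter (f : MvPolynomial (Fin n) ℂ) (K : ℕ) (m : PY n)
    (hm : m.natDegree ≤ K) (i : ℕ) :
    ph f (K + i) ((Tht f)^[i] m) =
      Polynomial.C (f : MvPowerSeries (Fin n) ℂ) ^ i * Polynomial.X ^ i * ph f K m := by
  induction i with
  | zero => simp
  | succ i ih =>
    rw [Function.iterate_succ_apply', ← add_assoc,
      ph_tht f (K + i) _ (le_trans (la_deg_tht_iter f m i) (by omega)), ih, pow_succ, pow_succ]
    ring

private theorem la_ph_comb (f : MvPolynomial (Fin n) ℂ) (K N : ℕ) (m : PY n)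
    (hm : m.natDegree ≤ K) (c : ℕ → MvPowerSeries (Fin n) ℂ) :
    ph f (K + N) (∑ i ∈ range (N + 1), Polynomial.C (c i) * (Tht f)^[i] m) =
      Polynomial.C (f : MvPowerSeries (Fin n) ℂ) ^ N *
        (∑ i ∈ range (N + 1), Polynomial.C (c i) * Polynomial.X ^ i) * ph f K m := by
  rw [la_ph_sum, Finset.mul_sum, Finset.sum_mul]
  refine Finset.sum_congr rfl fun i hi => ?_
  have hi' : i ≤ N := Nat.lt_succ_iff.1 (Finset.mem_range.1 hi)
  obtain ⟨j, rfl⟩ := Nat.exists_eq_add_of_le hi'
  have h1 : ((Tht f)^[i] m).natDegree ≤ K + i := le_trans (la_deg_tht_iter f m i) (by omega)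
  rw [la_ph_C_mul, ← add_assoc, la_ph_raise f (K + i) j _ h1, la_ph_tht_iter f K m hm i, pow_add]
  ring

private theorem la_deg_comb (f : MvPolynomial (Fin n) ℂ) (K N : ℕ) (m : PY n)
    (hm : m.natDegree ≤ K) (c : ℕ → MvPowerSeries (Fin n) ℂ) :
    (∑ i ∈ range (N + 1), Polynomial.C (c i) * (Tht f)^[i] m).natDegree ≤ K + N := by
  refine Polynomial.natDegree_sum_le_of_forall_le _ _ fun i hi => ?_
  have hi' : i ≤ N := Nat.lt_succ_iff.1 (Finset.mem_range.1 hi)
  refine le_trans (Polynomial.natDegree_C_mul_le _ _) ?_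
  have := la_deg_tht_iter f m i
  omega


/-- The functional equation in the module, local version. -/
theorem functional_eq_form {f : MvPolynomial (Fin n) ℂ} (hf : f ≠ 0) {b : Polynomial ℂ}
    (hb : InDnForm f 1 (b.map (MvPowerSeries.C (σ := Fin n) (R := ℂ)))) :
    ∃ h : MvPolynomial (Fin n) ℂ, constantCoeff h = 1 ∧
      TTp f (Polynomial.C (h : MvPowerSeries (Fin n) ℂ) *
        ∑ i ∈ range (b.natDegree + 1), Polynomial.C (MvPowerSeries.C (b.coeff i)) *
        (Tht f)^[i] (1 : PY n)) := by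
  obtain ⟨h, hh, hIn⟩ := hb.exists_poly
  refine ⟨h, hh, ?_⟩
  obtain ⟨m, t, K, d, kk, e⟩ := exists_TTp hf hIn
  rw [map_mul, toForm_C, toForm_liftS] at e
  set L : PY n := ∑ i ∈ range (b.natDegree + 1), Polynomial.C (MvPowerSeries.C (b.coeff i)) *
        (Tht f)^[i] (1 : PY n) with hL
  have h1 : (1 : PY n).natDegree ≤ 0 := by simp
  have hLd : L.natDegree ≤ 0 + b.natDegree :=
    la_deg_comb f 0 b.natDegree 1 h1 fun i => MvPowerSeries.C (b.coeff i)
  have hLp := la_ph_comb f 0 b.natDegree 1 h1 fun i => MvPowerSeries.C (b.coeff i)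
  rw [← hL] at hLp
  have h2 : ph f 0 (1 : PY n) = 1 := by
    rw [la_ph_range f 0 1 _ (by simp)]
    simp
  have h3 : ∑ i ∈ range (b.natDegree + 1), Polynomial.C (MvPowerSeries.C (b.coeff i)) *
      Polynomial.X ^ i = b.map (MvPowerSeries.C (σ := Fin n) (R := ℂ)) := by
    conv_rhs => rw [Polynomial.as_sum_range_C_mul_X_pow b]
    rw [Polynomial.map_sum]
    refine Finset.sum_congr rfl fun i _ => ?_
    rw [Polynomial.map_mul, Polynomial.map_pow, Polynomial.map_X, Polynomial.map_C]
  rw [h2, h3, mul_one, zero_add] at hLp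
  rw [zero_add] at hLd
  have hLd' : (Polynomial.C (h : MvPowerSeries (Fin n) ℂ) * L).natDegree ≤ b.natDegree :=
    (Polynomial.natDegree_C_mul_le _ _).trans hLd
  have h4 : Polynomial.C (h : MvPowerSeries (Fin n) ℂ) * L = m := by
    refine ph_injective hf (b.natDegree + K) (by omega) (by omega) ?_
    rw [la_ph_raise f b.natDegree K _ hLd', la_ph_C_mul, hLp, add_comm b.natDegree K,
      la_ph_raise f K b.natDegree m d, e, Nat.add_sub_cancel]
    ring
  rw [h4]
  exact t

/-- `TTp` with the number of derivations. -/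
inductive TTr (f : MvPolynomial (Fin n) ℂ) : ℕ → PY n → Prop
  | gen (c : MvPolynomial (Fin n) ℂ) (i : ℕ) :
      TTr f 0 (Polynomial.C (c : MvPowerSeries (Fin n) ℂ) *
        (Tht f)^[i] (Polynomial.C (f : MvPowerSeries (Fin n) ℂ)))
  | add {r : ℕ} {m m' : PY n} : TTr f r m → TTr f r m' → TTr f r (m + m')
  | nab {r : ℕ} {m : PY n} (i : Fin n) : TTr f r m → TTr f (r + 1) (nab f i m)
  | mono {r : ℕ} {m : PY n} : TTr f r m → TTr f (r + 1) m

theorem TTr.mono_le {f : MvPolynomial (Fin n) ℂ} {r s : ℕ} {m : PY n} (h : TTr f r m)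
    (hrs : r ≤ s) : TTr f s m := by
  obtain ⟨k, rfl⟩ := Nat.exists_eq_add_of_le hrs
  clear hrs
  induction k with
  | zero => exact h
  | succ k ih => exact ih.mono

theorem TTp.exists_TTr {f : MvPolynomial (Fin n) ℂ} {m : PY n} (h : TTp f m) :
    ∃ r, TTr f r m := by
  induction h with
  | gen c i => exact ⟨0, TTr.gen c i⟩
  | add _ _ ih1 ih2 =>
    obtain ⟨r, hr⟩ := ih1
    obtain ⟨s, hs⟩ := ih2
    exact ⟨max r s, (hr.mono_le (le_max_left _ _)).add (hs.mono_le (le_max_right _ _))⟩
  | nab i _ ih =>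
    obtain ⟨r, hr⟩ := ih
    exact ⟨r + 1, TTr.nab i hr⟩

theorem TTr.toTTp {f : MvPolynomial (Fin n) ℂ} {r : ℕ} {m : PY n} (h : TTr f r m) :
    TTp f m := by
  induction h with
  | gen c i => exact TTp.gen c i
  | add _ _ ih1 ih2 => exact ih1.add ih2
  | nab i _ ih => exact ih.nab i
  | mono _ ih => exact ih

end MPb07157T
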