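import Pool.Agent.Lib.MP_b07157_agN.Lat
import Pool.Agent.Lib.MP_b07157_agNL.CDefsL
import Pool.Agent.Lib.MP_b07157_agNL.LatLa

/-!
# The functional equation on the lattice, local version
-/

noncomputable section

namespace MPb07157T

open Finset Matrix MvPolynomial MPb07157

variable {n : ℕ}

/-! ### Exterior algebra -/

private theorem la2_con {r : ℕ} (v ξ : Fin r → ℂ) (a : ℂ) :
    con v (gi ξ * algebraMap ℂ (Lam ℂ r) a) = algebraMap ℂ (Lam ℂ r) ((v ⬝ᵥ ξ) * a) := by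
  unfold con gi
  have h := CliffordAlgebra.contractLeft_ι_mul (Q := (0 : QuadraticForm ℂ (Fin r → ℂ)))
    (dualv v) ξ (algebraMap ℂ (Lam ℂ r) a)
  have h2 := CliffordAlgebra.contractLeft_algebraMap (Q := (0 : QuadraticForm ℂ (Fin r → ℂ)))
    (dualv v) a
  refine Eq.trans h ?_
  rw [h2, mul_zero, sub_zero, map_mul]
  rw [Algebra.smul_def]
  rfl

private theorem la2_fil {r : ℕ} (ξ : Fin r → ℂ) (x : Lam ℂ r) : gi ξ * x ∈ Fil ℂ r 1 := by
  unfold Fil
  rw [pow_one]
  exact Submodule.mul_mem_mul ⟨ξ, rfl⟩ trivial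

private theorem la2_self {r : ℕ} (ξ : Fin r → ℂ) (x : Lam ℂ r) : gi ξ * (gi ξ * x) = 0 := by
  rw [← mul_assoc]
  unfold gi
  rw [ExteriorAlgebra.ι_sq_zero, zero_mul]

private theorem la2_dot {r : ℕ} (v : Fin r → ℂ) (j : Fin r) : v ⬝ᵥ vec ℂ (ee j) = v j := by
  have h : vec ℂ (ee j) = Pi.single j 1 := by
    funext i
    unfold vec ee
    by_cases hi : i = j
    · subst hi; simp
    · simp [Pi.single_eq_of_ne hi]
  rw [h, dotProduct_single, mul_one]


/-! ### Sums over the exponents -/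

/-- Sums over the exponents of `f + x₀² + x₀ g`. -/
theorem sum_Cay2 (F : (Fin n → ℤ) →₀ ℂ) (M : Fin n → ℕ) (g : Fin n → ℂ)
    (G : (Fin (n + 1) → ℤ) → ℂ) :
    ∑ v ∈ (Cay2 F M g).support, Cay2 F M g v * G v =
      ∑ v ∈ F.support, F v * G (c0 v) +
        (G (cx2 n) + ∑ j, g j * G (c1 ((M j : ℤ) • ee j))) := by
  classical
  have h0 : ∑ v ∈ (Cay2 F M g).support, Cay2 F M g v * G v =
      (F.mapDomain c0 + (Finsupp.single (cx2 n) 1 +
        ∑ j, Finsupp.single (c1 ((M j : ℤ) • ee j)) (g j))).sum fun v a => a * G v := rfl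
  rw [h0, Finsupp.sum_add_index' (fun _ => zero_mul _) (fun _ _ _ => add_mul _ _ _),
    Finsupp.sum_mapDomain_index (fun _ => zero_mul _) (fun _ _ _ => add_mul _ _ _),
    Finsupp.sum_add_index' (fun _ => zero_mul _) (fun _ _ _ => add_mul _ _ _),
    Finsupp.sum_single_index (zero_mul _), one_mul]
  congr 2
  have h := Finsupp.sum_finsetSum_index (s := (Finset.univ : Finset (Fin n)))
    (g := fun j : Fin n => Finsupp.single (c1 ((M j : ℤ) • ee j)) (g j))
    (h := fun (v : Fin (n + 1) → ℤ) (a : ℂ) => a * G v) (fun _ => zero_mul _)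
    (fun _ _ _ => add_mul _ _ _)
  rw [← h]
  refine Finset.sum_congr rfl fun j _ => ?_
  rw [Finsupp.sum_single_index (zero_mul _)]

/-- `∂_i g`. -/
def hd2 (M : Fin n → ℕ) (g : Fin n → ℂ) (i : Fin n) : MvPolynomial (Fin n) ℂ :=
  monomial (Finsupp.single i (M i - 1)) (g i * M i)

/-- `∇_i (φ y₀^j) = (∇_i φ) y₀^j + (∂_i g) φ y₀^(j+1)`, `y₀ = y x₀`. -/
theorem inj_nab2 (f : MvPolynomial (Fin n) ℂ) {M : Fin n → ℕ} (hM : ∀ j, 1 ≤ M j)
    (g : Fin n → ℂ) (j : ℤ) (φ : PY n) (i : Fin n) (m : Fin (n + 2) → ℤ) :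
    ((m i.succ.succ : ℂ) + 1) * inj j φ (m + he i.succ) +
      ∑ v ∈ (Cay2 (Fc f) M g).support, Cay2 (Fc f) M g v *
        ((v i.succ : ℂ) * inj j φ (m + he i.succ - sh v)) =
      inj j (nab f i φ) m +
        inj (j + 1) (Polynomial.C ((hd2 M g i : MvPolynomial (Fin n) ℂ) :
          MvPowerSeries (Fin n) ℂ) * φ) m := by
  classical
  have hsum := sum_Cay2 (Fc f) M g fun v => (v i.succ : ℂ) * inj j φ (m + he i.succ - sh v)
  rw [hsum]
  -- the terms of `g`
  have e1 : ∀ u : Fin n → ℤ, (c1 u i.succ : ℤ) = u i := fun u => rfl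
  have e0 : ∀ u : Fin n → ℤ, (c0 u i.succ : ℤ) = u i := fun u => rfl
  have e3 : (cx2 n i.succ : ℤ) = 0 := rfl
  have e2 : ∑ l, g l * (((c1 ((M l : ℤ) • ee l) i.succ : ℤ) : ℂ) *
      inj j φ (m + he i.succ - sh (c1 ((M l : ℤ) • ee l)))) =
      g i * ((M i : ℂ) * inj j φ (m + he i.succ - sh (c1 ((M i : ℤ) • ee i)))) := by
    rw [Finset.sum_eq_single i]
    · rw [e1]
      unfold ee
      simp
    · intro l _ hl
      rw [e1]
      unfold ee
      simp [hl.symm]
    · intro h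
      exact absurd (Finset.mem_univ i) h
  rw [e2, e3]
  simp only [e0, Int.cast_zero, zero_mul, zero_add]
  have hh0 : ∀ (i : Fin n), (he i.succ : Fin (n + 2) → ℤ) 0 = 0 := fun i => rfl
  have hh1 : ∀ (i : Fin n), (he i.succ : Fin (n + 2) → ℤ) 1 = 0 := fun i => by
    show (ee i.succ : Fin (n + 1) → ℤ) 0 = 0
    unfold ee
    exact Pi.single_eq_of_ne (Fin.succ_ne_zero i).symm _
  have hh2 : ∀ (i l : Fin n), (he i.succ : Fin (n + 2) → ℤ) l.succ.succ = ee i l :=
      fun i l => by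
    show (ee i.succ : Fin (n + 1) → ℤ) l.succ = ee i l
    unfold ee
    by_cases h : l = i
    · subst h
      rw [Pi.single_eq_same, Pi.single_eq_same]
    · rw [Pi.single_eq_of_ne h, Pi.single_eq_of_ne (fun h' => h (Fin.succ_injective _ h'))]
  have hlo : lo j (m + he i.succ) = lo j m + he i := by
    funext l
    refine Fin.cases ?_ (fun l => ?_) l
    · show (m 0 + (he i.succ : Fin (n + 2) → ℤ) 0) - j = (m 0 - j) + 0
      rw [hh0]
      ring
    · show m l.succ.succ + (he i.succ : Fin (n + 2) → ℤ) l.succ.succ = m l.succ.succ + ee i l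
      rw [hh2]
  have hlo0 : ∀ v : Fin n → ℤ, lo j (m + he i.succ - sh (c0 v)) = lo j m + he i - sh v := by
    intro v
    funext l
    refine Fin.cases ?_ (fun l => ?_) l
    · show (m 0 + (he i.succ : Fin (n + 2) → ℤ) 0 - 1) - j = (m 0 - j) + 0 - 1
      rw [hh0]
      ring
    · show m l.succ.succ + (he i.succ : Fin (n + 2) → ℤ) l.succ.succ - v l =
        m l.succ.succ + ee i l - v l
      rw [hh2]
  have hlo1 : lo j (m + he i.succ - sh (c1 ((M i : ℤ) • ee i))) =
      lo (j + 1) m -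
        (Fin.cons 0 fun l => ((Finsupp.single i (M i - 1) : Fin n →₀ ℕ) l : ℤ)) := by
    funext l
    refine Fin.cases ?_ (fun l => ?_) l
    · show (m 0 + (he i.succ : Fin (n + 2) → ℤ) 0 - 1) - j = (m 0 - (j + 1)) - 0
      rw [hh0]
      ring
    · show m l.succ.succ + (he i.succ : Fin (n + 2) → ℤ) l.succ.succ - ((M i : ℤ) • ee i) l =
        m l.succ.succ - ((Finsupp.single i (M i - 1) : Fin n →₀ ℕ) l : ℤ)
      rw [hh2]
      unfold ee
      by_cases h : l = i
      · subst h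
        rw [Pi.smul_apply, Pi.single_eq_same, Finsupp.single_eq_same, smul_eq_mul, mul_one]
        push_cast [hM l]
        ring
      · rw [Pi.smul_apply, Pi.single_eq_of_ne h, Finsupp.single_eq_of_ne h]
        simp
  have hone : ∀ v : Fin (n + 1) → ℤ, (m + he i.succ - sh v) 1 = m 1 - v 0 := by
    intro v
    show m 1 + (he i.succ : Fin (n + 2) → ℤ) 1 - v 0 = m 1 - v 0
    rw [hh1]
    ring
  have hone' : (m + he i.succ) 1 = m 1 := by
    show m 1 + (he i.succ : Fin (n + 2) → ℤ) 1 = m 1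
    rw [hh1]
    ring
  have hc0 : ∀ v : Fin n → ℤ, (c0 v : Fin (n + 1) → ℤ) 0 = 0 := fun v => rfl
  have hc1 : ∀ v : Fin n → ℤ, (c1 v : Fin (n + 1) → ℤ) 0 = 1 := fun v => rfl
  rw [← add_assoc]
  congr 1
  · unfold inj
    rw [hone']
    simp only [hone, hc0, sub_zero, hlo0, hlo]
    split_ifs with h
    · rw [cf_nab]
      refine congrArg₂ (· + ·) rfl (Finset.sum_congr rfl fun v _ => ?_)
      ring
    · simp
  · unfold inj
    rw [hone, hc1, hlo1]
    by_cases h : m 1 = j + 1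
    · rw [if_pos h, if_pos (by rw [h]; ring), hd2, cf_C_mon]
      ring
    · rw [if_neg h, if_neg (fun h' => h (by linarith))]
      ring

/-! ### Solvable functions -/

/-- The cochain with the only component `G` in the direction `x_i`. -/
private def Wn (i : Fin n) (G : (Fin (n + 2) → ℤ) → ℂ) : MFun ℂ (n + 1) := fun m =>
  gi (vec ℂ (ee i.succ)) * algebraMap ℂ (Lam ℂ (n + 1)) (G (m + he i.succ))

private theorem Wn_EEb (t : ℚ) (F : (Fin (n + 1) → ℤ) →₀ ℂ) (i : Fin n)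
    (G : (Fin (n + 2) → ℤ) → ℂ) (m : Fin (n + 2) → ℤ) :
    EEb (bv n t) F (Wn i G) m = algebraMap ℂ (Lam ℂ (n + 1))
      (((m i.succ.succ : ℂ) + 1) * G (m + he i.succ) +
        ∑ v ∈ F.support, F v * ((v i.succ : ℂ) * G (m + he i.succ - sh v))) := by
  unfold EEb Wn
  simp only [la2_con, la2_dot]
  rw [map_add, map_sum]
  refine congrArg₂ (· + ·) ?_ (Finset.sum_congr rfl fun v _ => ?_)
  · congr 2
    show ((m i.succ.succ : ℤ) : ℂ) + bv n t i.succ = _
    unfold bv bq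
    rw [Fin.cons_succ]
    simp
  · rw [Algebra.smul_def, ← map_mul]
    refine congrArg _ ?_
    have h : m - sh v + he i.succ = m + he i.succ - sh v := by abel
    rw [h]
    unfold vec
    ring

/-- Solvable functions. -/
private def SolL (f : MvPolynomial (Fin n) ℂ) (M : Fin n → ℕ) (g : Fin n → ℂ) (t : ℚ)
    (G : (Fin (n + 2) → ℤ) → ℂ) : Prop :=
  ∃ W : MFun ℂ (n + 1), (Function.support W).Finite ∧ MDeg 1 W ∧
    (∀ m, W m ≠ 0 → ∀ j : Fin n, -1 ≤ m j.succ.succ) ∧
    (∀ m, ∀ j : Fin n, m j.succ.succ = -1 → gi (vec ℂ (ee j.succ)) * W m = 0) ∧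
    ∃ e : (Fin (n + 2) → ℤ) → ℂ,
      (∀ m, EEb (bv n t) (Cay2 (Fc f) M g) W m = algebraMap ℂ (Lam ℂ (n + 1)) (G m - e m)) ∧
      ∀ m, e m ≠ 0 → (∀ j : Fin n, 0 ≤ m j.succ.succ) ∧
        ∀ σ, WtL f M σ → σ.2 ≤ hs (cw2 σ) ⬝ᵥ m

private theorem SolL.add {f : MvPolynomial (Fin n) ℂ} {M : Fin n → ℕ} {g : Fin n → ℂ} {t : ℚ}
    {G G' : (Fin (n + 2) → ℤ) → ℂ} (h : SolL f M g t G) (h' : SolL f M g t G') :
    SolL f M g t fun m => G m + G' m := by
  obtain ⟨W, w1, w2, w3, w4, e, e1, e2⟩ := h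
  obtain ⟨W', w1', w2', w3', w4', e', e1', e2'⟩ := h'
  refine ⟨fun m => W m + W' m, (w1.union w1').subset (Function.support_add _ _), fun m =>
    Submodule.add_mem _ (w2 m) (w2' m), ?_, ?_, fun m => e m + e' m, ?_, ?_⟩
  · intro m hm
    by_cases h : W m = 0
    · refine w3' m fun h' => hm ?_
      show W m + W' m = 0
      rw [h, h', add_zero]
    · exact w3 m h
  · intro m j hj
    rw [mul_add, w4 m j hj, w4' m j hj, add_zero]
  · intro m
    have h1 := congrFun (EEb_add (bv n t) (Cay2 (Fc f) M g) W W') m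
    have h2 : EEb (bv n t) (Cay2 (Fc f) M g) (fun m => W m + W' m) m =
        EEb (bv n t) (Cay2 (Fc f) M g) W m + EEb (bv n t) (Cay2 (Fc f) M g) W' m := h1
    rw [h2, e1, e1', ← map_add]
    congr 1
    ring
  · intro m hm
    by_cases h : e m = 0
    · refine e2' m fun h' => hm ?_
      show e m + e' m = 0
      rw [h, h', add_zero]
    · exact e2 m h

private theorem SolL.neg {f : MvPolynomial (Fin n) ℂ} {M : Fin n → ℕ} {g : Fin n → ℂ} {t : ℚ}
    {G : (Fin (n + 2) → ℤ) → ℂ} (h : SolL f M g t G) : SolL f M g t fun m => -G m := by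
  obtain ⟨W, w1, w2, w3, w4, e, e1, e2⟩ := h
  refine ⟨fun m => -W m, by
      rw [show (fun m => -W m) = -W from rfl, Function.support_neg]
      exact w1, fun m => Submodule.neg_mem _ (w2 m), ?_, ?_, fun m => -e m, ?_, ?_⟩
  · intro m hm
    exact w3 m fun h => hm (by show -W m = 0; rw [h, neg_zero])
  · intro m j hj
    rw [mul_neg, w4 m j hj, neg_zero]
  · intro m
    have h2 : EEb (bv n t) (Cay2 (Fc f) M g) (fun m => -W m) m =
        -EEb (bv n t) (Cay2 (Fc f) M g) W m := by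
      unfold EEb
      simp only [map_neg, smul_neg, Finset.sum_neg_distrib]
      rw [neg_add]
    rw [h2, e1, ← map_neg]
    congr 1
    ring
  · intro m hm
    exact e2 m fun h => hm (by show -e m = 0; rw [h, neg_zero])

private theorem SolL.congr {f : MvPolynomial (Fin n) ℂ} {M : Fin n → ℕ} {g : Fin n → ℂ} {t : ℚ}
    {G G' : (Fin (n + 2) → ℤ) → ℂ} (h : SolL f M g t G) (h' : ∀ m, G m = G' m) :
    SolL f M g t G' := by
  have : G = G' := funext h'
  rwa [← this]

private theorem he_apply (i l : Fin n) : (he i.succ : Fin (n + 2) → ℤ) l.succ.succ = ee i l := by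
  show (ee i.succ : Fin (n + 1) → ℤ) l.succ = ee i l
  unfold ee
  by_cases h : l = i
  · subst h
    rw [Pi.single_eq_same, Pi.single_eq_same]
  · rw [Pi.single_eq_of_ne h, Pi.single_eq_of_ne (fun h' => h (Fin.succ_injective _ h'))]

/-- `∇_i (φ y₀^j)` is solvable. -/
private theorem sol_nab (f : MvPolynomial (Fin n) ℂ) {M : Fin n → ℕ} (hM : ∀ j, 1 ≤ M j)
    (g : Fin n → ℂ) (t : ℚ) (j : ℤ) {φ : PY n} (hφ : FinS φ) (i : Fin n) :
    SolL f M g t fun m => inj j (nab f i φ) m +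
      inj (j + 1) (Polynomial.C ((hd2 M g i : MvPolynomial (Fin n) ℂ) :
        MvPowerSeries (Fin n) ℂ) * φ) m := by
  classical
  have hneg : ∀ (m : Fin (n + 2) → ℤ) (l : Fin n), m l.succ.succ < 0 → inj j φ m = 0 := by
    intro m l hl
    unfold inj
    split_ifs
    · exact lb_cf_neg φ _ l.succ hl
    · rfl
  refine ⟨Wn i (inj j φ), ?_, fun m => la2_fil _ _, ?_, ?_, fun _ => 0, ?_, ?_⟩
  · refine ((inj_finite hφ j).image fun m => m - he i.succ).subset ?_
    intro m hm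
    refine ⟨m + he i.succ, ?_, by simp⟩
    intro h
    refine hm ?_
    unfold Wn
    rw [h, map_zero, mul_zero]
  · intro m hm l
    by_contra hc
    refine hm ?_
    unfold Wn
    rw [hneg _ l, map_zero, mul_zero]
    show m l.succ.succ + (he i.succ : Fin (n + 2) → ℤ) l.succ.succ < 0
    rw [he_apply]
    have h1 : ee i l ≤ 1 := by
      unfold ee
      by_cases hl : l = i
      · subst hl; simp
      · rw [Pi.single_eq_of_ne hl]; norm_num
    omega
  · intro m l hl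
    unfold Wn
    by_cases h : l = i
    · subst h
      exact la2_self _ _
    · rw [hneg _ l, map_zero, mul_zero, mul_zero]
      show m l.succ.succ + (he i.succ : Fin (n + 2) → ℤ) l.succ.succ < 0
      rw [he_apply, hl]
      unfold ee
      rw [Pi.single_eq_of_ne h]
      norm_num
  · intro m
    rw [Wn_EEb, inj_nab2 f hM g j φ i m, sub_zero]
  · intro m hm
    exact absurd rfl hm


private theorem hs_cw2 (σ : (Fin n → ℤ) × ℤ) (m : Fin (n + 2) → ℤ) :
    hs (cw2 σ) ⬝ᵥ m = 2 * (σ.1 ⬝ᵥ fun l : Fin n => m l.succ.succ) -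
      σ.2 * (2 * (m 0 - m 1)) - σ.2 * m 1 := by
  have h1 : hs (cw2 σ) ⬝ᵥ m = -(2 * σ.2) * m 0 + (σ.2 * m 1 +
      ∑ l : Fin n, (2 * σ.1 l) * m l.succ.succ) := by
    unfold hs cw2 dotProduct
    rw [Fin.sum_univ_succ, Fin.sum_univ_succ]
    rfl
  rw [h1]
  have h2 : ∑ l : Fin n, (2 * σ.1 l) * m l.succ.succ =
      2 * (σ.1 ⬝ᵥ fun l : Fin n => m l.succ.succ) := by
    unfold dotProduct
    rw [Finset.mul_sum]
    exact Finset.sum_congr rfl fun l _ => by ring
  rw [h2]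
  ring

/-- The multipliers that arise after `s` steps, with `y₀^k`. -/
private def Adm (M : Fin n → ℕ) (c : MvPolynomial (Fin n) ℂ) (k s : ℕ) : Prop :=
  ∀ v ∈ c.support, ∃ a u : Fin n → ℕ, (∀ i, M i * a i ≤ v i + u i) ∧ ∑ i, a i = k ∧ ∑ i, u i ≤ s

private theorem Adm.deriv {M : Fin n → ℕ} {c : MvPolynomial (Fin n) ℂ} {k s : ℕ} (h : Adm M c k s)
    (i : Fin n) : Adm M (-(pderiv i c)) k (s + 1) := by
  classical
  intro v hv
  rw [MvPolynomial.support_neg] at hv
  have h1 : coeff v (pderiv i c) ≠ 0 := MvPolynomial.mem_support_iff.1 hv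
  rw [MvPolynomial.coeff_pderiv] at h1
  have h2 : v + Finsupp.single i 1 ∈ c.support := by
    rw [MvPolynomial.mem_support_iff]
    intro h3
    rw [h3] at h1
    simp at h1
  obtain ⟨a, u, ha, hk, hs⟩ := h _ h2
  refine ⟨a, u + Pi.single i 1, fun l => ?_, hk, ?_⟩
  · have h3 := ha l
    rw [Finsupp.add_apply] at h3
    rw [Pi.add_apply]
    by_cases hl : l = i
    · subst hl
      rw [Finsupp.single_eq_same] at h3
      rw [Pi.single_eq_same]
      omega
    · rw [Finsupp.single_eq_of_ne hl] at h3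
      rw [Pi.single_eq_of_ne hl]
      omega
  · simp only [Pi.add_apply]
    rw [Finset.sum_add_distrib, Finset.sum_pi_single']
    simp
    omega

private theorem Adm.hd {M : Fin n → ℕ} (hM : ∀ j, 1 ≤ M j) {c : MvPolynomial (Fin n) ℂ}
    {k s : ℕ} (h : Adm M c k s) (g : Fin n → ℂ) (i : Fin n) :
    Adm M (hd2 M g i * c) (k + 1) (s + 1) := by
  classical
  intro v hv
  have hMi := hM i
  unfold hd2 at hv
  have h1 := MvPolynomial.support_mul _ _ hv
  obtain ⟨x, hx, v', hv', hxv⟩ := Finset.mem_add.1 h1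
  have hx' := MvPolynomial.support_monomial_subset hx
  rw [Finset.mem_singleton] at hx'
  subst hx'
  obtain ⟨a, u, ha, hk, hs⟩ := h _ hv'
  refine ⟨a + Pi.single i 1, u + Pi.single i 1, fun l => ?_, ?_, ?_⟩
  · have h3 := ha l
    rw [← hxv, Finsupp.add_apply, Pi.add_apply, Pi.add_apply]
    by_cases hl : l = i
    · subst hl
      rw [Finsupp.single_eq_same, Pi.single_eq_same, mul_add, mul_one]
      omega
    · rw [Finsupp.single_eq_of_ne hl, Pi.single_eq_of_ne hl, add_zero]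
      omega
  · simp only [Pi.add_apply]
    rw [Finset.sum_add_distrib, Finset.sum_pi_single', hk]
    simp
  · simp only [Pi.add_apply]
    rw [Finset.sum_add_distrib, Finset.sum_pi_single']
    simp
    omega

/-- The level of the multipliers. -/
private theorem Adm.level {f : MvPolynomial (Fin n) ℂ} {M : Fin n → ℕ} {R : ℕ} (hR : 1 ≤ R)
    (hM : ∀ j, R ≤ M j)
    {c : MvPolynomial (Fin n) ℂ} {k s : ℕ} (h : Adm M c k s) (hs : s ≤ R)
    {σ : (Fin n → ℤ) × ℤ} (hσ : WtL f M σ) {v : Fin n →₀ ℕ} (hv : v ∈ c.support) :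
    -σ.2 ≤ 2 * (σ.1 ⬝ᵥ fun l => (v l : ℤ)) - σ.2 * k := by
  obtain ⟨a, u, ha, hk, hu⟩ := h v hv
  obtain ⟨hN, hw, -, hMw⟩ := hσ
  have hR' : (0 : ℤ) < R := by exact_mod_cast hR
  have hterm : ∀ i, -((u i : ℤ) * σ.2) ≤ R * (2 * (σ.1 i * v i) - σ.2 * a i) := by
    intro i
    have h1 := ha i
    have h2 := hMw i
    have h3 := (hw i).le
    have hMR : (R : ℤ) ≤ M i := by exact_mod_cast hM i
    have hM' : (0 : ℤ) < M i := lt_of_lt_of_le hR' hMR
    have hui : u i ≤ M i := ((Finset.single_le_sum (f := u) (fun _ _ => Nat.zero_le _)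
      (Finset.mem_univ i)).trans (hu.trans hs)).trans (hM i)
    have h5 : (0 : ℤ) ≤ (u i : ℤ) * σ.2 := by positivity
    have key : -((u i : ℤ) * σ.2) ≤ M i * (2 * (σ.1 i * v i) - σ.2 * a i) := by
      rcases Nat.eq_zero_or_pos (a i) with h0 | h0
      · rw [h0, Nat.cast_zero, mul_zero, sub_zero]
        have h4 : (0 : ℤ) ≤ M i * (2 * (σ.1 i * v i)) := by positivity
        linarith
      · have h6 : (M i : ℤ) * a i - u i ≤ v i := by
          have : ((M i * a i : ℕ) : ℤ) ≤ ((v i + u i : ℕ) : ℤ) := by exact_mod_cast h1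
          push_cast at this
          linarith
        have h7 : (0 : ℤ) ≤ (M i : ℤ) * a i - u i := by
          have h8 : (M i : ℤ) ≤ M i * a i := by
            have : (1 : ℤ) ≤ a i := by exact_mod_cast h0
            nlinarith
          have h9 : (u i : ℤ) ≤ M i := by exact_mod_cast hui
          linarith
        have h10 : σ.2 * ((M i : ℤ) * a i - u i) ≤ 2 * M i * σ.1 i * ((M i : ℤ) * a i - u i) :=
          mul_le_mul_of_nonneg_right h2 h7
        have h11 : 2 * M i * σ.1 i * ((M i : ℤ) * a i - u i) ≤ 2 * M i * σ.1 i * v i :=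
          mul_le_mul_of_nonneg_left h6 (by positivity)
        nlinarith
    by_cases hX : 0 ≤ 2 * (σ.1 i * v i) - σ.2 * a i
    · have : 0 ≤ (R : ℤ) * (2 * (σ.1 i * v i) - σ.2 * a i) := mul_nonneg hR'.le hX
      linarith
    · push Not at hX
      have : (M i : ℤ) * (2 * (σ.1 i * v i) - σ.2 * a i) ≤
          R * (2 * (σ.1 i * v i) - σ.2 * a i) := by nlinarith
      linarith
  have hsum : ∑ i, -((u i : ℤ) * σ.2) ≤ ∑ i, R * (2 * (σ.1 i * v i) - σ.2 * a i) :=
    Finset.sum_le_sum fun i _ => hterm i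
  have e1 : ∑ i, -((u i : ℤ) * σ.2) = -((∑ i, u i : ℕ) : ℤ) * σ.2 := by
    rw [Finset.sum_neg_distrib, ← Finset.sum_mul]
    push_cast
    ring
  have e2 : ∑ i, (R : ℤ) * (2 * (σ.1 i * v i) - σ.2 * a i) =
      R * (2 * (σ.1 ⬝ᵥ fun l => (v l : ℤ)) - σ.2 * k) := by
    rw [← Finset.mul_sum, Finset.sum_sub_distrib, ← Finset.mul_sum, ← Finset.mul_sum, ← hk]
    unfold dotProduct
    push_cast
    rfl
  rw [e1, e2] at hsum
  have h12 : ((∑ i, u i : ℕ) : ℤ) ≤ R := by exact_mod_cast hu.trans hs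
  have h13 : -(R : ℤ) * σ.2 ≤ -((∑ i, u i : ℕ) : ℤ) * σ.2 := by nlinarith
  have h14 : (R : ℤ) * -σ.2 ≤ R * (2 * (σ.1 ⬝ᵥ fun l => (v l : ℤ)) - σ.2 * k) := by linarith
  exact le_of_mul_le_mul_left h14 hR'

private theorem sol_mainL {f : MvPolynomial (Fin n) ℂ} {M : Fin n → ℕ} {R : ℕ} (hR : 1 ≤ R)
    (hM : ∀ j, R ≤ M j)
    (g : Fin n → ℂ) (t : ℚ) {r : ℕ} {φ : PY n} (h : TTr f r φ) :
    ∀ (c : MvPolynomial (Fin n) ℂ) (j s : ℕ), s + r ≤ R → Adm M c j s → SolL f M g t
      (inj (j : ℤ) (Polynomial.C (c : MvPowerSeries (Fin n) ℂ) * φ)) := by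
  induction h with
  | gen c0 i =>
    intro c j s hs hadm
    refine ⟨fun _ => 0, by
      rw [show (Function.support fun _ : Fin (n + 2) → ℤ => (0 : Lam ℂ (n + 1))) = ∅ from
        Function.support_zero]
      exact Set.finite_empty, fun m => Submodule.zero_mem _, ?_, ?_,
      inj (j : ℤ) (Polynomial.C (c : MvPowerSeries (Fin n) ℂ) *
        (Polynomial.C (c0 : MvPowerSeries (Fin n) ℂ) *
          (Tht f)^[i] (Polynomial.C (f : MvPowerSeries (Fin n) ℂ)))), ?_, ?_⟩
    · intro m hm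
      exact absurd rfl hm
    · intro m j _
      rw [mul_zero]
    · intro m
      rw [sub_self, map_zero]
      unfold EEb
      simp
    · intro m hm
      unfold inj at hm
      split_ifs at hm with h1
      · refine ⟨fun l => ?_, fun σ hσ => ?_⟩
        · by_contra hc
          exact hm (lb_cf_neg _ _ l.succ (not_le.1 hc))
        · rw [cf_C_mul] at hm
          obtain ⟨v, hv, h2⟩ := Finset.exists_ne_zero_of_sum_ne_zero hm
          have h3 := cf_gen_support f _ i (fun l => (hσ.2.1 l).le) hσ.2.2.1 _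
            (right_ne_zero_of_mul h2)
          have h4 : (lo (j : ℤ) m - (Fin.cons 0 fun l => (v l : ℤ) : Fin (n + 1) → ℤ)) 0 =
              m 0 - j := by
            show (m 0 - j) - 0 = m 0 - j
            ring
          have h5 : Fin.tail (lo (j : ℤ) m - (Fin.cons 0 fun l => (v l : ℤ) :
              Fin (n + 1) → ℤ)) = (fun l : Fin n => m l.succ.succ) - fun l => (v l : ℤ) := by
            funext l
            rfl
          rw [h4, h5, dotProduct_sub] at h3
          have h6 := hadm.level hR hM (by omega) hσ hv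
          rw [hs_cw2, h1]
          have h7 := hσ.1
          linarith
      · exact absurd rfl hm
  | add _ _ ih1 ih2 =>
    intro c j s hs hadm
    refine ((ih1 c j s hs hadm).add (ih2 c j s hs hadm)).congr fun m => ?_
    rw [mul_add, inj_add]
  | @nab r m i hm ih =>
    intro c j s hs hadm
    have hf := (hm.toTTp.mulC c).finS
    have hM1 : ∀ j, 1 ≤ M j := fun j => hR.trans (hM j)
    have h1 := sol_nab f hM1 g t (j : ℤ) hf i
    have h2 := ih (hd2 M g i * c) (j + 1) (s + 1) (by omega) (hadm.hd hM1 g i)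
    have h3 := ih (-(pderiv i c)) j (s + 1) (by omega) (hadm.deriv i)
    refine ((h1.add h2.neg).add h3).congr fun m' => ?_
    rw [la_nab_C, inj_add]
    have e : Polynomial.C ((hd2 M g i * c : MvPolynomial (Fin n) ℂ) :
        MvPowerSeries (Fin n) ℂ) * m = Polynomial.C ((hd2 M g i : MvPolynomial (Fin n) ℂ) :
        MvPowerSeries (Fin n) ℂ) * (Polynomial.C (c : MvPowerSeries (Fin n) ℂ) * m) := by
      rw [← mul_assoc, ← map_mul, ← MvPolynomial.coe_mul]
    rw [e]
    push_cast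
    ring
  | mono _ ih =>
    intro c j s hs hadm
    exact ih c j s (by omega) hadm

private theorem la2_cf_C (a : ℂ) (φ : PY n) :
    cf (Polynomial.C (MvPowerSeries.C (σ := Fin n) (R := ℂ) a) * φ) = fun m => a * cf φ m := by
  funext m
  unfold cf
  split_ifs with hm
  · rw [Polynomial.coeff_C_mul, MvPowerSeries.coeff_C_mul]
  · rw [mul_zero]

private theorem la2_cf_sum {ι : Type*} (s : Finset ι) (g : ι → PY n) (m : Fin (n + 1) → ℤ) :
    cf (∑ i ∈ s, g i) m = ∑ i ∈ s, cf (g i) m := by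
  have h := map_sum (AddMonoidHom.mk' (cf (n := n)) cf_add) g s
  have h2 := congrFun h m
  rw [Finset.sum_apply] at h2
  exact h2

private theorem la2_cf_iter (f : MvPolynomial (Fin n) ℂ) (i : ℕ) (φ : PY n) :
    cf ((Tht f)^[i] φ) = (thL (Fc f))^[i] (cf φ) := by
  induction i generalizing φ with
  | zero => rfl
  | succ i ih => rw [Function.iterate_succ_apply, Function.iterate_succ_apply, ih, cf_tht]

private theorem la2_hs_sub (σ : (Fin n → ℤ) × ℤ) (m : Fin (n + 1) → ℤ) (v : Fin n → ℤ) :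
    hs σ ⬝ᵥ (m - sh v) = hs σ ⬝ᵥ m - (σ.1 ⬝ᵥ v - σ.2) := by
  rw [dotProduct_sub]
  have h : hs σ ⬝ᵥ sh v = σ.1 ⬝ᵥ v - σ.2 := by
    unfold hs sh dotProduct
    rw [Fin.sum_univ_succ]
    simp only [Fin.cons_zero, Fin.cons_succ]
    ring
  rw [h]

private theorem la2_supp {F : (Fin n → ℤ) →₀ ℂ} (hF : ∀ v ∈ F.support, ∀ j, 0 ≤ v j) (i : ℕ) :
    ∀ m : Fin (n + 1) → ℤ, (thL F)^[i] (Pi.single 0 1) m ≠ 0 →
      (∀ j : Fin n, 0 ≤ m j.succ) ∧
      ∀ σ : (Fin n → ℤ) × ℤ, (∀ v ∈ F.support, σ.2 ≤ σ.1 ⬝ᵥ v) → 0 ≤ hs σ ⬝ᵥ m := by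
  induction i with
  | zero =>
    intro m hm
    rw [Function.iterate_zero, id] at hm
    have h0 : m = 0 := by
      by_contra hc
      exact hm (Pi.single_eq_of_ne hc _)
    subst h0
    refine ⟨fun j => le_refl _, fun σ _ => ?_⟩
    rw [dotProduct_zero]
  | succ i ih =>
    intro m hm
    rw [Function.iterate_succ_apply'] at hm
    unfold thL at hm
    by_cases hg : (thL F)^[i] (Pi.single 0 1) m = 0
    · unfold thL at hg
      rw [hg, mul_zero, zero_add] at hm
      obtain ⟨v, hv, hv2⟩ := Finset.exists_ne_zero_of_sum_ne_zero hm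
      have h1 : (thL F)^[i] (Pi.single 0 1) (m - sh v) ≠ 0 := by
        intro h2
        apply hv2
        unfold thL at h2
        rw [h2, mul_zero]
      obtain ⟨ha, hc⟩ := ih _ h1
      refine ⟨fun j => ?_, fun σ hσ => ?_⟩
      · have := ha j
        have h3 := hF v hv j
        simp only [Pi.sub_apply, sh, Fin.cons_succ] at this
        omega
      · have h3 := hc σ hσ
        rw [la2_hs_sub] at h3
        have h4 := hσ v hv
        omega
    · exact ih m hg

private theorem la2_nonneg (f : MvPolynomial (Fin n) ℂ) : ∀ v ∈ (Fc f).support, ∀ j, 0 ≤ v j := by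
  classical
  intro v hv j
  unfold Fc at hv
  rw [Finsupp.mem_support_iff, Finsupp.finsetSum_apply] at hv
  obtain ⟨u, _, hu⟩ := Finset.exists_ne_zero_of_sum_ne_zero hv
  rw [Finsupp.single_apply] at hu
  split_ifs at hu with h
  · rw [← h]
    exact Int.natCast_nonneg _
  · exact absurd rfl hu


/-- The lattice form of `u(x) b(s) f^s ∈ D[s] f^{s+1}`, `u(0) = 1` (`InDnForm.exists_poly`),
multiplied by `exp (y (x₀² + x₀ g))`.

Proof.  As `exists_latticeC` (`Lat.lean`), with `∇'_i = ∇_i + y x₀ ∂_i g` (the components of `W` are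
in the directions `x_1, ..., x_n`, so the term `x₀²` is invisible).  `M_j ≥ M₀`, `M₀` larger than the
number `r` of `∇`'s in the words: in the terms `x^β (y x₀)^k Θ^l f` that arise after `s ≤ r` steps
there are `a, s_i` with `M_i a_i ≤ β_i + s_i`, `∑ a_i = k`, `∑ s_i ≤ s`; so
`2 w·β - N k ≥ -(s / M₀) N ≥ -N`, and the level of the term is at least `2 N - N > 0`. -/
theorem exists_latticeL {f : MvPolynomial (Fin n) ℂ} (hf : f ≠ 0) {b : Polynomial ℂ}
    (hb : InDnForm f 1 (b.map (MvPowerSeries.C (σ := Fin n) (R := ℂ)))) :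
    ∃ M₀ : ℕ, ∀ M : Fin n → ℕ, (∀ j, M₀ ≤ M j) → ∀ (g : Fin n → ℂ) (t : ℚ),
    ∃ W : MFun ℂ (n + 1), (Function.support W).Finite ∧ MDeg 1 W ∧
      (∀ m, W m ≠ 0 → ∀ j : Fin n, -1 ≤ m j.succ.succ) ∧
      (∀ m, ∀ j : Fin n, m j.succ.succ = -1 → gi (vec ℂ (ee j.succ)) * W m = 0) ∧
      (∀ m, EEb (bv n t) (Cay2 (Fc f) M g) W m ≠ 0 → (∀ j : Fin n, 0 ≤ m j.succ.succ) ∧
        ∀ σ, WtL f M σ → 0 ≤ hs (cw2 σ) ⬝ᵥ m) ∧
      ∀ σ, WtL f M σ → ∀ m, hs (cw2 σ) ⬝ᵥ m = 0 → EEb (bv n t) (Cay2 (Fc f) M g) W m =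
        algebraMap ℂ _ (ins (fun m' => ∑ i ∈ range (b.natDegree + 1),
          b.coeff i * (thL (Fc f))^[i] (Pi.single 0 1) m') m) := by
  classical
  obtain ⟨h, hh, hT⟩ := functional_eq_form hf hb
  set L : PY n := ∑ i ∈ range (b.natDegree + 1), Polynomial.C (MvPowerSeries.C (b.coeff i)) *
    (Tht f)^[i] (1 : PY n) with hL
  obtain ⟨r, hr⟩ := hT.exists_TTr
  refine ⟨max r 1, fun M hM g t => ?_⟩
  have hR1 : 1 ≤ max r 1 := le_max_right _ _
  have hcf : cf L = fun m' => ∑ i ∈ range (b.natDegree + 1),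
      b.coeff i * (thL (Fc f))^[i] (Pi.single 0 1) m' := by
    funext m'
    rw [hL, la2_cf_sum]
    refine Finset.sum_congr rfl fun i _ => ?_
    rw [la2_cf_C, la2_cf_iter, cf_one]
  rw [← hcf]
  obtain ⟨W, w1, w2, w3, w4, e, e1, e2⟩ := sol_mainL (g := g) hR1 hM t hr 1 0 0 (by omega) (by
    intro v hv
    refine ⟨0, 0, fun i => ?_, by simp, by simp⟩
    simp)
  rw [MvPolynomial.coe_one, map_one, one_mul] at e1
  -- the support of `cf L`
  have hLs : ∀ m', cf L m' ≠ 0 → (∀ j : Fin n, 0 ≤ m' j.succ) ∧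
      ∀ σ : (Fin n → ℤ) × ℤ, (∀ v ∈ (Fc f).support, σ.2 ≤ σ.1 ⬝ᵥ v) → 0 ≤ hs σ ⬝ᵥ m' := by
    intro m' hm'
    rw [hcf] at hm'
    obtain ⟨i, _, hi⟩ := Finset.exists_ne_zero_of_sum_ne_zero hm'
    exact la2_supp (la2_nonneg f) i _ (right_ne_zero_of_mul hi)
  have hlo0 : ∀ m : Fin (n + 2) → ℤ, lo ((0 : ℕ) : ℤ) m =
      (Fin.cons (m 0) (fun j => m j.succ.succ) : Fin (n + 1) → ℤ) := by
    intro m
    unfold lo
    rw [Nat.cast_zero, sub_zero]
  have hhs : ∀ (σ : (Fin n → ℤ) × ℤ) (m : Fin (n + 2) → ℤ) (v : Fin n →₀ ℕ), m 1 = 0 →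
      hs (cw2 σ) ⬝ᵥ m = 2 * (hs σ ⬝ᵥ (lo ((0 : ℕ) : ℤ) m -
        (Fin.cons 0 fun j => (v j : ℤ) : Fin (n + 1) → ℤ))) +
        2 * (σ.1 ⬝ᵥ fun l => (v l : ℤ)) := by
    intro σ m v h1
    rw [hs_cw2, h1, dotProduct_sub]
    have e3 : hs σ ⬝ᵥ lo ((0 : ℕ) : ℤ) m = -σ.2 * m 0 + σ.1 ⬝ᵥ fun l : Fin n => m l.succ.succ := by
      rw [hlo0]
      unfold hs dotProduct
      rw [Fin.sum_univ_succ]
      simp only [Fin.cons_zero, Fin.cons_succ]
    have e4 : hs σ ⬝ᵥ (Fin.cons 0 fun j => (v j : ℤ) : Fin (n + 1) → ℤ) =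
        σ.1 ⬝ᵥ fun l => (v l : ℤ) := by
      unfold hs dotProduct
      rw [Fin.sum_univ_succ]
      simp only [Fin.cons_zero, Fin.cons_succ, mul_zero, zero_add]
    rw [e3, e4]
    ring
  have hpos : ∀ m, inj ((0 : ℕ) : ℤ) (Polynomial.C (h : MvPowerSeries (Fin n) ℂ) * L) m ≠ 0 →
      (∀ j : Fin n, 0 ≤ m j.succ.succ) ∧ ∀ σ, WtL f M σ → 0 ≤ hs (cw2 σ) ⬝ᵥ m := by
    intro m hm
    unfold inj at hm
    split_ifs at hm with h1
    · rw [cf_C_mul] at hm
      obtain ⟨v, _, h2⟩ := Finset.exists_ne_zero_of_sum_ne_zero hm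
      obtain ⟨h3, h4⟩ := hLs _ (right_ne_zero_of_mul h2)
      refine ⟨fun j => ?_, fun σ hσ => ?_⟩
      · have h5 := h3 j
        have h6 : (lo ((0 : ℕ) : ℤ) m - (Fin.cons 0 fun j => (v j : ℤ) : Fin (n + 1) → ℤ)) j.succ =
            m j.succ.succ - v j := rfl
        rw [h6] at h5
        have h7 : (0 : ℤ) ≤ v j := Int.natCast_nonneg _
        linarith
      · have h5 := h4 σ hσ.2.2.1
        rw [hhs σ m v (by rw [h1]; rfl)]
        have h6 : (0 : ℤ) ≤ σ.1 ⬝ᵥ fun l => (v l : ℤ) :=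
          Finset.sum_nonneg fun l _ => mul_nonneg (hσ.2.1 l).le (Int.natCast_nonneg _)
        linarith
    · exact absurd rfl hm
  refine ⟨W, w1, w2, w3, w4, ?_, ?_⟩
  · intro m hm
    rw [e1] at hm
    by_cases h : e m = 0
    · refine hpos m fun h' => hm ?_
      rw [h', h, sub_zero, map_zero]
    · obtain ⟨h1, h2⟩ := e2 m h
      exact ⟨h1, fun σ hσ => hσ.1.le.trans (h2 σ hσ)⟩
  · intro σ hσ m hm
    rw [e1]
    congr 1
    have h0 : e m = 0 := by
      by_contra h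
      have h1 := (e2 m h).2 σ hσ
      have h2 := hσ.1
      omega
    rw [h0, sub_zero]
    unfold inj ins
    rw [Nat.cast_zero]
    by_cases h1 : m 1 = 0
    · rw [if_pos h1, if_pos h1, cf_C_mul]
      have e5 : coeff 0 h = 1 := hh
      have hz : (0 : Fin n →₀ ℕ) ∈ h.support := by
        rw [MvPolynomial.mem_support_iff, e5]
        exact one_ne_zero
      rw [Finset.sum_eq_single_of_mem 0 hz]
      · rw [e5, one_mul]
        congr 1
        have e6 := hlo0 m
        rw [Nat.cast_zero] at e6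
        rw [e6]
        funext l
        refine Fin.cases ?_ (fun l => ?_) l
        · simp
        · simp
      · intro v _ hv
        have h2 : cf L (lo 0 m - (Fin.cons 0 fun j => (v j : ℤ) : Fin (n + 1) → ℤ)) = 0 := by
          by_contra hne
          have h3 := (hLs _ hne).2 σ hσ.2.2.1
          have h4 := hhs σ m v h1
          rw [hm, Nat.cast_zero] at h4
          have h5 : (0 : ℤ) < σ.1 ⬝ᵥ fun l => (v l : ℤ) := by
            obtain ⟨l, hl⟩ : ∃ l, v l ≠ 0 := by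
              by_contra hcon
              push Not at hcon
              exact hv (Finsupp.ext hcon)
            have hl' : (0 : ℤ) < (v l : ℤ) := by exact_mod_cast Nat.pos_of_ne_zero hl
            exact Finset.sum_pos' (fun l _ => mul_nonneg (hσ.2.1 l).le
              (Int.natCast_nonneg _)) ⟨l, Finset.mem_univ _, mul_pos (hσ.2.1 l) hl'⟩
          linarith
        rw [h2, mul_zero]
    · rw [if_neg h1, if_neg h1]

end MPb07157T
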