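import Pool.Agent.Lib.MP_b07157_agN.OutC
import Pool.Agent.Lib.MP_b07157_agNL.CDefsL

/-!
# The outer walls of the cones, local version
-/

noncomputable section

namespace MPb07157T

open Finset Matrix

variable {n : ℕ}

theorem smul_ee_inj2 {M : Fin n → ℕ} (hM : ∀ j, 1 ≤ M j) {i j : Fin n}
    (h : (M i : ℤ) • ee i = (M j : ℤ) • ee j) : i = j := by
  by_contra hij
  have := congrFun h i
  have h1 := hM i
  simp [ee, hij] at this
  omega

theorem cx2_ne_c0 (v : Fin n → ℤ) : cx2 n ≠ c0 v := by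
  intro h
  have := congrFun h 0
  simp [c0, cx2] at this

theorem cx2_ne_c1 (v : Fin n → ℤ) : cx2 n ≠ c1 v := by
  intro h
  have := congrFun h 0
  simp [c1, cx2] at this

theorem Cay2_c0 (F : (Fin n → ℤ) →₀ ℂ) (M : Fin n → ℕ) (g : Fin n → ℂ) (v : Fin n → ℤ) :
    Cay2 F M g (c0 v) = F v := by
  classical
  unfold Cay2
  rw [Finsupp.add_apply, Finsupp.add_apply, Finsupp.mapDomain_apply c0_injective,
    Finsupp.single_apply, if_neg (cx2_ne_c0 v), Finsupp.finsetSum_apply, Finset.sum_eq_zero,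
    add_zero, add_zero]
  intro j _
  rw [Finsupp.single_apply, if_neg fun h => c0_ne_c1 _ _ h.symm]

theorem Cay2_cx2 (F : (Fin n → ℤ) →₀ ℂ) (M : Fin n → ℕ) (g : Fin n → ℂ) :
    Cay2 F M g (cx2 n) = 1 := by
  classical
  unfold Cay2
  rw [Finsupp.add_apply, Finsupp.add_apply, Finsupp.mapDomain_of_notMem_range,
    Finsupp.single_apply, if_pos rfl, Finsupp.finsetSum_apply, Finset.sum_eq_zero,
    add_zero, zero_add]
  · intro j _
    rw [Finsupp.single_apply, if_neg fun h => cx2_ne_c1 _ h.symm]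
  · rintro ⟨u, hu⟩
    exact cx2_ne_c0 _ hu.symm

theorem Cay2_c1 (F : (Fin n → ℤ) →₀ ℂ) {M : Fin n → ℕ} (hM : ∀ j, 1 ≤ M j) (g : Fin n → ℂ)
    (j : Fin n) :
    Cay2 F M g (c1 ((M j : ℤ) • ee j)) = g j := by
  classical
  unfold Cay2
  rw [Finsupp.add_apply, Finsupp.add_apply, Finsupp.mapDomain_of_notMem_range,
    Finsupp.single_apply, if_neg (cx2_ne_c1 _), Finsupp.finsetSum_apply,
    Finset.sum_eq_single j, zero_add, zero_add, Finsupp.single_apply, if_pos rfl]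
  · intro i _ hi
    rw [Finsupp.single_apply, if_neg fun h => hi (smul_ee_inj2 hM (c1_injective h))]
  · intro h
    exact absurd (Finset.mem_univ j) h
  · rintro ⟨u, hu⟩
    exact c0_ne_c1 _ _ hu

theorem Cay2_other (F : (Fin n → ℤ) →₀ ℂ) (M : Fin n → ℕ) (g : Fin n → ℂ) (m : Fin (n + 1) → ℤ)
    (h0 : ∀ v, m ≠ c0 v) (h1 : m ≠ cx2 n) (h2 : ∀ j, m ≠ c1 ((M j : ℤ) • ee j)) :
    Cay2 F M g m = 0 := by
  classical
  unfold Cay2
  rw [Finsupp.add_apply, Finsupp.add_apply, Finsupp.mapDomain_of_notMem_range,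
    Finsupp.single_apply, if_neg fun h => h1 h.symm, Finsupp.finsetSum_apply, Finset.sum_eq_zero,
    add_zero, zero_add]
  · intro j _
    rw [Finsupp.single_apply, if_neg fun h => h2 j h.symm]
  · rintro ⟨u, hu⟩
    exact h0 _ hu.symm

theorem cw2_dot_c0 (κ : (Fin n → ℤ) × ℤ) (v : Fin n → ℤ) :
    (cw2 κ).1 ⬝ᵥ c0 v = 2 * (κ.1 ⬝ᵥ v) := by
  simp only [cw2, c0, dotProduct, Fin.sum_univ_succ, Fin.cons_zero, Fin.cons_succ, mul_zero,
    zero_add, Finset.mul_sum]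
  exact Finset.sum_congr rfl fun j _ => by rw [Pi.smul_apply, smul_eq_mul]; ring

theorem cw2_dot_c1 (κ : (Fin n → ℤ) × ℤ) (v : Fin n → ℤ) :
    (cw2 κ).1 ⬝ᵥ c1 v = κ.2 + 2 * (κ.1 ⬝ᵥ v) := by
  simp only [cw2, c1, dotProduct, Fin.sum_univ_succ, Fin.cons_zero, Fin.cons_succ, mul_one,
    Finset.mul_sum]
  congr 1
  exact Finset.sum_congr rfl fun j _ => by rw [Pi.smul_apply, smul_eq_mul]; ring

theorem cx2_dot (h : Fin (n + 1) → ℤ) : h ⬝ᵥ cx2 n = 2 * h 0 := by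
  simp only [cx2, dotProduct, Fin.sum_univ_succ, Fin.cons_zero, Fin.cons_succ, Pi.zero_apply,
    mul_zero, Finset.sum_const_zero, add_zero]
  ring

theorem cw2_dot_cx2 (κ : (Fin n → ℤ) × ℤ) : (cw2 κ).1 ⬝ᵥ cx2 n = 2 * κ.2 := by
  rw [cx2_dot]
  simp only [cw2, Fin.cons_zero]

/-- The exponents of the face of `f + x₀² + x₀ g`. -/
theorem mem_cay2_support (f : MvPolynomial (Fin n) ℂ) {M : Fin n → ℕ} (hM : ∀ j, 1 ≤ M j)
    {g : Fin n → ℂ} (hg : ∀ j, g j ≠ 0) {κ : (Fin n → ℤ) × ℤ} (v : Fin (n + 1) → ℤ) :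
    v ∈ (Fs (cw2 κ) (Cay2 (Fc f) M g)).support ↔
      (∃ v' ∈ (Fc f).support, κ.1 ⬝ᵥ v' = κ.2 ∧ v = c0 v') ∨ v = cx2 n ∨
        ∃ j, 2 * (M j : ℤ) * κ.1 j = κ.2 ∧ v = c1 ((M j : ℤ) • ee j) := by
  rw [mem_Fs_support]
  have hκ2 : (cw2 κ).2 = 2 * κ.2 := rfl
  rw [hκ2]
  constructor
  · rintro ⟨h1, h2⟩
    by_cases hc0 : ∃ v', v = c0 v'
    · obtain ⟨v', rfl⟩ := hc0
      rw [cw2_dot_c0] at h1
      rw [Cay2_c0] at h2
      exact Or.inl ⟨v', Finsupp.mem_support_iff.2 h2, by linarith, rfl⟩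
    by_cases hct : v = cx2 n
    · exact Or.inr (Or.inl hct)
    by_cases hc1 : ∃ j, v = c1 ((M j : ℤ) • ee j)
    · obtain ⟨j, rfl⟩ := hc1
      rw [cw2_dot_c1, dot_smul_ee] at h1
      exact Or.inr (Or.inr ⟨j, by linarith, rfl⟩)
    · exfalso
      push Not at hc0 hc1
      exact h2 (Cay2_other _ _ _ _ hc0 hct hc1)
  · rintro (⟨v', hv', h1, rfl⟩ | rfl | ⟨j, hj, rfl⟩)
    · refine ⟨by rw [cw2_dot_c0, h1], ?_⟩
      rw [Cay2_c0]
      exact Finsupp.mem_support_iff.1 hv'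
    · refine ⟨cw2_dot_cx2 κ, ?_⟩
      rw [Cay2_cx2]
      exact one_ne_zero
    · refine ⟨by rw [cw2_dot_c1, dot_smul_ee]; linarith, ?_⟩
      rw [Cay2_c1 _ hM]
      exact hg j

theorem rdot_cw2 (τ : (Fin n → ℤ) × ℤ) (x : Fin (n + 1) → ℝ) :
    rdot (cw2 τ).1 x = τ.2 * x 0 + 2 * rdot τ.1 (Fin.tail x) := by
  simp only [rdot, cw2, Fin.sum_univ_succ, Fin.cons_zero, Fin.cons_succ, Fin.tail, Finset.mul_sum]
  congr 1
  refine Finset.sum_congr rfl fun j _ => ?_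
  rw [Pi.smul_apply, smul_eq_mul]
  push_cast
  ring

theorem rdot_et_cw2 (κ τ : (Fin n → ℤ) × ℤ) (x : Fin (n + 1) → ℝ) :
    rdot (et (cw2 κ) (cw2 τ)) x = 4 * rdot (et κ τ) (Fin.tail x) := by
  rw [rdot_et, rdot_et, rdot_cw2, rdot_cw2]
  simp only [cw2]
  push_cast
  ring

theorem fM_support (f : MvPolynomial (Fin n) ℂ) (M : Fin n → ℕ) (v : Fin n →₀ ℕ) :
    v ∈ (fM f M).support ↔ v ∈ f.support ∨ ∃ j, v = Finsupp.single j (2 * M j) := by
  classical
  unfold fM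
  rw [MvPolynomial.mem_support_iff, MvPolynomial.coeff_sum]
  simp only [MvPolynomial.coeff_monomial]
  rw [Finset.sum_ite_eq']
  rw [ite_ne_right_iff, Finset.mem_union, Finset.mem_image]
  constructor
  · rintro ⟨h | ⟨j, -, h⟩, -⟩
    · exact Or.inl h
    · exact Or.inr ⟨j, h.symm⟩
  · rintro (h | ⟨j, h⟩)
    · exact ⟨Or.inl h, one_ne_zero⟩
    · exact ⟨Or.inr ⟨j, Finset.mem_univ j, h.symm⟩, one_ne_zero⟩

theorem castv_single (M : ℕ) (j : Fin n) :
    castv (Finsupp.single j (2 * M)) = (2 * (M : ℤ)) • ee j := by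
  funext i
  unfold castv ee
  rw [Pi.smul_apply, smul_eq_mul]
  by_cases h : i = j
  · subst h
    rw [Finsupp.single_eq_same, Pi.single_eq_same]
    push_cast
    ring
  · rw [Finsupp.single_eq_of_ne h, Pi.single_eq_of_ne h]
    simp

theorem Fc_fM_support (f : MvPolynomial (Fin n) ℂ) (M : Fin n → ℕ) (v : Fin n → ℤ) :
    v ∈ (Fc (fM f M)).support ↔ v ∈ (Fc f).support ∨ ∃ j, v = (2 * (M j : ℤ)) • ee j := by
  rw [mem_Fc_support, mem_Fc_support]
  constructor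
  · rintro ⟨w, hw, rfl⟩
    rcases (fM_support f M w).1 hw with h | ⟨j, rfl⟩
    · exact Or.inl ⟨w, h, rfl⟩
    · exact Or.inr ⟨j, castv_single (M j) j⟩
  · rintro (⟨w, hw, rfl⟩ | ⟨j, rfl⟩)
    · exact ⟨w, (fM_support f M w).2 (Or.inl hw), rfl⟩
    · exact ⟨_, (fM_support f M _).2 (Or.inr ⟨j, rfl⟩), (castv_single (M j) j).symm⟩

theorem wtL_iff {f : MvPolynomial (Fin n) ℂ} {M : Fin n → ℕ} (σ : (Fin n → ℤ) × ℤ) :
    WtL f M σ ↔ 0 < σ.2 ∧ (∀ j, 0 < σ.1 j) ∧ ∀ v ∈ (Fc (fM f M)).support, σ.2 ≤ σ.1 ⬝ᵥ v := by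
  unfold WtL
  constructor
  · rintro ⟨h1, h2, h3, h4⟩
    refine ⟨h1, h2, fun v hv => ?_⟩
    rcases (Fc_fM_support f M v).1 hv with h | ⟨j, rfl⟩
    · exact h3 v h
    · rw [dot_smul_ee]
      exact h4 j
  · rintro ⟨h1, h2, h3⟩
    refine ⟨h1, h2, fun v hv => h3 v ((Fc_fM_support f M v).2 (Or.inl hv)), fun j => ?_⟩
    have h := h3 _ ((Fc_fM_support f M _).2 (Or.inr ⟨j, rfl⟩))
    rwa [dot_smul_ee] at h

/-- Finitely many weights cut out the Newton polyhedron of `f + ∑ x_j ^ (2 M)`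
(`exists_weights` of `W2.lean`: it is convenient). -/
theorem exists_weightsL (f : MvPolynomial (Fin n) ℂ) {M : Fin n → ℕ} (hM : ∀ j, 1 ≤ M j)
    (S₀ : Finset ((Fin n → ℤ) × ℤ)) (hS₀ : ∀ σ ∈ S₀, WtL f M σ) :
    ∃ Sg : Finset ((Fin n → ℤ) × ℤ), S₀ ⊆ Sg ∧ CutsOut Sg (fM f M) ∧ ∀ σ ∈ Sg, WtL f M σ := by
  have hconv : Convenient (fM f M) := fun j =>
    ⟨2 * M j, by have := hM j; omega, (fM_support f M _).2 (Or.inr ⟨j, rfl⟩)⟩
  obtain ⟨Sg, h1, h2, h3⟩ := exists_weights hconv S₀ fun σ hσ => (wtL_iff σ).1 (hS₀ σ hσ)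
  exact ⟨Sg, h1, h2, fun σ hσ => (wtL_iff σ).2 (h3 σ hσ)⟩

/-- The outer walls.  Proof as `exists_out` (`OutC.lean`): a wall `a` with `a 0 = 0` is nonnegative
on the `v'` in the face of `κ` and on the `e_j` with `2 M κ_j = N`, that is, on the face of `κ` of
the Newton polyhedron of `fM f M`, which is cut out by the inner walls (`κ.1 > 0`, so
`q = ∑ l_v v`). -/
theorem exists_outL {f : MvPolynomial (Fin n) ℂ} {M : Fin n → ℕ} (hM : ∀ j, 1 ≤ M j)
    {Sg : Finset ((Fin n → ℤ) × ℤ)} (hcut : CutsOut Sg (fM f M)) (hSg : ∀ σ ∈ Sg, WtL f M σ)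
    {κ : (Fin n → ℤ) × ℤ} (hκ : κ ∈ Sg) {g : Fin n → ℂ} (hg : ∀ j, g j ≠ 0) :
    ∃ O : Finset (Fin (n + 1) → ℤ), ee 0 ∈ O ∧ (∀ h ∈ O, 0 < h 0) ∧
      (∀ h ∈ O, ∀ v ∈ (Fs (cw2 κ) (Cay2 (Fc f) M g)).support, 0 ≤ h ⬝ᵥ v) ∧
      ∀ x : Fin (n + 1) → ℝ,
        (∀ h ∈ H2c (CC n) (Sg.image cw2) (cw2 κ) ∪ O, 0 ≤ rdot h x) →
        ∃ l : (Fin (n + 1) → ℤ) → ℝ, (∀ v ∈ (Fs (cw2 κ) (Cay2 (Fc f) M g)).support, 0 ≤ l v) ∧
          ∀ j, ∑ v ∈ (Fs (cw2 κ) (Cay2 (Fc f) M g)).support, l v * (v j : ℝ) = x j := by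
  classical
  set S := (Fs (cw2 κ) (Cay2 (Fc f) M g)).support with hS
  obtain ⟨A, hA⟩ := weyl S
  have hAS : ∀ a ∈ A, ∀ w ∈ S, 0 ≤ a ⬝ᵥ w := by
    intro a ha w hw
    have h := (hA (fun i => (w i : ℝ))).mp ⟨fun v => if v = w then 1 else 0, by
      intro v _
      dsimp only
      split_ifs <;> norm_num, by
      simp [ite_smul, Finset.sum_ite_eq', hw]⟩ a ha
    rw [rdot_int] at h
    exact_mod_cast h
  have hmem : ∀ v, v ∈ S ↔ (∃ v' ∈ (Fc f).support, κ.1 ⬝ᵥ v' = κ.2 ∧ v = c0 v') ∨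
      v = cx2 n ∨ ∃ j, 2 * (M j : ℤ) * κ.1 j = κ.2 ∧ v = c1 ((M j : ℤ) • ee j) :=
    fun v => mem_cay2_support f hM hg v
  obtain ⟨hκ2, hκ1, hκle⟩ := (wtL_iff κ).1 (hSg κ hκ)
  have hA0 : ∀ a ∈ A, 0 ≤ a 0 := by
    intro a ha
    have h := hAS a ha (cx2 n) ((hmem _).2 (Or.inr (Or.inl rfl)))
    rw [cx2_dot] at h
    linarith
  have hAj : ∀ a ∈ A, a 0 = 0 → ∀ j, 2 * (M j : ℤ) * κ.1 j = κ.2 → 0 ≤ a j.succ := by
    intro a ha ha0 j hj
    have h := hAS a ha (c1 ((M j : ℤ) • ee j)) ((hmem _).2 (Or.inr (Or.inr ⟨j, hj, rfl⟩)))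
    have h2 : a ⬝ᵥ (c1 ((M j : ℤ) • ee j) : Fin (n + 1) → ℤ) = a 0 + M j * a j.succ := by
      have h3 : a ⬝ᵥ (c1 ((M j : ℤ) • ee j) : Fin (n + 1) → ℤ) =
          a 0 + Fin.tail a ⬝ᵥ ((M j : ℤ) • ee j) := by
        simp only [c1, dotProduct, Fin.sum_univ_succ, Fin.cons_zero, Fin.cons_succ, mul_one,
          Fin.tail]
      rw [h3, dot_smul_ee]
      rfl
    rw [h2, ha0, zero_add] at h
    have hM' : (0 : ℤ) < M j := by exact_mod_cast hM j
    exact nonneg_of_mul_nonneg_right (by linarith) hM'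
  have hAv : ∀ a ∈ A, a 0 = 0 → ∀ v ∈ (Fc f).support, κ.1 ⬝ᵥ v = κ.2 → 0 ≤ Fin.tail a ⬝ᵥ v := by
    intro a ha ha0 v hv hv2
    have h := hAS a ha (c0 v) ((hmem _).2 (Or.inl ⟨v, hv, hv2, rfl⟩))
    have h2 : a ⬝ᵥ (c0 v : Fin (n + 1) → ℤ) = Fin.tail a ⬝ᵥ v := by
      simp only [c0, dotProduct, Fin.sum_univ_succ, Fin.cons_zero, Fin.cons_succ, mul_zero,
        Fin.tail, zero_add]
    rwa [h2] at h
  refine ⟨(A.filter fun h => 0 < h 0) ∪ {ee 0}, ?_, ?_, ?_, ?_⟩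
  · exact Finset.mem_union_right _ (Finset.mem_singleton_self _)
  · intro h hh
    rcases Finset.mem_union.1 hh with hh | hh
    · exact (Finset.mem_filter.1 hh).2
    · rw [Finset.mem_singleton.1 hh]
      simp [ee]
  · intro h hh v hv
    rcases Finset.mem_union.1 hh with hh | hh
    · exact hAS h (Finset.mem_filter.1 hh).1 v hv
    · rw [Finset.mem_singleton.1 hh, ee_dotProduct]
      rcases (hmem v).1 hv with ⟨v', -, -, rfl⟩ | rfl | ⟨j, -, rfl⟩
      · simp [c0]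
      · simp [cx2]
      · simp [c1]
  · intro x hx
    have hxj : ∀ j, 0 ≤ Fin.tail x j := by
      intro j
      have h := hx (ee j.succ) (Finset.mem_union_left _ (Finset.mem_union_right _
        (Finset.mem_image_of_mem _ (Finset.mem_image_of_mem _ (Finset.mem_univ j)))))
      rwa [rdot_ee] at h
    have hxτ : ∀ τ ∈ Sg, 0 ≤ rdot (et κ τ) (Fin.tail x) := by
      intro τ hτ
      have h := hx (et (cw2 κ) (cw2 τ)) (Finset.mem_union_left _ (Finset.mem_union_left _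
        (Finset.mem_image_of_mem _ (Finset.mem_image_of_mem _ hτ))))
      rw [rdot_et_cw2] at h
      linarith
    have hκ2' : (0 : ℝ) < κ.2 := by exact_mod_cast hκ2
    have hκ1' : ∀ j, (0 : ℝ) < κ.1 j := fun j => by exact_mod_cast hκ1 j
    have hAx : ∀ a ∈ A, 0 ≤ rdot a x := by
      intro a ha
      by_cases ha0 : 0 < a 0
      · exact hx a (Finset.mem_union_right _ (Finset.mem_union_left _
          (Finset.mem_filter.2 ⟨ha, ha0⟩)))
      have ha0' : a 0 = 0 := le_antisymm (not_lt.1 ha0) (hA0 a ha)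
      have hax : rdot a x = rdot (Fin.tail a) (Fin.tail x) := by
        simp only [rdot, Fin.sum_univ_succ, ha0', Int.cast_zero, zero_mul, zero_add, Fin.tail]
      rw [hax]
      have hs : 0 ≤ rdot κ.1 (Fin.tail x) :=
        Finset.sum_nonneg fun j _ => mul_nonneg (hκ1' j).le (hxj j)
      rcases hs.eq_or_lt with hs | hs
      · have hz : ∀ j, Fin.tail x j = 0 := by
          intro j
          have h1 := (Finset.sum_eq_zero_iff_of_nonneg fun j _ =>
            mul_nonneg (hκ1' j).le (hxj j)).1 hs.symm j (Finset.mem_univ j)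
          exact (mul_eq_zero.1 h1).resolve_left (hκ1' j).ne'
        refine Finset.sum_nonneg fun j _ => ?_
        rw [hz j, mul_zero]
      · set t : ℝ := κ.2 / rdot κ.1 (Fin.tail x) with ht
        have ht0 : 0 < t := div_pos hκ2' hs
        set q : Fin n → ℝ := t • Fin.tail x with hq
        have hκq : rdot κ.1 q = κ.2 := by
          rw [hq, rdot_smul, ht, div_mul_cancel₀ _ hs.ne']
        have hq0 : ∀ j, 0 ≤ q j := fun j => by
          rw [hq, Pi.smul_apply, smul_eq_mul]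
          exact mul_nonneg ht0.le (hxj j)
        obtain ⟨l, hl0, hl1, hlq⟩ := hcut q hq0 (fun τ hτ => by
          have h2 : 0 ≤ rdot (et κ τ) q := by
            rw [hq, rdot_smul]
            exact mul_nonneg ht0.le (hxτ τ hτ)
          rw [rdot_et, hκq] at h2
          have h3 : (κ.2 : ℝ) * τ.2 ≤ κ.2 * rdot τ.1 q := by linarith
          exact le_of_mul_le_mul_left h3 hκ2')
        have hκv : ∀ v ∈ (Fc (fM f M)).support, (κ.2 : ℝ) ≤ ((κ.1 ⬝ᵥ v : ℤ) : ℝ) :=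
          fun v hv => by exact_mod_cast hκle v hv
        have hswap : ∀ h : Fin n → ℤ,
            ∑ j, (h j : ℝ) * ∑ v ∈ (Fc (fM f M)).support, l v * (v j : ℝ) =
            ∑ v ∈ (Fc (fM f M)).support, l v * ((h ⬝ᵥ v : ℤ) : ℝ) := by
          intro h
          simp only [Finset.mul_sum]
          rw [Finset.sum_comm]
          refine Finset.sum_congr rfl fun v _ => ?_
          rw [← rdot_int]
          unfold rdot
          rw [Finset.mul_sum]
          exact Finset.sum_congr rfl fun j _ => by ring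
        have hge : (κ.2 : ℝ) ≤ ∑ v ∈ (Fc (fM f M)).support, l v * ((κ.1 ⬝ᵥ v : ℤ) : ℝ) := by
          calc (κ.2 : ℝ) = ∑ v ∈ (Fc (fM f M)).support, l v * (κ.2 : ℝ) := by
                rw [← Finset.sum_mul, hl1, one_mul]
            _ ≤ _ := Finset.sum_le_sum fun v hv => mul_le_mul_of_nonneg_left (hκv v hv) (hl0 v hv)
        have hle : ∑ v ∈ (Fc (fM f M)).support, l v * ((κ.1 ⬝ᵥ v : ℤ) : ℝ) ≤ κ.2 := by
          rw [← hswap, ← hκq]
          unfold rdot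
          exact Finset.sum_le_sum fun j _ => mul_le_mul_of_nonneg_left (hlq j) (hκ1' j).le
        have heq : ∑ v ∈ (Fc (fM f M)).support, l v * ((κ.1 ⬝ᵥ v : ℤ) : ℝ) = κ.2 :=
          le_antisymm hle hge
        -- `l v` is supported on the face
        have hlv : ∀ v ∈ (Fc (fM f M)).support, l v * (((κ.1 ⬝ᵥ v : ℤ) : ℝ) - κ.2) = 0 := by
          have h1 : ∑ v ∈ (Fc (fM f M)).support, l v * (((κ.1 ⬝ᵥ v : ℤ) : ℝ) - κ.2) = 0 := by
            simp only [mul_sub]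
            rw [Finset.sum_sub_distrib, heq, ← Finset.sum_mul, hl1, one_mul, sub_self]
          exact (Finset.sum_eq_zero_iff_of_nonneg fun v hv =>
            mul_nonneg (hl0 v hv) (sub_nonneg.2 (hκv v hv))).1 h1
        -- the difference is zero
        have hqj : ∀ j, q j = ∑ v ∈ (Fc (fM f M)).support, l v * (v j : ℝ) := by
          have h1 : ∑ j, (κ.1 j : ℝ) *
              (q j - ∑ v ∈ (Fc (fM f M)).support, l v * (v j : ℝ)) = 0 := by
            simp only [mul_sub]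
            rw [Finset.sum_sub_distrib, hswap, heq]
            have h2 : ∑ j, (κ.1 j : ℝ) * q j = rdot κ.1 q := rfl
            rw [h2, hκq, sub_self]
          intro j
          have h2 := (Finset.sum_eq_zero_iff_of_nonneg fun j _ =>
            mul_nonneg (hκ1' j).le (sub_nonneg.2 (hlq j))).1 h1 j (Finset.mem_univ j)
          have h3 := (mul_eq_zero.1 h2).resolve_left (hκ1' j).ne'
          linarith
        have hmain : 0 ≤ rdot (Fin.tail a) q := by
          have h1 : rdot (Fin.tail a) q =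
              ∑ v ∈ (Fc (fM f M)).support, l v * ((Fin.tail a ⬝ᵥ v : ℤ) : ℝ) := by
            rw [← hswap]
            unfold rdot
            exact Finset.sum_congr rfl fun j _ => by rw [hqj j]
          rw [h1]
          refine Finset.sum_nonneg fun v hv => ?_
          rcases mul_eq_zero.1 (hlv v hv) with h | h
          · rw [h, zero_mul]
          · have h2 : κ.1 ⬝ᵥ v = κ.2 := by
              have h3 : ((κ.1 ⬝ᵥ v : ℤ) : ℝ) = κ.2 := by linarith
              exact_mod_cast h3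
            refine mul_nonneg (hl0 v hv) ?_
            rcases (Fc_fM_support f M v).1 hv with h3 | ⟨j, rfl⟩
            · exact_mod_cast hAv a ha ha0' v h3 h2
            · rw [dot_smul_ee] at h2 ⊢
              have h4 := hAj a ha ha0' j h2
              have h5 : 0 ≤ 2 * (M j : ℤ) * Fin.tail a j := mul_nonneg (by positivity) h4
              exact_mod_cast h5
        have h2 : rdot (Fin.tail a) q = t * rdot (Fin.tail a) (Fin.tail x) := by
          rw [hq, rdot_smul]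
        rw [h2] at hmain
        exact nonneg_of_mul_nonneg_right hmain ht0
    obtain ⟨l, hl0, hl⟩ := (hA x).2 hAx
    refine ⟨l, hl0, fun j => ?_⟩
    rw [hl, Finset.sum_apply]
    exact Finset.sum_congr rfl fun v _ => by rw [Pi.smul_apply, smul_eq_mul]

end MPb07157T
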