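import Pool.Agent.Lib.MP_b07157_agF.H1
import Pool.Agent.Lib.MP_b07157_agN.CDefs
import Pool.Agent.Lib.MP_b07157_ag.LC.FE0

/-!
# From a good set in a compact face to a face with the good set in its relative interior
-/

noncomputable section

namespace MPb07157Z

open Finset MvPolynomial MPb07157 MPb07157F

variable {n : ℕ}

private theorem hl_int_mult (h : Fin n → ℚ) :
    ∃ d : ℕ, 0 < d ∧ ∃ z : Fin n → ℤ, ∀ j, (z j : ℚ) = d * h j := by
  classical
  refine ⟨∏ i, (h i).den, Finset.prod_pos fun i _ => (h i).den_pos, ?_⟩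
  have h1 : ∀ j, ∃ z : ℤ, (z : ℚ) = ((∏ i, (h i).den : ℕ) : ℚ) * h j := by
    intro j
    obtain ⟨e, he⟩ := Finset.dvd_prod_of_mem (fun i => (h i).den) (Finset.mem_univ j)
    refine ⟨(h j).num * e, ?_⟩
    rw [he]
    push_cast
    have h2 : ((h j).num : ℚ) = h j * (h j).den := (Rat.mul_den_eq_num (h j)).symm
    rw [h2]
    ring
  choose z hz using h1
  exact ⟨z, hz⟩

private theorem hl_zd_cast {h : Fin n → ℚ} {d : ℕ} {z : Fin n → ℤ}
    (hz : ∀ j, (z j : ℚ) = d * h j) (v : Fin n →₀ ℕ) : ((zd z v : ℤ) : ℚ) = d * qd h v := by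
  unfold zd qd
  push_cast
  rw [Finset.mul_sum]
  refine Finset.sum_congr rfl fun j _ => ?_
  rw [hz j]
  ring

/-- One step: a form that vanishes on `ρ` and is nonnegative, not zero on the face makes the face
smaller: `ω` is replaced by `L (w + ω) + h`. -/
private theorem hl_step {f : MvPolynomial (Fin n) ℂ} {ρ : Finset (Sf f)} {w : Fin n → ℕ} {N : ℕ}
    (hN : 0 < N) (hmin : ∀ v ∈ f.support, N ≤ wt w v) (hρ : ∀ v ∈ ρ, wt w v.1 = N)
    {ω : Fin n → ℕ} {Nω : ℕ} (hω : ∀ j, 0 < ω j) (hminω : ∀ v ∈ f.support, Nω ≤ wt ω v)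
    (hρω : ∀ v ∈ ρ, wt ω v.1 = Nω) {h : Fin n → ℚ} (h1 : ∀ v ∈ ρ, qd h v.1 = 0)
    (h2 : ∀ v ∈ (face f w N).filter (fun v => wt ω v = Nω), 0 ≤ qd h v) {v₀ : Fin n →₀ ℕ}
    (hv₀ : v₀ ∈ (face f w N).filter (fun v => wt ω v = Nω)) (h3 : qd h v₀ ≠ 0) :
    ∃ (ω' : Fin n → ℕ) (Nω' : ℕ), 0 < Nω' ∧ (∀ j, 0 < ω' j) ∧
      (∀ v ∈ f.support, Nω' ≤ wt ω' v) ∧ (∀ v ∈ ρ, wt ω' v.1 = Nω') ∧
      ((face f w N).filter (fun v => wt ω' v = Nω')).card <
        ((face f w N).filter (fun v => wt ω v = Nω)).card := by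
  classical
  obtain ⟨d, hd, z, hz⟩ := hl_int_mult h
  have hzd := hl_zd_cast hz
  have hd' : (0 : ℚ) < d := by exact_mod_cast hd
  set L : ℕ := 1 + ∑ j, (z j).natAbs + ∑ u ∈ f.support, (zd z u).natAbs with hL
  have hL1 : ∀ j, |z j| < (L : ℤ) := by
    intro j
    have e1 : (z j).natAbs ≤ ∑ j, (z j).natAbs :=
      Finset.single_le_sum (f := fun j => (z j).natAbs) (fun _ _ => Nat.zero_le _)
        (Finset.mem_univ j)
    have e2 : (z j).natAbs < L := by omega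
    rw [Int.abs_eq_natAbs]
    exact_mod_cast e2
  have hL2 : ∀ u ∈ f.support, |zd z u| < (L : ℤ) := by
    intro u hu
    have e1 : (zd z u).natAbs ≤ ∑ u ∈ f.support, (zd z u).natAbs :=
      Finset.single_le_sum (f := fun u => (zd z u).natAbs) (fun _ _ => Nat.zero_le _) hu
    have e2 : (zd z u).natAbs < L := by omega
    rw [Int.abs_eq_natAbs]
    exact_mod_cast e2
  have hLpos : 0 < L := by omega
  have hω'' : ∀ j, (0 : ℤ) < L * (w j + ω j) + z j := by
    intro j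
    have e1 := abs_lt.1 (hL1 j)
    have e2 : (L : ℤ) * 1 ≤ L * (w j + ω j) := by
      have h4 := hω j
      have : (1 : ℤ) ≤ w j + ω j := by omega
      exact mul_le_mul_of_nonneg_left this (by positivity)
    linarith [e1.1]
  set ω' : Fin n → ℕ := fun j => ((L : ℤ) * (w j + ω j) + z j).toNat with hω'def
  have hω'c : ∀ j, (ω' j : ℤ) = L * (w j + ω j) + z j := fun j =>
    Int.toNat_of_nonneg (hω'' j).le
  have hwt : ∀ u : Fin n →₀ ℕ,
      ((wt ω' u : ℕ) : ℤ) = L * ((wt w u : ℕ) + (wt ω u : ℕ)) + zd z u := by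
    intro u
    unfold wt zd
    push_cast
    rw [← Finset.sum_add_distrib, Finset.mul_sum, ← Finset.sum_add_distrib]
    refine Finset.sum_congr rfl fun j _ => ?_
    rw [hω'c j]
    ring
  set G := (face f w N).filter (fun v => wt ω v = Nω) with hG
  have hmemG : ∀ u, u ∈ G ↔ u ∈ f.support ∧ wt w u = N ∧ wt ω u = Nω := by
    intro u
    rw [hG, Finset.mem_filter]
    unfold face
    rw [Finset.mem_filter]
    tauto
  have hzface : ∀ u ∈ G, 0 ≤ zd z u := by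
    intro u hu
    have e1 : (0 : ℚ) ≤ ((zd z u : ℤ) : ℚ) := by
      rw [hzd u]
      exact mul_nonneg hd'.le (h2 u hu)
    exact_mod_cast e1
  have hout : ∀ u ∈ f.support, u ∉ G → ((L * (N + Nω) : ℕ) : ℤ) < (wt ω' u : ℕ) := by
    intro u hu hnf
    have e1 := hmin u hu
    have e2 := hminω u hu
    have e3 : N + Nω + 1 ≤ wt w u + wt ω u := by
      by_contra hcon
      exact hnf ((hmemG u).2 ⟨hu, by omega, by omega⟩)
    have e4 := abs_lt.1 (hL2 u hu)
    rw [hwt u]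
    push_cast
    have e5 : (L : ℤ) * (N + Nω + 1) ≤ L * ((wt w u : ℕ) + (wt ω u : ℕ)) := by
      have : ((N : ℤ) + Nω + 1) ≤ (wt w u : ℕ) + (wt ω u : ℕ) := by exact_mod_cast e3
      exact mul_le_mul_of_nonneg_left this (by positivity)
    nlinarith [e4.1]
  have hin : ∀ u ∈ G, ((wt ω' u : ℕ) : ℤ) = ((L * (N + Nω) : ℕ) : ℤ) + zd z u := by
    intro u hu
    obtain ⟨-, e1, e2⟩ := (hmemG u).1 hu
    rw [hwt u, e1, e2]
    push_cast
    ring
  refine ⟨ω', L * (N + Nω), Nat.mul_pos hLpos (by omega), fun j => ?_, ?_, ?_, ?_⟩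
  · have := hω'' j
    rw [← hω'c j] at this
    exact_mod_cast this
  · intro u hu
    by_cases hf : u ∈ G
    · have e1 := hin u hf
      have e2 := hzface u hf
      have : ((L * (N + Nω) : ℕ) : ℤ) ≤ (wt ω' u : ℕ) := by linarith
      exact_mod_cast this
    · exact_mod_cast (hout u hu hf).le
  · intro v hv
    have hf : v.1 ∈ G := (hmemG v.1).2 ⟨v.2, hρ v hv, hρω v hv⟩
    have e1 := hin v.1 hf
    have e2 : ((zd z v.1 : ℤ) : ℚ) = 0 := by rw [hzd, h1 v hv, mul_zero]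
    have e3 : zd z v.1 = 0 := by exact_mod_cast e2
    rw [e3, add_zero] at e1
    exact_mod_cast e1
  · refine Finset.card_lt_card ?_
    rw [Finset.ssubset_iff_of_subset]
    · refine ⟨v₀, hv₀, fun hv => ?_⟩
      have e1 := (Finset.mem_filter.1 hv).2
      have e2 := hin v₀ hv₀
      rw [e1] at e2
      have e3 : zd z v₀ = 0 := by linarith
      have e4 := hzd v₀
      rw [e3, Int.cast_zero] at e4
      rcases mul_eq_zero.1 e4.symm with e5 | e5
      · exact absurd e5 hd'.ne'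
      · exact h3 e5
    · intro u hu
      by_contra hf
      obtain ⟨e0, e3⟩ := Finset.mem_filter.1 hu
      have e1 := hout u (Finset.mem_filter.1 e0).1 hf
      rw [e3] at e1
      exact lt_irrefl _ e1

/-- Shrinking the face: from `GoodSetL` to the data of `root_of_goodPL` (as `exists_faceP` in
`H1P.lean`; `w = k` is kept, `ω` is replaced by `L (k + ω) + h`). -/
theorem exists_faceL {f : MvPolynomial (Fin n) ℂ} {s₀ : ℚ} {D : Finset (Fin n)} {k : GG n}
    (hk : IsB f D s₀ k) {ω : Fin n → ℕ} {Nω : ℕ} {ρ : Finset (Sf f)} {γ : Sf f → ℚ}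
    (hg : GoodSetL f s₀ k ω Nω ρ γ) :
    ∃ (w : Fin n → ℕ) (N : ℕ) (ω' : Fin n → ℕ) (Nω' : ℕ) (P : Finset (Fin n))
      (ρ' : Finset (Fin n →₀ ℕ)) (γ' : (Fin n →₀ ℕ) → ℚ),
      0 < N ∧ (∀ v ∈ f.support, N ≤ wt w v) ∧ 0 < Nω' ∧ (∀ j, 0 < ω' j) ∧
      (∀ v ∈ f.support, Nω' ≤ wt ω' v) ∧ (∀ j, j ∈ P ↔ 0 < w j) ∧
      GoodP P ((face f w N).filter fun v => wt ω' v = Nω') ρ' γ' ∧ ∑ v ∈ ρ', γ' v = -s₀ := by
  classical
  have hmem := hk.mem
  have hkpos := hk.pos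
  set w : Fin n → ℕ := fun j => (k.1 j).toNat with hwdef
  set N : ℕ := k.2.toNat with hNdef
  have hN : 0 < N := by omega
  have hwt : ∀ u : Fin n →₀ ℕ, ((wt w u : ℕ) : ℤ) = dotH u k := by
    intro u
    rw [dotH_apply]
    unfold wt
    push_cast
    refine Finset.sum_congr rfl fun j _ => ?_
    rw [hwdef]
    simp only
    rw [Int.toNat_of_nonneg (hmem.1 j)]
  have hw : ∀ j, j ∈ suppG k ↔ 0 < w j := by
    intro j
    have h1 := hmem.1 j
    show j ∈ suppG k ↔ 0 < (k.1 j).toNat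
    constructor
    · intro h2
      have h3 := (Finset.mem_filter.1 h2).2
      omega
    · intro h2
      exact Finset.mem_filter.2 ⟨Finset.mem_univ j, by omega⟩
  have hmin : ∀ v ∈ f.support, N ≤ wt w v := by
    intro v hv
    have e1 := hmem.2.2.1 v hv
    rw [← hwt v] at e1
    omega
  have hρ : ∀ v ∈ ρ, wt w v.1 = N := by
    intro v hv
    have e1 := (Finset.mem_filter.1 (hg.face v hv)).2
    rw [← hwt v.1] at e1
    omega
  have hex : ∃ c : ℕ, ∃ (ω' : Fin n → ℕ) (Nω' : ℕ), 0 < Nω' ∧ (∀ j, 0 < ω' j) ∧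
      (∀ v ∈ f.support, Nω' ≤ wt ω' v) ∧ (∀ v ∈ ρ, wt ω' v.1 = Nω') ∧
      ((face f w N).filter (fun v => wt ω' v = Nω')).card = c :=
    ⟨_, ω, Nω, hg.hN, hg.hω, hg.hmin, hg.htie, rfl⟩
  obtain ⟨ω', Nω', hNω, hω, hminω, hρω, hc⟩ := Nat.find_spec hex
  have hleast : ∀ (ω₁ : Fin n → ℕ) (N₁ : ℕ), 0 < N₁ → (∀ j, 0 < ω₁ j) →
      (∀ v ∈ f.support, N₁ ≤ wt ω₁ v) → (∀ v ∈ ρ, wt ω₁ v.1 = N₁) →
      ¬ ((face f w N).filter (fun v => wt ω₁ v = N₁)).card <
        ((face f w N).filter (fun v => wt ω' v = Nω')).card := by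
    intro ω₁ N₁ a1 a2 a3 a4 a5
    rw [hc] at a5
    exact Nat.find_min hex a5 ⟨ω₁, N₁, a1, a2, a3, a4, rfl⟩
  set γ' : (Fin n →₀ ℕ) → ℚ := fun v => if h : v ∈ f.support then γ ⟨v, h⟩ else 0 with hγ'
  have hγv : ∀ v : Sf f, γ' v.1 = γ v := by
    intro v
    rw [hγ']
    exact dif_pos v.2
  have hinj : Set.InjOn (Subtype.val : Sf f → Fin n →₀ ℕ) (ρ : Set (Sf f)) :=
    Subtype.val_injective.injOn
  have hsum : ∀ F : (Fin n →₀ ℕ) → ℚ, ∑ v ∈ ρ.image Subtype.val, F v = ∑ v ∈ ρ, F v.1 :=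
    fun F => Finset.sum_image hinj
  have hsum2 : ∀ F : (Fin n →₀ ℕ) → ℚ,
      ∑ v ∈ ρ.image Subtype.val, γ' v * F v = ∑ v, γ v * F v.1 := by
    intro F
    rw [hsum]
    rw [← Finset.sum_subset (Finset.subset_univ ρ) (fun v _ hv => by rw [hg.zero v hv, zero_mul])]
    exact Finset.sum_congr rfl fun v _ => by rw [hγv v]
  refine ⟨w, N, ω', Nω', suppG k, ρ.image Subtype.val, γ', hN, hmin, hNω, hω, hminω, hw, ?_, ?_⟩
  · constructor
    · intro v hv
      obtain ⟨u, hu, rfl⟩ := Finset.mem_image.1 hv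
      exact Finset.mem_filter.2 ⟨Finset.mem_filter.2 ⟨u.2, hρ u hu⟩, hρω u hu⟩
    · intro g hg1 v hv
      obtain ⟨u, hu, rfl⟩ := Finset.mem_image.1 hv
      have e1 := hg.lin (fun v => if v ∈ ρ then g v.1 else 0) (fun v hv => if_neg hv) (by
        intro j
        have e2 := hg1 j
        rw [hsum] at e2
        refine Eq.trans ?_ e2
        symm
        refine (Finset.sum_congr rfl fun v hv => ?_).trans (Finset.sum_subset
          (Finset.subset_univ ρ) (fun v _ hv => ?_))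
        · rw [if_pos hv]
        · rw [if_neg hv, zero_mul])
      have e3 := congrFun e1 u
      simp only [if_pos hu, Pi.zero_apply] at e3
      exact e3
    · intro j hj
      rw [hsum2 fun v => (v j : ℚ)]
      exact hg.one j hj
    · intro j hj
      rcases hg.tw j hj with ⟨v, hv, h1, h2⟩ | ⟨j', h0, h1, h2⟩
      · exact Or.inl ⟨v.1, Finset.mem_image_of_mem _ hv, by rw [hγv v]; exact h1, h2⟩
      · refine Or.inr ⟨j', h0, h1, fun v hv => ?_⟩
        obtain ⟨u, hu, rfl⟩ := Finset.mem_image.1 hv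
        exact h2 u hu
    · intro h _ h1 h2
      by_contra h3
      push Not at h3
      obtain ⟨v₀, hv₀, h4⟩ := h3
      obtain ⟨ω₁, N₁, a1, a2, a3, a4, a5⟩ := hl_step hN hmin hρ hω hminω hρω (h := h)
        (fun v hv => h1 v.1 (Finset.mem_image_of_mem _ hv)) h2 hv₀ h4
      exact hleast ω₁ N₁ a1 a2 a3 a4 a5
  · have e1 := hsum2 fun _ => 1
    simp only [mul_one] at e1
    rw [e1]
    have e2 := hg.sum
    linarith

end MPb07157Z
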