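import Pool.Agent.Lib.MP_b07157_agNL.RootL
import Pool.Agent.Lib.MP_b07157_agP.P1d
import Pool.Agent.Lib.MP_b07157_agN.Fin

/-!
# The strong monodromy conjecture for polynomials that are non-degenerate on the compact faces of
their Newton polyhedron: local version
-/

noncomputable section

namespace MPb07157Z

open Finset Matrix MvPolynomial MPb07157 MPb07157T MPb07157F

variable {n : ℕ}

theorem mem_face_nuf {f : MvPolynomial (Fin n) ℂ} (hf : f ≠ 0) {a : Fin n → ℕ}
    {v : Fin n →₀ ℕ} :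
    v ∈ face f a (nuf f a) ↔ v ∈ f.support ∧ ∀ u ∈ f.support, wt a v ≤ wt a u := by
  unfold face
  rw [Finset.mem_filter]
  obtain ⟨h1, u, hu, h2⟩ := isMinWt_nuf hf a
  constructor
  · rintro ⟨hv, h⟩
    refine ⟨hv, fun u hu => ?_⟩
    rw [h]
    exact h1 u hu
  · rintro ⟨hv, h⟩
    refine ⟨hv, le_antisymm ?_ (h1 v hv)⟩
    rw [← h2]
    exact h u hu

/-- A face of a compact face is a compact face. -/
theorem exists_pos_face {f : MvPolynomial (Fin n) ℂ} (hf : f ≠ 0) {a : Fin n → ℕ}
    (ha : ∀ j, 0 < a j) (ω : Fin n → ℤ) :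
    ∃ a' : Fin n → ℕ, (∀ j, 0 < a' j) ∧
      face f a' (nuf f a') = fc (face f a (nuf f a)) ω := by
  classical
  set B : ℤ := ∑ v ∈ f.support, |zd ω v| with hB
  set C : ℤ := ∑ j, |ω j| with hC
  have hB' : ∀ v ∈ f.support, |zd ω v| ≤ B := fun v hv =>
    Finset.single_le_sum (f := fun v => |zd ω v|) (fun _ _ => abs_nonneg _) hv
  have hC' : ∀ j, |ω j| ≤ C := fun j =>
    Finset.single_le_sum (f := fun j => |ω j|) (fun _ _ => abs_nonneg _) (Finset.mem_univ j)
  have hB0 : 0 ≤ B := Finset.sum_nonneg fun _ _ => abs_nonneg _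
  have hC0 : 0 ≤ C := Finset.sum_nonneg fun _ _ => abs_nonneg _
  set K : ℤ := 2 * B + C + 1 with hK
  have hpos : ∀ j, 0 < K * (a j : ℤ) + ω j := by
    intro j
    have h1 := hC' j
    have h2 := neg_abs_le (ω j)
    have h3 : (1 : ℤ) ≤ a j := by exact_mod_cast ha j
    have h4 : K ≤ K * (a j : ℤ) := by nlinarith
    linarith
  set a' : Fin n → ℕ := fun j => (K * (a j : ℤ) + ω j).toNat with ha'
  have hcast : ∀ j, ((a' j : ℕ) : ℤ) = K * (a j : ℤ) + ω j := fun j =>
    Int.toNat_of_nonneg (hpos j).le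
  have hw : ∀ v : Fin n →₀ ℕ, ((wt a' v : ℕ) : ℤ) = K * (wt a v : ℤ) + zd ω v := by
    intro v
    unfold wt zd
    push_cast
    rw [Finset.mul_sum, ← Finset.sum_add_distrib]
    refine Finset.sum_congr rfl fun j _ => ?_
    rw [hcast j]
    ring
  refine ⟨a', fun j => ?_, ?_⟩
  · have := hpos j
    have h2 := hcast j
    omega
  ext v
  rw [mem_face_nuf hf]
  unfold fc
  rw [Finset.mem_filter, mem_face_nuf hf]
  constructor
  · rintro ⟨hv, h⟩
    have key : ∀ u ∈ f.support, K * (wt a v : ℤ) + zd ω v ≤ K * (wt a u : ℤ) + zd ω u := by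
      intro u hu
      have := h u hu
      rw [← hw, ← hw]
      exact_mod_cast this
    have h1 : ∀ u ∈ f.support, wt a v ≤ wt a u := by
      intro u hu
      by_contra hlt
      rw [not_le] at hlt
      have h2 : (wt a u : ℤ) + 1 ≤ wt a v := by exact_mod_cast hlt
      have h3 := key u hu
      have h4 := abs_le.1 (hB' u hu)
      have h5 := abs_le.1 (hB' v hv)
      have h6 : K * ((wt a u : ℤ) + 1) ≤ K * wt a v := by
        apply mul_le_mul_of_nonneg_left h2
        omega
      have h7 : K * ((wt a u : ℤ) + 1) = K * (wt a u : ℤ) + K := by ring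
      linarith [h4.1, h4.2, h5.1, h5.2]
    refine ⟨⟨hv, h1⟩, fun u hu => ?_⟩
    rw [mem_face_nuf hf] at hu
    have h2 : wt a u = wt a v := le_antisymm (hu.2 v hv) (h1 u hu.1)
    have h3 := key u hu.1
    rw [h2] at h3
    linarith
  · rintro ⟨⟨hv, h1⟩, h2⟩
    refine ⟨hv, fun u hu => ?_⟩
    have key : K * (wt a v : ℤ) + zd ω v ≤ K * (wt a u : ℤ) + zd ω u := by
      rcases (h1 u hu).eq_or_lt with h | h
      · have h3 : u ∈ face f a (nuf f a) := by
          rw [mem_face_nuf hf]
          refine ⟨hu, fun u' hu' => ?_⟩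
          rw [← h]
          exact h1 u' hu'
        have := h2 u h3
        rw [h]
        linarith
      · have h3 : (wt a v : ℤ) + 1 ≤ wt a u := by exact_mod_cast h
        have h4 := abs_le.1 (hB' u hu)
        have h5 := abs_le.1 (hB' v hv)
        have h6 : K * ((wt a v : ℤ) + 1) ≤ K * wt a u := by
          apply mul_le_mul_of_nonneg_left h3
          omega
        have h7 : K * ((wt a v : ℤ) + 1) = K * (wt a v : ℤ) + K := by ring
        linarith [h4.1, h4.2, h5.1, h5.2]
    rw [← hw, ← hw] at key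
    exact_mod_cast key

theorem ndcpt_of_nondegAt {f : MvPolynomial (Fin n) ℂ} (hf : f ≠ 0)
    (hnd : ∀ a : Fin n → ℕ, (∀ i, 0 < a i) → NondegAt f (face f a (nuf f a))) : NDcpt f := by
  intro a ha ω
  obtain ⟨a', ha', h⟩ := exists_pos_face hf ha ω
  rw [← h]
  exact hnd a' ha'

/-- **The strong monodromy conjecture, local version**, for polynomials which are non-degenerate on
the compact faces of their Newton polyhedron. -/
theorem smc_nondeg_local {f : MvPolynomial (Fin n) ℂ} (hf : f ≠ 0)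
    (h0 : (0 : Fin n →₀ ℕ) ∉ f.support)
    (hnd : ∀ a : Fin n → ℕ, (∀ i, 0 < a i) → NondegAt f (face f a (nuf f a))) (s₀ : ℚ)
    (hp : IsPole (Zmot0 f) s₀) : IsLocalBernsteinSatoRoot f s₀ := by
  by_cases hs : s₀ = -1
  · subst hs
    exact (roots_of_form (f := f) (s₀ := -1) fun b hb => neg_one_root hf h0 b hb).2
  obtain ⟨k, hk, ω, Nω, ρ, γ, hg⟩ := MPb07157P.LocL.exists_goodL_of_pole hf hnd hs hp
  obtain ⟨w, N, ω', Nω', P, ρ', γ', hN, hmin, hNω, hω, hminω, hP, hgood, hsum⟩ :=
    exists_faceL hk hg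
  exact (roots_of_form fun b hb => root_of_goodPL hf h0 (ndcpt_of_nondegAt hf hnd) hN hmin hNω hω
    hminω hP hgood hsum b hb).2

end MPb07157Z

namespace MPb07157

open MvPolynomial

variable {n : ℕ}

/-- **The strong monodromy conjecture, local version**, for polynomials which are non-degenerate on
the compact faces of their Newton polyhedron. -/
theorem smc_initialPart_local {f : MvPolynomial (Fin n) ℂ} (hf : f ≠ 0) (h0 : coeff 0 f = 0)
    (hnd : ∀ w : Fin n → ℕ, (∀ j, 0 < w j) → IsNondeg (initialPart f w))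
    (s₀ : ℚ) (hp : IsPole (Zmot0 f) s₀) : IsLocalBernsteinSatoRoot f s₀ := by
  have h0' : (0 : Fin n →₀ ℕ) ∉ f.support := by rwa [notMem_support_iff]
  exact MPb07157Z.smc_nondeg_local hf h0' (fun w hw => nondegAt_of_initialPart hf (hnd w hw)) s₀ hp

end MPb07157
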