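import Pool.Agent.Lib.MP_b07157_agN.NDC
import Pool.Agent.Lib.MP_b07157_agNL.OutL

/-!
# Nondegeneracy, local version
-/

noncomputable section

namespace MPb07157T

open Finset Matrix

variable {n : ℕ}

private theorem ndl_c0 (F : (Fin n → ℤ) →₀ ℂ) (M : Fin n → ℕ) (g : Fin n → ℂ) (v : Fin n → ℤ) :
    Cay2 F M g (c0 v) = F v := by
  classical
  unfold Cay2
  rw [Finsupp.add_apply, Finsupp.add_apply, Finsupp.mapDomain_apply c0_injective,
    Finsupp.finsetSum_apply, Finsupp.single_apply, if_neg, zero_add, Finset.sum_eq_zero, add_zero]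
  · intro j _
    rw [Finsupp.single_apply, if_neg]
    exact fun h => c0_ne_c1 _ _ h.symm
  · intro h
    have := congrFun h 0
    simp [cx2, c0] at this

private theorem ndl_cx2 (F : (Fin n → ℤ) →₀ ℂ) (M : Fin n → ℕ) (g : Fin n → ℂ) :
    Cay2 F M g (cx2 n) = 1 := by
  classical
  unfold Cay2
  rw [Finsupp.add_apply, Finsupp.add_apply, Finsupp.mapDomain_of_notMem_range,
    Finsupp.finsetSum_apply, Finsupp.single_eq_same, zero_add, Finset.sum_eq_zero, add_zero]
  · intro j _
    rw [Finsupp.single_apply, if_neg]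
    intro h
    have := congrFun h 0
    simp [cx2, c1] at this
  · rintro ⟨u, hu⟩
    have := congrFun hu 0
    simp [cx2, c0] at this

private theorem ndl_c1 (F : (Fin n → ℤ) →₀ ℂ) {M : Fin n → ℕ} (hM : ∀ j, 1 ≤ M j) (g : Fin n → ℂ)
    (j : Fin n) : Cay2 F M g (c1 ((M j : ℤ) • ee j)) = g j := by
  classical
  unfold Cay2
  rw [Finsupp.add_apply, Finsupp.add_apply, Finsupp.mapDomain_of_notMem_range,
    Finsupp.finsetSum_apply, Finsupp.single_apply, if_neg, zero_add, zero_add,
    Finset.sum_eq_single j, Finsupp.single_eq_same]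
  · intro i _ hi
    rw [Finsupp.single_apply, if_neg]
    intro h
    have h1 := congrFun (c1_injective h) i
    have h2 := hM i
    simp [ee, hi] at h1
    omega
  · intro h
    exact absurd (Finset.mem_univ j) h
  · intro h
    have := congrFun h 0
    simp [cx2, c1] at this
  · rintro ⟨u, hu⟩
    exact c0_ne_c1 _ _ hu

/-- The chain rule for a monomial. -/
private theorem ndl_der {r : ℕ} (D : Derivation ℚ ℂ ℂ) (u : Fin r → ℂ) (hu : ∀ j, u j ≠ 0)
    (e : Fin r → ℕ) : D (∏ i, u i ^ e i) =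
      (∏ i, u i ^ e i) * ∑ i, (e i : ℂ) * (D (u i) / u i) := by
  classical
  have key : ∀ s : Finset (Fin r), D (∏ i ∈ s, u i ^ e i) =
      (∏ i ∈ s, u i ^ e i) * ∑ i ∈ s, (e i : ℂ) * (D (u i) / u i) := by
    intro s
    induction s using Finset.induction_on with
    | empty => simp
    | insert a s ha ih =>
      rw [Finset.prod_insert ha, Derivation.leibniz, ih, Finset.sum_insert ha,
        Derivation.leibniz_pow]
      simp only [smul_eq_mul, nsmul_eq_mul]
      rcases Nat.eq_zero_or_pos (e a) with h | h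
      · rw [h]
        simp
      · have h1 : u a ^ e a = u a ^ (e a - 1) * u a := by
          rw [← pow_succ, Nat.sub_add_cancel h]
        rw [h1]
        field_simp [hu a]
        ring
  exact key Finset.univ

/-- The Nullstellensatz for polynomials given by their coefficient functions. -/
private theorem ndl_cert {k : Type} [Field k] [IsAlgClosed k] {r : ℕ} (F : (Fin r → ℤ) →₀ k)
    (h0 : ∀ v ∈ F.support, ∀ j, 0 ≤ v j)
    (ht : ∀ u : Fin r → k, (∀ j, u j ≠ 0) →
      ∃ i, ∑ v ∈ F.support, ((v i : ℤ) : k) * F v * ∏ j, u j ^ (v j).toNat ≠ 0) :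
    Cert Set.univ F 1 := by
  classical
  let nv : (Fin r → ℤ) → (Fin r →₀ ℕ) := fun v =>
    Finsupp.equivFunOnFinite.symm fun j => (v j).toNat
  have hnv : ∀ v : Fin r → ℤ, (∀ j, 0 ≤ v j) → castv (nv v) = v := by
    intro v hv
    funext j
    show (((v j).toNat : ℕ) : ℤ) = v j
    exact Int.toNat_of_nonneg (hv j)
  have hinj : ∀ v ∈ F.support, ∀ v' ∈ F.support, nv v = nv v' → v = v' := by
    intro v hv v' hv' h
    rw [← hnv v (h0 v hv), ← hnv v' (h0 v' hv'), h]
  let P : MvPolynomial (Fin r) k := ∑ v ∈ F.support, MvPolynomial.monomial (nv v) (F v)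
  have hP : ∀ w : Fin r →₀ ℕ, MvPolynomial.coeff w P = F (castv w) := by
    intro w
    simp only [P]
    rw [MvPolynomial.coeff_sum]
    simp only [MvPolynomial.coeff_monomial]
    by_cases hw : castv w ∈ F.support
    · rw [Finset.sum_eq_single (castv w)]
      · rw [if_pos]
        apply castv_injective
        exact hnv _ (h0 _ hw)
      · intro v hv hne
        rw [if_neg]
        intro h
        apply hne
        rw [← h, hnv v (h0 v hv)]
      · intro h
        exact absurd hw h
    · rw [Finsupp.notMem_support_iff.1 hw]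
      refine Finset.sum_eq_zero fun v hv => ?_
      rw [if_neg]
      intro h
      apply hw
      rw [← h, hnv v (h0 v hv)]
      exact hv
  have hF : toF P (F.support.image nv) = F := by
    ext m
    by_cases hm : ∃ w, m = castv w
    · obtain ⟨w, rfl⟩ := hm
      rw [toF_castv, hP]
      split_ifs with h
      · rfl
      · by_contra hne
        apply h
        rw [Finset.mem_image]
        have hs : castv w ∈ F.support := Finsupp.mem_support_iff.2 (Ne.symm hne)
        exact ⟨castv w, hs, castv_injective (hnv _ (h0 _ hs))⟩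
    · have h1 : toF P (F.support.image nv) m = 0 := by
        by_contra hne
        obtain ⟨v, -, e, -⟩ := toF_support hne
        exact hm ⟨v, e⟩
      rw [h1]
      by_contra hne
      have hs : m ∈ F.support := Finsupp.mem_support_iff.2 (Ne.symm hne)
      exact hm ⟨nv m, (hnv m (h0 m hs)).symm⟩
  rw [← hF]
  refine cert_of_torus P _ fun u hu => ?_
  obtain ⟨i, hi⟩ := ht u hu
  refine ⟨i, ?_⟩
  have h1 : MvPolynomial.eval u (∑ v ∈ F.support.image nv, MvPolynomial.monomial v
      ((v i : k) * MvPolynomial.coeff v P)) =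
      ∑ v ∈ F.support, ((v i : ℤ) : k) * F v * ∏ j, u j ^ (v j).toNat := by
    rw [Finset.sum_image hinj, map_sum]
    refine Finset.sum_congr rfl fun v hv => ?_
    rw [MvPolynomial.eval_monomial, hP, hnv v (h0 v hv),
      Finsupp.prod_fintype _ _ (fun i => pow_zero _)]
    have h2 : ((nv v i : ℕ) : k) = ((v i : ℤ) : k) := by
      have h3 : ((nv v i : ℕ) : ℤ) = v i := congrFun (hnv v (h0 v hv)) i
      rw [← h3]
      push_cast
      rfl
    rw [h2]
    rfl
  rw [h1]
  exact hi

/-- Nondegenerate parts have no common zero of the logarithmic derivatives. -/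
private theorem ndl_torus (f : MvPolynomial (Fin n) ℂ) (I : Finset (Fin n →₀ ℕ))
    (hnd : MPb07157.NondegAt f I) (w : Fin n → ℤ) (N : ℤ) (hN : N ≠ 0)
    (hw : ∀ v ∈ I, w ⬝ᵥ castv v = N) (u : Fin n → ℂ) (hu : ∀ j, u j ≠ 0) :
    ∃ i, ∑ v ∈ I, (v i : ℂ) * MvPolynomial.coeff v f * ∏ j, u j ^ v j ≠ 0 := by
  classical
  by_contra hno
  push Not at hno
  have h1 : ∀ i, ∑ v ∈ I, (v i : ℂ) * MvPolynomial.coeff v f * ∏ j, u j ^ v j =
      u i * MvPolynomial.eval u (MvPolynomial.pderiv i (MPb07157.inForm f I)) := by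
    intro i
    unfold MPb07157.inForm
    rw [map_sum, map_sum, Finset.mul_sum]
    refine Finset.sum_congr rfl fun v _ => ?_
    rw [MvPolynomial.pderiv_monomial, MvPolynomial.eval_monomial,
      ← Finsupp.prod_fintype v (fun j e => u j ^ e) (fun i => pow_zero _)]
    by_cases hvi : v i = 0
    · rw [hvi]
      simp
    · have h2 : v = (v - Finsupp.single i 1) + Finsupp.single i 1 := by
        rw [tsub_add_cancel_of_le]
        rw [Finsupp.single_le_iff]
        omega
      have h3 : (v.prod fun j e => u j ^ e) =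
          ((v - Finsupp.single i 1).prod fun j e => u j ^ e) * u i := by
        have h4 : ((Finsupp.single i 1 : Fin n →₀ ℕ).prod fun j e => u j ^ e) = u i := by
          rw [Finsupp.prod_single_index (h := fun j e => u j ^ e) (pow_zero _), pow_one]
        have h5 := Finsupp.prod_add_index' (f := v - Finsupp.single i 1)
          (g := Finsupp.single i 1) (h := fun j e => u j ^ e) (fun j => pow_zero _)
          (fun j a b => pow_add _ _ _)
        rw [← h2, h4] at h5
        exact h5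
      rw [h3]
      ring
  have h2 : ∀ i, MvPolynomial.eval u (MvPolynomial.pderiv i (MPb07157.inForm f I)) = 0 := by
    intro i
    have h3 := h1 i
    rw [hno i] at h3
    exact (mul_eq_zero.1 h3.symm).resolve_left (hu i)
  have h3 : (N : ℂ) * MvPolynomial.eval u (MPb07157.inForm f I) = 0 := by
    have h4 : ∑ i, (w i : ℂ) * ∑ v ∈ I, (v i : ℂ) * MvPolynomial.coeff v f * ∏ j, u j ^ v j =
        (N : ℂ) * MvPolynomial.eval u (MPb07157.inForm f I) := by
      unfold MPb07157.inForm
      rw [map_sum]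
      simp only [MvPolynomial.eval_monomial, Finset.mul_sum]
      rw [Finset.sum_comm]
      refine Finset.sum_congr rfl fun v hv => ?_
      rw [Finsupp.prod_fintype v (fun j e => u j ^ e) (fun i => pow_zero _)]
      have h5 : ∑ i, (w i : ℂ) * (v i : ℂ) = N := by
        have h6 := hw v hv
        unfold dotProduct castv at h6
        rw [← h6]
        push_cast
        rfl
      rw [← h5, Finset.sum_mul]
      exact Finset.sum_congr rfl fun i _ => by ring
    rw [← h4]
    exact Finset.sum_eq_zero fun i _ => by rw [hno i, mul_zero]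
  have h4 : MvPolynomial.eval u (MPb07157.inForm f I) = 0 :=
    (mul_eq_zero.1 h3).resolve_left (by exact_mod_cast hN)
  obtain ⟨j, hj⟩ := hnd u hu h4
  exact hj (h2 j)

/-- Unit ideals on all faces of the cone.  Proof as `nd_cay` (`NDC.lean`): (1) no exponent with
`x₀` in `I`: a face of a compact face of `f`, `hnd`; (2) `(2, 0) ∈ I` but no `(1, M e_j)`:
`θ₀ F_I = 2 x₀² ≠ 0`; (3) `(1, M e_j) ∈ I`: the derivation for `γ_j`. -/
theorem nd_cay2 {f : MvPolynomial (Fin n) ℂ} (hnd : NDcpt f) {M : Fin n → ℕ}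
    (hM : ∀ j, 1 ≤ M j) {g : Fin n → ℂ} (hgen : Gen f g) {κ : (Fin n → ℤ) × ℤ} (hκ : WtL f M κ)
    (H : Finset (Fin (n + 1) → ℤ)) (hee : ∀ l, ee l ∈ H)
    (hF : ∀ h ∈ H, ∀ v ∈ (Fs (cw2 κ) (Cay2 (Fc f) M g)).support, 0 ≤ h ⬝ᵥ v)
    (hcone : ∀ x : Fin (n + 1) → ℝ, (∀ h ∈ H, 0 ≤ rdot h x) → ∃ l : (Fin (n + 1) → ℤ) → ℝ,
      (∀ v ∈ (Fs (cw2 κ) (Cay2 (Fc f) M g)).support, 0 ≤ l v) ∧
      ∀ j, ∑ v ∈ (Fs (cw2 κ) (Cay2 (Fc f) M g)).support, l v * (v j : ℝ) = x j) :
    ND H (Fs (cw2 κ) (Cay2 (Fc f) M g)) := by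
  classical
  intro Z hZH hrel hZ
  obtain ⟨x, hxZ, hxH⟩ := hrel
  obtain ⟨hκ2, hκ1, hκle, -⟩ := hκ
  have hg : ∀ j, g j ≠ 0 := fun j => (hgen j).1
  have hmem : ∀ v, v ∈ (Fs (cw2 κ) (Cay2 (Fc f) M g)).support ↔
      (∃ v' ∈ (Fc f).support, κ.1 ⬝ᵥ v' = κ.2 ∧ v = c0 v') ∨ v = cx2 n ∨
        ∃ j, 2 * (M j : ℤ) * κ.1 j = κ.2 ∧ v = c1 ((M j : ℤ) • ee j) :=
    fun v => mem_cay2_support f hM hg v
  obtain ⟨F', hF'⟩ : ∃ F', F' = Fs (cw2 κ) (Cay2 (Fc f) M g) := ⟨_, rfl⟩
  have hF'c : ∀ v ∈ F'.support, F' v = Cay2 (Fc f) M g v := by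
    intro v hv
    rw [hF'] at hv ⊢
    rw [mem_Fs_support] at hv
    unfold Fs
    rw [Finsupp.filter_apply, if_pos hv.1]
  have hlev : ∀ v ∈ F'.support, (cw2 κ).1 ⬝ᵥ v = 2 * κ.2 := by
    intro v hv
    rw [hF', mem_Fs_support] at hv
    exact hv.1
  rw [← hF'] at hF hcone hmem ⊢
  -- the part on the face
  have hpart : ∀ v, v ∈ (Fpart Z F').support ↔ v ∈ F'.support ∧ ∀ z ∈ Z, z ⬝ᵥ v = 0 := by
    intro v
    unfold Fpart
    rw [Finsupp.support_filter, Finset.mem_filter]
  have hpv : ∀ v ∈ (Fpart Z F').support, Fpart Z F' v = Cay2 (Fc f) M g v := by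
    intro v hv
    have h1 := (hpart v).1 hv
    rw [← hF'c v h1.1]
    unfold Fpart
    rw [Finsupp.filter_apply, if_pos h1.2]
  have hnn : ∀ v ∈ F'.support, ∀ j, 0 ≤ v j := by
    intro v hv j
    have := hF (ee j) (hee j) v hv
    rwa [ee_dotProduct] at this
  -- the face is not empty
  have hne : (Fpart Z F').support.Nonempty := by
    have hx0 : ∀ h ∈ H, 0 ≤ rdot h x := by
      intro h hh
      by_cases hs : InSpan Z h
      · -- zero on the span
        have h1 : ∀ y ∈ Submodule.span ℚ {y | ∃ z ∈ Z, y = vec ℚ z},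
            ∑ i, ((y i : ℚ) : ℝ) * x i = 0 := by
          intro y hy
          induction hy using Submodule.span_induction with
          | mem y hy =>
            obtain ⟨z, hz, rfl⟩ := hy
            have h2 := hxZ z hz
            unfold rdot at h2
            rw [← h2]
            refine Finset.sum_congr rfl fun i _ => ?_
            simp [vec]
          | zero => simp
          | add a b _ _ ha hb =>
            have h2 : ∑ i, (((a + b) i : ℚ) : ℝ) * x i =
                ∑ i, ((a i : ℚ) : ℝ) * x i + ∑ i, ((b i : ℚ) : ℝ) * x i := by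
              rw [← Finset.sum_add_distrib]
              refine Finset.sum_congr rfl fun i _ => ?_
              rw [Pi.add_apply]
              push_cast
              ring
            rw [h2, ha, hb, add_zero]
          | smul c a _ ha =>
            have h2 : ∑ i, (((c • a) i : ℚ) : ℝ) * x i =
                (c : ℝ) * ∑ i, ((a i : ℚ) : ℝ) * x i := by
              rw [Finset.mul_sum]
              refine Finset.sum_congr rfl fun i _ => ?_
              rw [Pi.smul_apply, smul_eq_mul]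
              push_cast
              ring
            rw [h2, ha, mul_zero]
        have h2 := h1 _ hs
        refine le_of_eq ?_
        unfold rdot
        rw [← h2]
        refine Finset.sum_congr rfl fun i _ => ?_
        simp [vec]
      · exact (hxH h hh hs).le
    obtain ⟨l, hl0, hl⟩ := hcone x hx0
    by_contra hemp
    rw [Finset.not_nonempty_iff_eq_empty] at hemp
    -- all coefficients vanish
    have hlv : ∀ v ∈ F'.support, l v = 0 := by
      intro v hv
      by_contra hlne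
      have hlp : 0 < l v := lt_of_le_of_ne (hl0 v hv) (Ne.symm hlne)
      have hvn : v ∉ (Fpart Z F').support := by
        rw [hemp]
        exact Finset.notMem_empty _
      rw [hpart] at hvn
      push Not at hvn
      obtain ⟨z, hz, hzv⟩ := hvn hv
      have h1 : 0 < z ⬝ᵥ v := lt_of_le_of_ne (hF z (hZH z hz) v hv) (Ne.symm hzv)
      have h2 : rdot z x = ∑ v ∈ F'.support, l v * ((z ⬝ᵥ v : ℤ) : ℝ) := by
        unfold rdot
        simp only [← hl, Finset.mul_sum]
        rw [Finset.sum_comm]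
        refine Finset.sum_congr rfl fun v _ => ?_
        unfold dotProduct
        push_cast
        rw [Finset.mul_sum]
        exact Finset.sum_congr rfl fun i _ => by ring
      have h3 : 0 < rdot z x := by
        rw [h2]
        refine Finset.sum_pos' (fun v' hv' => mul_nonneg (hl0 v' hv') ?_) ⟨v, hv, mul_pos hlp ?_⟩
        · exact_mod_cast hF z (hZH z hz) v' hv'
        · exact_mod_cast h1
      rw [hxZ z hz] at h3
      exact lt_irrefl _ h3
    have hx : ∀ j, x j = 0 := by
      intro j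
      rw [← hl j]
      exact Finset.sum_eq_zero fun v hv => by rw [hlv v hv, zero_mul]
    obtain ⟨h, hh⟩ := hZ
    apply hh
    -- all coordinate forms are in the span
    have hall' : ∀ j, InSpan Z (ee j) := by
      intro j
      by_contra hj
      have := hxH (ee j) (hee j) hj
      rw [rdot_ee, hx j] at this
      exact lt_irrefl _ this
    have h1 : vec ℚ h = ∑ j, (h j : ℚ) • vec ℚ (ee j) := by
      funext i
      rw [Finset.sum_apply, Finset.sum_eq_single i]
      · simp [vec, ee]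
      · intro j _ hj
        simp [vec, ee, Ne.symm hj]
      · intro hi
        exact absurd (Finset.mem_univ i) hi
    show vec ℚ h ∈ _
    rw [h1]
    exact Submodule.sum_mem _ fun j _ => Submodule.smul_mem _ _ (hall' j)
  refine unitOn_of_cert Z _ (fun v hv => ((hpart v).1 hv).2)
    (ndl_cert _ (fun v hv => hnn v ((hpart v).1 hv).1) fun u hu => ?_)
  by_contra hno
  push Not at hno
  obtain ⟨S, hS⟩ : ∃ S, S = (Fpart Z F').support := ⟨_, rfl⟩
  obtain ⟨c, hc⟩ : ∃ c : (Fin (n + 1) → ℤ) → ℂ, c = fun v => Fpart Z F' v := ⟨_, rfl⟩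
  obtain ⟨q, hq⟩ : ∃ q : (Fin (n + 1) → ℤ) → ℂ, q = fun v => ∏ j, u j ^ (v j).toNat := ⟨_, rfl⟩
  have hno' : ∀ i, ∑ v ∈ S, ((v i : ℤ) : ℂ) * c v * q v = 0 := by
    intro i
    rw [hS, hc, hq]
    exact hno i
  have hq0 : ∀ v, q v ≠ 0 := by
    intro v
    rw [hq]
    exact Finset.prod_ne_zero_iff.2 fun j _ => pow_ne_zero _ (hu j)
  have hSmem : ∀ v ∈ S, v ∈ F'.support := fun v hv => ((hpart v).1 (hS ▸ hv)).1
  have hcv : ∀ v ∈ S, c v = Cay2 (Fc f) M g v := by
    intro v hv
    rw [hc]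
    exact hpv v (hS ▸ hv)
  by_cases h3 : ∃ j, c1 ((M j : ℤ) • ee j) ∈ S
  · -- a derivation
    obtain ⟨j, hj⟩ := h3
    obtain ⟨-, D, hD0, hDj, hDi⟩ := hgen j
    have heul : ∑ v ∈ S, c v * q v = 0 := by
      have h1 : ((2 * κ.2 : ℤ) : ℂ) * ∑ v ∈ S, c v * q v =
          ∑ i, ((cw2 κ).1 i : ℂ) * ∑ v ∈ S, ((v i : ℤ) : ℂ) * c v * q v := by
        simp only [Finset.mul_sum]
        rw [Finset.sum_comm]
        refine Finset.sum_congr rfl fun v hv => ?_
        have h2 : ((2 * κ.2 : ℤ) : ℂ) = ∑ i, ((cw2 κ).1 i : ℂ) * ((v i : ℤ) : ℂ) := by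
          rw [← hlev v (hSmem v hv)]
          unfold dotProduct
          push_cast
          rfl
        rw [h2, Finset.sum_mul]
        exact Finset.sum_congr rfl fun i _ => by ring
      have h2 : ((2 * κ.2 : ℤ) : ℂ) * ∑ v ∈ S, c v * q v = 0 := by
        rw [h1]
        exact Finset.sum_eq_zero fun i _ => by rw [hno' i, mul_zero]
      exact (mul_eq_zero.1 h2).resolve_left (by
        have : (2 * κ.2 : ℤ) ≠ 0 := by omega
        exact_mod_cast this)
    have hder : ∑ v ∈ S, (D (c v) * q v + c v * D (q v)) = 0 := by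
      have h1 : D (∑ v ∈ S, c v * q v) = 0 := by rw [heul, map_zero]
      rw [map_sum] at h1
      rw [← h1]
      refine Finset.sum_congr rfl fun v _ => ?_
      rw [Derivation.leibniz]
      simp only [smul_eq_mul]
      ring
    have hsec : ∑ v ∈ S, c v * D (q v) = 0 := by
      have h1 : ∑ v ∈ S, c v * D (q v) =
          ∑ i, (D (u i) / u i) * ∑ v ∈ S, ((v i : ℤ) : ℂ) * c v * q v := by
        simp only [Finset.mul_sum]
        rw [Finset.sum_comm]
        refine Finset.sum_congr rfl fun v hv => ?_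
        have h2 : D (q v) = q v * ∑ i, ((v i).toNat : ℂ) * (D (u i) / u i) := by
          rw [hq]
          exact ndl_der D u hu fun i => (v i).toNat
        rw [h2, Finset.mul_sum, Finset.mul_sum]
        refine Finset.sum_congr rfl fun i _ => ?_
        have h3 : (((v i).toNat : ℕ) : ℂ) = ((v i : ℤ) : ℂ) := by
          have h4 : (((v i).toNat : ℕ) : ℤ) = v i := Int.toNat_of_nonneg (hnn v (hSmem v hv) i)
          rw [← h4]
          push_cast
          rfl
        rw [h3]
        ring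
      rw [h1]
      exact Finset.sum_eq_zero fun i _ => by rw [hno' i, mul_zero]
    rw [Finset.sum_add_distrib, hsec, add_zero] at hder
    rw [Finset.sum_eq_single (c1 ((M j : ℤ) • ee j))] at hder
    · rw [hcv _ hj, ndl_c1 _ hM, hDj, one_mul] at hder
      exact hq0 _ hder
    · intro v hv hvne
      rw [hcv v hv]
      rcases (hmem v).1 (hSmem v hv) with ⟨v', hv', -, rfl⟩ | rfl | ⟨i, -, rfl⟩
      · rw [ndl_c0]
        obtain ⟨v'', hv'', rfl⟩ := mem_Fc_support.1 hv'
        have h : Fc f = toF f f.support := rfl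
        rw [h, toF_castv, if_pos hv'', hD0, zero_mul]
      · rw [ndl_cx2, Derivation.map_one_eq_zero, zero_mul]
      · rw [ndl_c1 _ hM, hDi i (fun h => hvne (by rw [h])), zero_mul]
    · intro h
      exact absurd hj h
  push Not at h3
  by_cases h2 : cx2 n ∈ S
  · -- only `x₀²`
    have h1 := hno' 0
    rw [Finset.sum_eq_single (cx2 n)] at h1
    · rw [hcv _ h2, ndl_cx2] at h1
      have h4 : ((cx2 n 0 : ℤ) : ℂ) = 2 := by simp [cx2]
      rw [h4, mul_one] at h1
      exact (mul_ne_zero two_ne_zero (hq0 _)) h1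
    · intro v hv hvne
      rcases (hmem v).1 (hSmem v hv) with ⟨v', -, -, rfl⟩ | rfl | ⟨i, -, rfl⟩
      · simp [c0]
      · exact absurd rfl hvne
      · exact absurd hv (h3 i)
    · intro h
      exact absurd h2 h
  -- only exponents of `f`
  have hSc0 : ∀ v ∈ S, ∃ v' ∈ f.support, κ.1 ⬝ᵥ castv v' = κ.2 ∧ v = c0 (castv v') := by
    intro v hv
    rcases (hmem v).1 (hSmem v hv) with ⟨v', hv', hκv, rfl⟩ | rfl | ⟨i, -, rfl⟩
    · obtain ⟨v'', hv'', rfl⟩ := mem_Fc_support.1 hv'
      exact ⟨v'', hv'', hκv, rfl⟩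
    · exact absurd hv h2
    · exact absurd hv (h3 i)
  let a : Fin n → ℕ := fun j => (κ.1 j).toNat
  let N : ℕ := κ.2.toNat
  have hN : ((N : ℕ) : ℤ) = κ.2 := Int.toNat_of_nonneg hκ2.le
  have ha : ∀ j, 0 < a j := by
    intro j
    have h4 := hκ1 j
    show 0 < (κ.1 j).toNat
    omega
  have hwt : ∀ v : Fin n →₀ ℕ, κ.1 ⬝ᵥ castv v = (MPb07157.wt a v : ℤ) := by
    intro v
    unfold MPb07157.wt castv dotProduct
    push_cast
    refine Finset.sum_congr rfl fun j _ => ?_
    have h4 : ((a j : ℕ) : ℤ) = κ.1 j := Int.toNat_of_nonneg (hκ1 j).le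
    rw [h4]
  have hmin : ∀ v ∈ f.support, N ≤ MPb07157.wt a v := by
    intro v hv
    have h4 := hκle (castv v) (mem_Fc_support.2 ⟨v, hv, rfl⟩)
    rw [hwt, ← hN] at h4
    exact_mod_cast h4
  obtain ⟨v₁, hv₁⟩ : S.Nonempty := hS ▸ hne
  obtain ⟨v₀, hv₀, hκv₀, hv₁e⟩ := hSc0 v₁ hv₁
  have hv₀N : MPb07157.wt a v₀ = N := by
    rw [hwt, ← hN] at hκv₀
    exact_mod_cast hκv₀
  have hnuf : MPb07157.nuf f a = N := by
    refine le_antisymm (hv₀N ▸ Nat.sInf_le ⟨v₀, hv₀, rfl⟩) ?_
    refine le_csInf ⟨_, v₀, hv₀, rfl⟩ ?_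
    rintro _ ⟨v, hv, rfl⟩
    exact hmin v hv
  have hNpos : 0 < N := by
    have : (0 : ℤ) < (N : ℤ) := by rw [hN]; exact hκ2
    exact_mod_cast this
  -- the form of the face
  let ω : Fin n → ℤ := Fin.tail Z.sum
  have hω : ∀ v : Fin n →₀ ℕ, MPb07157F.zd ω v = (Z.map fun z => z ⬝ᵥ c0 (castv v)).sum := by
    intro v
    have h4 : ∀ L : List (Fin (n + 1) → ℤ),
        L.sum ⬝ᵥ c0 (castv v) = (L.map fun z => z ⬝ᵥ c0 (castv v)).sum := by
      intro L
      induction L with
      | nil => simp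
      | cons z L ih => rw [List.sum_cons, add_dotProduct, ih, List.map_cons, List.sum_cons]
    rw [← h4]
    simp only [MPb07157F.zd, ω, c0, dotProduct, Fin.sum_univ_succ, Fin.cons_zero, mul_zero,
      zero_add, Fin.cons_succ, Fin.tail]
    rfl
  have hface : ∀ v, v ∈ MPb07157.face f a N ↔ v ∈ f.support ∧ κ.1 ⬝ᵥ castv v = κ.2 := by
    intro v
    unfold MPb07157.face
    rw [Finset.mem_filter, hwt, ← hN]
    constructor
    · rintro ⟨h5, h6⟩
      exact ⟨h5, by exact_mod_cast h6⟩
    · rintro ⟨h5, h6⟩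
      exact ⟨h5, by exact_mod_cast h6⟩
  have hfF : ∀ v ∈ MPb07157.face f a N, c0 (castv v) ∈ F'.support := by
    intro v hv
    rw [hface] at hv
    exact (hmem _).2 (Or.inl ⟨castv v, mem_Fc_support.2 ⟨v, hv.1, rfl⟩, hv.2, rfl⟩)
  have hωnn : ∀ v ∈ MPb07157.face f a N, 0 ≤ MPb07157F.zd ω v := by
    intro v hv
    rw [hω]
    refine List.sum_nonneg ?_
    intro y hy
    obtain ⟨z, hz, rfl⟩ := List.mem_map.1 hy
    exact hF z (hZH z hz) _ (hfF v hv)
  have hωz : ∀ v ∈ MPb07157.face f a N, MPb07157F.zd ω v = 0 ↔ c0 (castv v) ∈ S := by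
    intro v hv
    rw [hS, hpart]
    constructor
    · intro h4
      refine ⟨hfF v hv, fun z hz => ?_⟩
      rw [hω] at h4
      have h5 : 0 ≤ z ⬝ᵥ c0 (castv v) := hF z (hZH z hz) _ (hfF v hv)
      have h6 : z ⬝ᵥ c0 (castv v) ≤ (Z.map fun z => z ⬝ᵥ c0 (castv v)).sum := by
        refine List.single_le_sum ?_ _ (List.mem_map_of_mem hz)
        intro y hy
        obtain ⟨z', hz', rfl⟩ := List.mem_map.1 hy
        exact hF z' (hZH z' hz') _ (hfF v hv)
      omega
    · rintro ⟨-, h4⟩
      rw [hω]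
      refine List.sum_eq_zero ?_
      intro y hy
      obtain ⟨z, hz, rfl⟩ := List.mem_map.1 hy
      exact h4 z hz
  have hv₀f : v₀ ∈ MPb07157.face f a N := (hface v₀).2 ⟨hv₀, hκv₀⟩
  have hI : ∀ v, v ∈ MPb07157F.fc (MPb07157.face f a N) ω ↔ c0 (castv v) ∈ S := by
    intro v
    unfold MPb07157F.fc
    rw [Finset.mem_filter]
    constructor
    · rintro ⟨hv, h4⟩
      rw [← hωz v hv]
      refine le_antisymm ?_ (hωnn v hv)
      have h5 := h4 v₀ hv₀f
      rwa [(hωz v₀ hv₀f).2 (hv₁e ▸ hv₁)] at h5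
    · intro hv
      obtain ⟨v', hv', hκv', e⟩ := hSc0 _ hv
      have h4 : v = v' := castv_injective (c0_injective e)
      subst h4
      have h5 : v ∈ MPb07157.face f a N := (hface v).2 ⟨hv', hκv'⟩
      refine ⟨h5, fun v'' hv'' => ?_⟩
      rw [(hωz v h5).2 hv]
      exact hωnn v'' hv''
  have hndI : MPb07157.NondegAt f (MPb07157F.fc (MPb07157.face f a N) ω) := by
    have h4 := hnd a ha ω
    rwa [hnuf] at h4
  obtain ⟨i, hi⟩ := ndl_torus f _ hndI κ.1 κ.2 hκ2.ne' (fun v hv => by
    have h4 : v ∈ MPb07157.face f a N := (Finset.mem_filter.1 hv).1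
    exact ((hface v).1 h4).2) (Fin.tail u) fun j => hu j.succ
  apply hi
  rw [← hno' i.succ]
  have hSI : S = (MPb07157F.fc (MPb07157.face f a N) ω).image fun v => c0 (castv v) := by
    ext v
    rw [Finset.mem_image]
    constructor
    · intro hv
      obtain ⟨v', -, -, rfl⟩ := hSc0 v hv
      exact ⟨v', (hI v').2 hv, rfl⟩
    · rintro ⟨v', hv', rfl⟩
      exact (hI v').1 hv'
  have hinj : ∀ v ∈ MPb07157F.fc (MPb07157.face f a N) ω,
      ∀ v' ∈ MPb07157F.fc (MPb07157.face f a N) ω, c0 (castv v) = c0 (castv v') → v = v' :=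
    fun v _ v' _ h => castv_injective (c0_injective h)
  rw [hSI, Finset.sum_image hinj]
  refine Finset.sum_congr rfl fun v hv => ?_
  have hvS : c0 (castv v) ∈ S := (hI v).1 hv
  rw [hcv _ hvS, ndl_c0]
  have h5 : v ∈ f.support := ((hface v).1 (Finset.mem_filter.1 hv).1).1
  have h6 : Fc f (castv v) = MvPolynomial.coeff v f := by
    have h : Fc f = toF f f.support := rfl
    rw [h, toF_castv, if_pos h5]
  rw [h6, hq]
  simp only [Fin.prod_univ_succ]
  simp [c0, castv, Fin.tail]

end MPb07157T
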