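import Pool.Agent.Lib.MP_b07157_agZ.A1
import Pool.Agent.Lib.MP_b07157_agN.RootA
import Pool.Agent.Lib.MP_b07157_agNL.OutL

/-!
# The monomials of degree `-1`, local version
-/

noncomputable section

namespace MPb07157T

open Finset Matrix

variable {n : ℕ}

theorem cay2_neg (F : (Fin n → ℤ) →₀ ℂ) (M : Fin n → ℕ) (g : Fin n → ℂ) (v : Fin (n + 1) → ℤ)
    (hv : v 0 < 0) : Cay2 F M g v = 0 := by
  apply Cay2_other
  · rintro u rfl
    simp [c0] at hv
  · rintro rfl
    simp [cx2] at hv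
  · rintro j rfl
    simp [c1] at hv

theorem fs_cay2_c0 (F : (Fin n → ℤ) →₀ ℂ) (M : Fin n → ℕ) (g : Fin n → ℂ)
    (κ : (Fin n → ℤ) × ℤ) (v : Fin n → ℤ) :
    Fs (cw2 κ) (Cay2 F M g) (c0 v) = Fs κ F v := by
  classical
  unfold Fs
  rw [Finsupp.filter_apply, Finsupp.filter_apply, cw2_dot_c0, Cay2_c0]
  have h : (2 * κ.1 ⬝ᵥ v = (cw2 κ).2) ↔ κ.1 ⬝ᵥ v = κ.2 := by
    have : (cw2 κ).2 = 2 * κ.2 := rfl
    rw [this]
    constructor
    · intro h
      omega
    · intro h
      rw [h]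
  by_cases h' : κ.1 ⬝ᵥ v = κ.2
  · rw [if_pos (h.2 h'), if_pos h']
  · rw [if_neg fun h'' => h' (h.1 h''), if_neg h']

theorem fs_cay2_neg (F : (Fin n → ℤ) →₀ ℂ) (M : Fin n → ℕ) (g : Fin n → ℂ)
    (κ : (Fin n → ℤ) × ℤ) (v : Fin (n + 1) → ℤ) (hv : v 0 < 0) :
    Fs (cw2 κ) (Cay2 F M g) v = 0 := by
  classical
  unfold Fs
  rw [Finsupp.filter_apply, cay2_neg F M g v hv, ite_self]

/-- The part of degree `-Nk` for the weight `k` of the multipliers of a unit relation. -/
theorem proj_deg {F : (Fin n → ℤ) →₀ ℂ} {k : Fin n → ℤ} {Nk : ℤ}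
    (hk : ∀ v ∈ F.support, k ⬝ᵥ v = Nk) {u : Fin n → LP ℂ n} (h1 : ∑ j, u j * thF F j = 1) :
    ∃ u' : Fin n → LP ℂ n, ∑ j, u' j * thF F j = 1 ∧
      ∀ j, ∀ m ∈ (u' j).coeff.support, m ∈ (u j).coeff.support ∧ k ⬝ᵥ m = -Nk := by
  classical
  refine ⟨fun j => AddMonoidAlgebra.ofCoeff ((u j).coeff.filter fun m => k ⬝ᵥ m = -Nk), ?_, ?_⟩
  · ext m
    have h3 := congrArg (fun x => x.coeff m) h1
    simp only [AddMonoidAlgebra.coeff_sum, Finsupp.finsetSum_apply, coeff_mul_thF] at h3 ⊢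
    by_cases hm : k ⬝ᵥ m = 0
    · rw [← h3]
      refine Finset.sum_congr rfl fun j _ => ?_
      have e1 : (AddMonoidAlgebra.ofCoeff ((u j).coeff.filter fun m => k ⬝ᵥ m = -Nk) :
          LP ℂ n).coeff.support ⊆ (u j).coeff.support := by
        intro v hv
        have hv' : v ∈ ((u j).coeff.filter fun m => k ⬝ᵥ m = -Nk).support := hv
        rw [Finsupp.support_filter, Finset.mem_filter] at hv'
        exact hv'.1
      rw [Finset.sum_subset e1]
      · refine Finset.sum_congr rfl fun v _ => ?_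
        have e2 : (AddMonoidAlgebra.ofCoeff ((u j).coeff.filter fun m => k ⬝ᵥ m = -Nk) :
            LP ℂ n).coeff v = if k ⬝ᵥ v = -Nk then (u j).coeff v else 0 := by
          show ((u j).coeff.filter fun m => k ⬝ᵥ m = -Nk) v = _
          rw [Finsupp.filter_apply]
        rw [e2]
        by_cases hv : k ⬝ᵥ v = -Nk
        · rw [if_pos hv]
        · have e3 : F (m - v) = 0 := by
            by_contra hne
            apply hv
            have h4 := hk _ (Finsupp.mem_support_iff.2 hne)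
            rw [dotProduct_sub, hm] at h4
            linarith
          rw [e3, mul_zero, mul_zero]
      · intro v _ hv
        rw [Finsupp.notMem_support_iff] at hv
        rw [hv, zero_mul, zero_mul]
    · have e0 : ∀ j : Fin n, ∑ v ∈ (AddMonoidAlgebra.ofCoeff ((u j).coeff.filter
          fun m => k ⬝ᵥ m = -Nk) : LP ℂ n).coeff.support,
          (AddMonoidAlgebra.ofCoeff ((u j).coeff.filter fun m => k ⬝ᵥ m = -Nk) :
            LP ℂ n).coeff v * (((m - v) j : ℤ) : ℂ) * F (m - v) = 0 := by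
        intro j
        refine Finset.sum_eq_zero fun v hv => ?_
        have hv' : v ∈ ((u j).coeff.filter fun m => k ⬝ᵥ m = -Nk).support := hv
        rw [Finsupp.support_filter, Finset.mem_filter] at hv'
        have e3 : F (m - v) = 0 := by
          by_contra hne
          apply hm
          have h4 := hk _ (Finsupp.mem_support_iff.2 hne)
          rw [dotProduct_sub, hv'.2] at h4
          linarith
        rw [e3, mul_zero]
      rw [Finset.sum_congr rfl fun j _ => e0 j, Finset.sum_const_zero, AddMonoidAlgebra.one_def,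
        AddMonoidAlgebra.coeff_single, Finsupp.single_apply, if_neg]
      rintro rfl
      exact hm (dotProduct_zero k)
  · intro j m hm
    have hm' : m ∈ ((u j).coeff.filter fun m => k ⬝ᵥ m = -Nk).support := hm
    rw [Finsupp.support_filter, Finset.mem_filter] at hm'
    exact hm'

/-- The part of degree zero in the new variable (as `proj_unit` in `RootA.lean`). -/
theorem proj_hexL {F : (Fin n → ℤ) →₀ ℂ} {M : Fin n → ℕ} {g : Fin n → ℂ}
    {κ : (Fin n → ℤ) × ℤ}
    {u : Fin (n + 1) → LP ℂ (n + 1)} (h1 : ∑ l, u l * thF (Fs (cw2 κ) (Cay2 F M g)) l = 1)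
    (h2 : ∀ l, ∀ m ∈ (u l).coeff.support, 0 ≤ m 0) :
    ∃ u' : Fin n → LP ℂ n, ∑ j, u' j * thF (Fs κ F) j = 1 ∧
      ∀ j, ∀ m ∈ (u' j).coeff.support, c0 m ∈ (u j.succ).coeff.support := by
  classical
  refine ⟨fun j => AddMonoidAlgebra.ofCoeff ((u j.succ).coeff.comapDomain c0
    c0_injective.injOn), ?_, ?_⟩
  · ext m
    have h3 := congrArg (fun x => x.coeff (c0 m)) h1
    simp only [AddMonoidAlgebra.coeff_sum, Finsupp.finsetSum_apply, coeff_mul_thF] at h3 ⊢
    rw [Fin.sum_univ_succ] at h3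
    have key : ∀ l : Fin (n + 1), ∑ v ∈ (u l).coeff.support, (u l).coeff v *
        (((c0 m - v) l : ℤ) : ℂ) * Fs (cw2 κ) (Cay2 F M g) (c0 m - v) =
        ∑ v ∈ ((u l).coeff.comapDomain c0 c0_injective.injOn).support,
          (u l).coeff (c0 v) * (((c0 (m - v)) l : ℤ) : ℂ) * Fs κ F (m - v) := by
      intro l
      have e1 : ∀ v : Fin n → ℤ,
          (u l).coeff (c0 v) * (((c0 (m - v)) l : ℤ) : ℂ) * Fs κ F (m - v) =
          (fun v => (u l).coeff v * (((c0 m - v) l : ℤ) : ℂ) *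
            Fs (cw2 κ) (Cay2 F M g) (c0 m - v)) (c0 v) := by
        intro v
        simp only [c0_sub, fs_cay2_c0]
      rw [Finset.sum_congr rfl fun v _ => e1 v,
        ← Finset.sum_image (s := ((u l).coeff.comapDomain c0 c0_injective.injOn).support)
          (g := c0) (f := fun v => (u l).coeff v * (((c0 m - v) l : ℤ) : ℂ) *
            Fs (cw2 κ) (Cay2 F M g) (c0 m - v)) (fun _ _ _ _ h => c0_injective h)]
      symm
      refine Finset.sum_subset ?_ ?_
      · intro v hv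
        obtain ⟨w, hw, rfl⟩ := Finset.mem_image.1 hv
        rw [Finsupp.mem_support_iff, Finsupp.comapDomain_apply] at hw
        exact Finsupp.mem_support_iff.2 hw
      · intro v hv hv'
        have h4 := h2 l v hv
        have h5 : v 0 ≠ 0 := by
          intro h5
          apply hv'
          rw [eq_c0 h5]
          refine Finset.mem_image_of_mem _ ?_
          rw [Finsupp.mem_support_iff, Finsupp.comapDomain_apply, ← eq_c0 h5]
          exact Finsupp.mem_support_iff.1 hv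
        rw [fs_cay2_neg F M g κ (c0 m - v), mul_zero]
        show (c0 m) 0 - v 0 < 0
        have h6 : c0 m 0 = 0 := by simp [c0]
        omega
    have key0 : ∑ v ∈ (u 0).coeff.support, (u 0).coeff v *
        (((c0 m - v) 0 : ℤ) : ℂ) * Fs (cw2 κ) (Cay2 F M g) (c0 m - v) = 0 := by
      rw [key 0]
      refine Finset.sum_eq_zero fun v _ => ?_
      have h6 : c0 (m - v) 0 = 0 := by simp [c0]
      rw [h6, Int.cast_zero, mul_zero, zero_mul]
    rw [key0, zero_add] at h3
    have h7 : ∀ j : Fin n, ∑ v ∈ (AddMonoidAlgebra.ofCoeff ((u j.succ).coeff.comapDomain c0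
        c0_injective.injOn) : LP ℂ n).coeff.support,
        (AddMonoidAlgebra.ofCoeff ((u j.succ).coeff.comapDomain c0
          c0_injective.injOn) : LP ℂ n).coeff v * (((m - v) j : ℤ) : ℂ) * Fs κ F (m - v) =
        ∑ v ∈ (u j.succ).coeff.support, (u j.succ).coeff v *
        (((c0 m - v) j.succ : ℤ) : ℂ) * Fs (cw2 κ) (Cay2 F M g) (c0 m - v) := by
      intro j
      rw [key j.succ]
      refine Finset.sum_congr rfl fun v _ => ?_
      have h8 : c0 (m - v) j.succ = (m - v) j := by simp [c0]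
      rw [h8]
      rfl
    rw [Finset.sum_congr rfl fun j _ => h7 j, h3, AddMonoidAlgebra.one_def,
      AddMonoidAlgebra.one_def, AddMonoidAlgebra.coeff_single, AddMonoidAlgebra.coeff_single,
      Finsupp.single_apply, Finsupp.single_apply]
    have h9 : (0 : Fin (n + 1) → ℤ) = c0 m ↔ (0 : Fin n → ℤ) = m := by
      constructor
      · intro h
        funext j
        have := congrFun h j.succ
        simpa [c0] using this
      · rintro rfl
        funext i
        refine Fin.cases ?_ (fun j => ?_) i <;> simp [c0]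
    simp only [h9]
  · intro j m hm
    have h3 : m ∈ ((u j.succ).coeff.comapDomain c0 c0_injective.injOn).support := hm
    rw [Finsupp.mem_support_iff, Finsupp.comapDomain_apply] at h3
    exact Finsupp.mem_support_iff.2 h3

end MPb07157T

namespace MPb07157Z

open Finset Matrix MvPolynomial MPb07157 MPb07157T MPb07157F

variable {n : ℕ}

/-- As `ones_of_memC` (`Ones.lean`): the form `(w·x)/N - y·x` is nonnegative on the exponents of
the face (zero on `cx2 n` and on the `c1 (M_j e_j)` in the face, since `w j = y j = 0` there). -/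
theorem ones_of_memL {f : MvPolynomial (Fin n) ℂ} {M : Fin n → ℕ} {w' : Fin n → ℕ} {N' : ℕ}
    {w : Fin n → ℕ} {N : ℕ} (hD : DatL f M w' N' w N)
    {P : Finset (Fin n)} (hP : ∀ j, j ∈ P ↔ 0 < w j) (hM : ∀ j, 1 ≤ M j) {g : Fin n → ℂ}
    (hg0 : ∀ j, g j ≠ 0) {H : Finset (Fin (n + 1) → ℤ)} (hee : ∀ l, ee l ∈ H)
    (hcone : ∀ x : Fin (n + 1) → ℝ, (∀ h ∈ H, 0 ≤ rdot h x) → ∃ l : (Fin (n + 1) → ℤ) → ℝ,
      (∀ v ∈ (Fs (cw2 (kof w' N')) (Cay2 (Fc f) M g)).support, 0 ≤ l v) ∧
      ∀ j, ∑ v ∈ (Fs (cw2 (kof w' N')) (Cay2 (Fc f) M g)).support, l v * (v j : ℝ) = x j)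
    {y : Fin n → ℚ} {a : Fin (n + 1) → ℚ} (hy0 : ∀ j, 0 ≤ y j) (hyP : ∀ j, j ∉ P → y j = 0)
    (hyv : ∀ v ∈ face f w' N', qd y v ≤ 1) (ha1 : ∀ j : Fin n, 0 < y j → a j.succ = 1)
    (hd : ∀ j, y j < 1 → (∑ i, (w i : ℚ) * a i.succ) / N - ∑ i, y i < 1 - y j)
    {m : Fin (n + 1) → ℤ} {l : Fin n} (hm1 : ∀ h ∈ H, -qf h a ≤ ((h ⬝ᵥ m : ℤ) : ℚ))
    (hm0 : m 0 = 0) (hmd : ∑ i : Fin n, (w i : ℤ) * m i.succ = -(N : ℤ))
    (hm4 : ∀ j : Fin n, 0 < y j → j ≠ l → 0 ≤ m j.succ) : 1 ≤ y l := by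
  classical
  have hN := hD.hN
  have hNq : (0 : ℚ) < N := by exact_mod_cast hN
  have hNr : (0 : ℝ) < N := by exact_mod_cast hN
  -- the point
  set x : Fin (n + 1) → ℝ := fun i => ((a i : ℚ) : ℝ) + (m i : ℝ) with hx
  have hxH : ∀ h ∈ H, 0 ≤ rdot h x := by
    intro h hh
    have h1 := hm1 h hh
    have h2 : rdot h x = ((qf h a + ((h ⬝ᵥ m : ℤ) : ℚ) : ℚ) : ℝ) := by
      unfold rdot qf dotProduct
      push_cast
      rw [← Finset.sum_add_distrib]
      exact Finset.sum_congr rfl fun i _ => by simp only [hx]; ring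
    rw [h2]
    have h3 : (0 : ℚ) ≤ qf h a + ((h ⬝ᵥ m : ℤ) : ℚ) := by linarith
    exact_mod_cast h3
  obtain ⟨L, hL0, hLx⟩ := hcone x hxH
  set S := (Fs (cw2 (kof w' N')) (Cay2 (Fc f) M g)).support with hS
  -- the form `(w·x)/N - y·x` is nonnegative on the exponents
  have hform : ∀ v ∈ S, 0 ≤ ∑ i : Fin n, ((w i : ℝ) / N - (y i : ℝ)) * (v i.succ : ℝ) := by
    intro v hv
    rcases (mem_cay2_support f hM hg0 v).1 hv with ⟨v', hv', hκ, rfl⟩ | rfl | ⟨j, hj, rfl⟩
    · obtain ⟨v₀, hv₀, rfl⟩ := mem_Fc_support.1 hv'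
      rw [kof_dot] at hκ
      have hwt' : wt w' v₀ = N' := by
        have h0 : (wt w' v₀ : ℤ) = (N' : ℤ) := hκ
        exact_mod_cast h0
      have hface : v₀ ∈ face f w' N' := Finset.mem_filter.2 ⟨hv₀, hwt'⟩
      have hwt : wt w v₀ = N := hD.lev v₀ hface
      have h1 := hyv v₀ hface
      have h2 : ∑ i : Fin n, ((w i : ℝ) / N - (y i : ℝ)) * ((MPb07157T.c0 (castv v₀) i.succ : ℤ) : ℝ) =
          (∑ i : Fin n, (w i : ℝ) * (v₀ i : ℝ)) / N - ((qd y v₀ : ℚ) : ℝ) := by
        unfold qd MPb07157T.c0 castv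
        push_cast
        rw [Finset.sum_div, ← Finset.sum_sub_distrib]
        refine Finset.sum_congr rfl fun i _ => ?_
        rw [Fin.cons_succ]
        push_cast
        ring
      have h3 : ∑ i : Fin n, (w i : ℝ) * (v₀ i : ℝ) = N := by
        rw [← hwt]
        unfold wt
        push_cast
        rfl
      rw [h2, h3, div_self hNr.ne']
      have h4 : ((qd y v₀ : ℚ) : ℝ) ≤ 1 := by exact_mod_cast h1
      linarith
    · refine (Finset.sum_eq_zero fun i _ => ?_).ge
      unfold MPb07157T.cx2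
      rw [Fin.cons_succ]
      simp
    · have hj' : 2 * M j * w' j = N' := by
        have h0 : 2 * (M j : ℤ) * ((w' j : ℕ) : ℤ) = ((N' : ℕ) : ℤ) := hj
        exact_mod_cast h0
      have hwj : w j = 0 := by
        by_contra hne
        have := hD.inn j (Nat.pos_of_ne_zero hne)
        omega
      have hyj : y j = 0 := hyP j fun h => by
        have := (hP j).1 h
        omega
      refine (Finset.sum_eq_zero fun i _ => ?_).ge
      unfold MPb07157T.c1
      rw [Fin.cons_succ]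
      by_cases hij : i = j
      · rw [hij, hwj, hyj]
        simp
      · unfold ee
        rw [Pi.smul_apply, Pi.single_eq_of_ne hij]
        simp
  have hΦ : 0 ≤ ∑ i : Fin n, ((w i : ℝ) / N - (y i : ℝ)) * x i.succ := by
    have h1 : ∑ i : Fin n, ((w i : ℝ) / N - (y i : ℝ)) * x i.succ =
        ∑ v ∈ S, L v * ∑ i : Fin n, ((w i : ℝ) / N - (y i : ℝ)) * (v i.succ : ℝ) := by
      simp only [← hLx, Finset.mul_sum]
      rw [Finset.sum_comm]
      exact Finset.sum_congr rfl fun v _ => Finset.sum_congr rfl fun i _ => by ring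
    rw [h1]
    exact Finset.sum_nonneg fun v hv => mul_nonneg (hL0 v hv) (hform v hv)
  -- the same over `ℚ`
  have hΦq : 0 ≤ ∑ i : Fin n, ((w i : ℚ) / N - y i) * (a i.succ + (m i.succ : ℚ)) := by
    have h1 : ((∑ i : Fin n, ((w i : ℚ) / N - y i) * (a i.succ + (m i.succ : ℚ)) : ℚ) : ℝ) =
        ∑ i : Fin n, ((w i : ℝ) / N - (y i : ℝ)) * x i.succ := by
      push_cast
      rfl
    have h2 : (0 : ℝ) ≤
        ((∑ i : Fin n, ((w i : ℚ) / N - y i) * (a i.succ + (m i.succ : ℚ)) : ℚ) : ℝ) := by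
      rw [h1]
      exact hΦ
    exact_mod_cast h2
  have hwm : ∑ i : Fin n, (w i : ℚ) * (m i.succ : ℚ) = -N := by
    have h2 : ((∑ i : Fin n, (w i : ℤ) * m i.succ : ℤ) : ℚ) = ((-(N : ℤ) : ℤ) : ℚ) := by rw [hmd]
    push_cast at h2
    exact h2
  have hexp : ∑ i : Fin n, ((w i : ℚ) / N - y i) * (a i.succ + (m i.succ : ℚ)) =
      (∑ i, (w i : ℚ) * a i.succ) / N - 1 - ∑ i, y i * a i.succ - ∑ i, y i * (m i.succ : ℚ) := by
    have h1 : (1 : ℚ) = -(∑ i : Fin n, (w i : ℚ) * (m i.succ : ℚ)) / N := by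
      rw [hwm, neg_neg, div_self hNq.ne']
    rw [h1, Finset.sum_div, ← Finset.sum_neg_distrib, Finset.sum_div, ← Finset.sum_sub_distrib,
      ← Finset.sum_sub_distrib, ← Finset.sum_sub_distrib]
    exact Finset.sum_congr rfl fun i _ => by ring
  have hya : ∑ i, y i * a i.succ = ∑ i, y i := by
    refine Finset.sum_congr rfl fun i _ => ?_
    rcases (hy0 i).eq_or_lt with h | h
    · rw [← h, zero_mul]
    · rw [ha1 i h, mul_one]
  have hym : -y l ≤ ∑ i, y i * (m i.succ : ℚ) := by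
    rw [← Finset.add_sum_erase _ _ (Finset.mem_univ l)]
    have h1 : 0 ≤ ∑ j ∈ Finset.univ.erase l, y j * (m j.succ : ℚ) := by
      refine Finset.sum_nonneg fun j hj => ?_
      rcases (hy0 j).eq_or_lt with h | h
      · rw [← h, zero_mul]
      · have h2 := hm4 j h (Finset.ne_of_mem_erase hj)
        exact mul_nonneg h.le (by exact_mod_cast h2)
    have h2 : -y l ≤ y l * (m l.succ : ℚ) := by
      rcases (hy0 l).eq_or_lt with h | h
      · rw [← h, zero_mul, neg_zero]
      · have h3 := hm1 _ (hee l.succ)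
        have h4 : qf (ee l.succ) a = a l.succ := by
          unfold qf ee
          rw [Finset.sum_eq_single l.succ]
          · rw [Pi.single_eq_same]
            simp
          · intro i _ hi
            rw [Pi.single_eq_of_ne hi]
            simp
          · intro h
            exact absurd (Finset.mem_univ _) h
        have h5 : ee l.succ ⬝ᵥ m = m l.succ := by
          unfold ee
          rw [single_one_dotProduct]
        rw [h4, h5, ha1 l h] at h3
        nlinarith
    linarith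
  by_contra hcon
  push Not at hcon
  have h1 := hd l hcon
  rw [hexp, hya] at hΦq
  linarith

/-- The part of degree zero in the new variable (as `proj_unit` in `RootA.lean`), and of degree
`-Nk` for the weight `k`. -/
theorem proj_unitL {F : (Fin n → ℤ) →₀ ℂ} {M : Fin n → ℕ} {g : Fin n → ℂ}
    {κ : (Fin n → ℤ) × ℤ} {k : Fin n → ℤ} {Nk : ℤ} (hk : ∀ v ∈ (Fs κ F).support, k ⬝ᵥ v = Nk)
    {u : Fin (n + 1) → LP ℂ (n + 1)} (h1 : ∑ l, u l * thF (Fs (cw2 κ) (Cay2 F M g)) l = 1)
    (h2 : ∀ l, ∀ m ∈ (u l).coeff.support, 0 ≤ m 0) :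
    ∃ u' : Fin n → LP ℂ n, ∑ j, u' j * thF (Fs κ F) j = 1 ∧
      ∀ j, ∀ m ∈ (u' j).coeff.support, c0 m ∈ (u j.succ).coeff.support ∧ k ⬝ᵥ m = -Nk := by
  classical
  obtain ⟨u₁, h3, h4⟩ := proj_hexL h1 h2
  obtain ⟨u', h5, h6⟩ := proj_deg hk h3
  exact ⟨u', h5, fun j m hm => ⟨h4 j m (h6 j m hm).1, (h6 j m hm).2⟩⟩

end MPb07157Z
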