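import Pool.Agent.Lib.MP_b07157_agZ.A1
import Pool.Agent.Lib.MP_b07157_agF.F3
import Pool.Agent.Lib.MP_b07157_agN.LP
import Pool.Agent.Lib.MP_b07157_agNL.OutL

/-!
# The choice of the point `a`, local version
-/

noncomputable section

namespace MPb07157Z

open Finset Matrix MvPolynomial MPb07157 MPb07157T MPb07157F

variable {n : ℕ}

private theorem ptl_qf_cons (h : Fin (n + 1) → ℤ) (x : ℚ) (u : Fin n → ℚ) :
    qf h (Fin.cons x u) = (h 0 : ℚ) * x + ∑ j, (h j.succ : ℚ) * u j := by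
  unfold qf
  rw [Fin.sum_univ_succ]
  simp only [Fin.cons_zero, Fin.cons_succ]

private theorem ptl_qf_lin (h : Fin (n + 1) → ℤ) (a b : Fin (n + 1) → ℚ) (s : ℚ) :
    qf h (fun i => (1 - s) * a i + s * b i) = qf h a + s * (qf h b - qf h a) := by
  unfold qf
  rw [← Finset.sum_sub_distrib, Finset.mul_sum, ← Finset.sum_add_distrib]
  exact Finset.sum_congr rfl fun i _ => by ring

private theorem ptl_nonneg {f : MvPolynomial (Fin n) ℂ} {κ : (Fin n → ℤ) × ℤ}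
    {G : Finset (Fin n →₀ ℕ)} (hG : ∀ v ∈ G, v ∈ f.support ∧ κ.1 ⬝ᵥ castv v = κ.2)
    {P : Finset (Fin n)} {M : Fin n → ℕ} (hM : ∀ j, 1 ≤ M j)
    (hP : ∀ j, j ∉ P → 2 * (M j : ℤ) * κ.1 j = κ.2)
    {g : Fin n → ℂ} (hg0 : ∀ j, g j ≠ 0) (h : Fin (n + 1) → ℤ)
    (hH : ∀ v ∈ (Fs (cw2 κ) (Cay2 (Fc f) M g)).support, 0 ≤ h ⬝ᵥ v) :
    (∀ v ∈ G, (0 : ℚ) ≤ ∑ j, (h j.succ : ℚ) * (v j : ℚ)) ∧ (0 : ℚ) ≤ h 0 ∧
      ∀ j, j ∉ P → (0 : ℚ) ≤ (h 0 : ℚ) + M j * h j.succ := by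
  have key := mem_cay2_support f hM hg0 (κ := κ)
  have hc1 : ∀ u : Fin n → ℤ, h ⬝ᵥ MPb07157T.c1 u = h 0 + ∑ j : Fin n, h j.succ * u j := by
    intro u
    unfold MPb07157T.c1 dotProduct
    rw [Fin.sum_univ_succ]
    simp only [Fin.cons_zero, Fin.cons_succ, mul_one]
  have hc0 : ∀ u : Fin n → ℤ, h ⬝ᵥ MPb07157T.c0 u = ∑ j : Fin n, h j.succ * u j := by
    intro u
    unfold MPb07157T.c0 dotProduct
    rw [Fin.sum_univ_succ]
    simp only [Fin.cons_zero, Fin.cons_succ, mul_zero, zero_add]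
  refine ⟨fun v hv => ?_, ?_, fun j hj => ?_⟩
  · obtain ⟨hv1, hv2⟩ := hG v hv
    have h1 := hH (MPb07157T.c0 (castv v)) ((key _).2 (Or.inl ⟨castv v,
      mem_Fc_support.2 ⟨v, hv1, rfl⟩, hv2, rfl⟩))
    rw [hc0] at h1
    have h2 : (0 : ℚ) ≤ ((∑ j, h j.succ * castv v j : ℤ) : ℚ) := by exact_mod_cast h1
    push_cast at h2
    exact h2
  · have h1 := hH (cx2 n) ((key _).2 (Or.inr (Or.inl rfl)))
    rw [cx2_dot] at h1
    have h2 : 0 ≤ h 0 := by linarith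
    exact_mod_cast h2
  · have h1 := hH (MPb07157T.c1 ((M j : ℤ) • ee j)) ((key _).2 (Or.inr (Or.inr ⟨j, hP j hj, rfl⟩)))
    rw [hc1] at h1
    have h2 : ∑ i, h i.succ * ((M j : ℤ) • ee j) i = M j * h j.succ := by
      rw [Finset.sum_eq_single j]
      · unfold ee
        simp
        ring
      · intro i _ hi
        unfold ee
        simp [Pi.single_eq_of_ne hi]
      · intro h3
        exact absurd (Finset.mem_univ j) h3
    rw [h2] at h1
    exact_mod_cast h1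

/-- The point `a` of the cone.

Proof.  `a⁰ = ∑ α_v c0 v + (1/8) cx2 + ∑_{j ∉ P} (1/M_j) c1 (M_j ee j)`: `a⁰ 0 < 1`,
`a⁰ j.succ ≥ 1`, `= 1` if `y j > 0`, and `(∑ w_j a⁰_j) / N = ∑ α_v`.  `h(a⁰) ≥ 0` for `h ∈ H`, with
equality only if `h` vanishes on all these exponents; then `h (bq n t) = 0`, since
`bq n t = ∑ γ_v c0 v + ∑_{j ∉ P} ((1 - c_j) / M_j) c1 (M_j ee j) + (...) cx2`, `c_j = ∑ γ_v v_j`.
`a = (1 - ε) a⁰ + ε bq n t` for a small `ε > 0`. -/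
theorem exists_aC2g {f : MvPolynomial (Fin n) ℂ} {κ : (Fin n → ℤ) × ℤ}
    {G : Finset (Fin n →₀ ℕ)} (hG : ∀ v ∈ G, v ∈ f.support ∧ κ.1 ⬝ᵥ castv v = κ.2)
    {P : Finset (Fin n)} {M : Fin n → ℕ} (hM : ∀ j, 2 * n + 2 ≤ M j)
    (hP : ∀ j, j ∉ P → 2 * (M j : ℤ) * κ.1 j = κ.2)
    {w : Fin n → ℕ} {N : ℕ} (hN : 0 < N) (hwG : ∀ v ∈ G, wt w v = N) (hwP : ∀ j, j ∉ P → w j = 0)
    {ρ : Finset (Fin n →₀ ℕ)} {γ : (Fin n →₀ ℕ) → ℚ} (hg : GoodP P G ρ γ)
    {g : Fin n → ℂ} (hg0 : ∀ j, g j ≠ 0) (t : ℚ) (H : Finset (Fin (n + 1) → ℤ))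
    (hH : ∀ h ∈ H, ∀ v ∈ (Fs (cw2 κ) (Cay2 (Fc f) M g)).support, 0 ≤ h ⬝ᵥ v)
    {y : Fin n → ℚ} {α : (Fin n →₀ ℕ) → ℚ} (hα : ∀ v ∈ G, 0 < α v)
    (ha1 : ∀ j ∈ P, 1 ≤ ∑ v ∈ G, α v * (v j : ℚ))
    (hay : ∀ j, 0 < y j → ∑ v ∈ G, α v * (v j : ℚ) = 1)
    (hyP : ∀ j, j ∉ P → y j = 0)
    (hd2 : ∀ j, y j < 1 → ∑ v ∈ G, α v - ∑ j, y j < 1 - y j) :
    ∃ a : Fin (n + 1) → ℚ, (∀ j : Fin n, 1 ≤ a j.succ) ∧
      (∀ j : Fin n, 0 < y j → a j.succ = 1) ∧ 0 < a 0 ∧ a 0 < 1 ∧ (∀ h ∈ H, 0 ≤ qf h a) ∧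
      (∀ h ∈ H, qf h a = qf h (bq n t) ∨ ∀ z : ℤ, qf h a ≠ z) ∧
      ∀ j, y j < 1 → (∑ i, (w i : ℚ) * a i.succ) / N - ∑ i, y i < 1 - y j := by
  classical
  have hM1 : ∀ j, 1 ≤ M j := fun j => by
    have := hM j
    omega
  have hMq : ∀ j, (0 : ℚ) < M j := fun j => by exact_mod_cast hM1 j
  have hNq : (0 : ℚ) < N := by exact_mod_cast hN
  have hnn := fun h (hh : h ∈ H) => ptl_nonneg hG hM1 hP hg0 h (hH h hh)
  -- the point `a⁰`
  set q0 : ℚ := 1 / 4 + ∑ j, (if j ∈ P then 0 else 1 / (M j : ℚ)) with hq0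
  set u0 : Fin n → ℚ := fun j => ∑ v ∈ G, α v * (v j : ℚ) + if j ∈ P then 0 else 1 with hu0
  have hM0 : ∀ j, (0 : ℚ) ≤ 1 / (M j : ℚ) := fun j => by
    have := hMq j
    positivity
  have hq0pos : 0 < q0 := by
    have : 0 ≤ ∑ j, (if j ∈ P then 0 else 1 / (M j : ℚ)) :=
      Finset.sum_nonneg fun j _ => by split_ifs <;> [exact le_rfl; exact hM0 j]
    linarith
  have hq0lt : q0 < 1 := by
    have h1 : ∑ j, (if j ∈ P then 0 else 1 / (M j : ℚ)) ≤ ∑ _j : Fin n, 1 / (2 * n + 2 : ℚ) := by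
      refine Finset.sum_le_sum fun j _ => ?_
      split_ifs
      · positivity
      · refine one_div_le_one_div_of_le (by positivity) ?_
        have : ((2 * n + 2 : ℕ) : ℚ) ≤ M j := by exact_mod_cast hM j
        push_cast at this
        exact this
    have h2 : ∑ _j : Fin n, 1 / (2 * n + 2 : ℚ) = n / (2 * n + 2) := by
      rw [Finset.sum_const, Finset.card_univ, Fintype.card_fin, nsmul_eq_mul]
      ring
    have h3 : (n : ℚ) / (2 * n + 2) ≤ 1 / 2 := by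
      rw [div_le_div_iff₀ (by positivity) (by norm_num)]
      linarith
    linarith
  have hαv : ∀ j, 0 ≤ ∑ v ∈ G, α v * (v j : ℚ) := fun j =>
    Finset.sum_nonneg fun v hv => mul_nonneg (hα v hv).le (Nat.cast_nonneg _)
  have hu1 : ∀ j, 1 ≤ u0 j := by
    intro j
    simp only [hu0]
    split_ifs with hj
    · have := ha1 j hj
      linarith
    · have := hαv j
      linarith
  have huy : ∀ j, 0 < y j → u0 j = 1 := by
    intro j hj
    have hjP : j ∈ P := by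
      by_contra h1
      rw [hyP j h1] at hj
      exact lt_irrefl _ hj
    simp only [hu0]
    rw [if_pos hjP, hay j hj, add_zero]
  have hwsum : ∑ i, (w i : ℚ) * u0 i = N * ∑ v ∈ G, α v := by
    have h1 : ∀ i, (w i : ℚ) * u0 i = ∑ v ∈ G, α v * ((w i : ℚ) * (v i : ℚ)) := by
      intro i
      simp only [hu0]
      have h2 : (w i : ℚ) * (if i ∈ P then (0 : ℚ) else 1) = 0 := by
        split_ifs with hi
        · rw [mul_zero]
        · rw [hwP i hi, Nat.cast_zero, zero_mul]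
      rw [mul_add, h2, add_zero, Finset.mul_sum]
      exact Finset.sum_congr rfl fun v _ => by ring
    rw [Finset.sum_congr rfl fun i _ => h1 i, Finset.sum_comm, Finset.mul_sum]
    refine Finset.sum_congr rfl fun v hv => ?_
    rw [← Finset.mul_sum]
    have h3 : ∑ i, (w i : ℚ) * (v i : ℚ) = N := by
      have h4 := hwG v hv
      unfold wt at h4
      have h5 : ((∑ j, w j * v j : ℕ) : ℚ) = N := by rw [h4]
      push_cast at h5
      exact h5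
    rw [h3]
    ring
  -- the values of the forms
  have hqa : ∀ h : Fin (n + 1) → ℤ, qf h (Fin.cons q0 u0) =
      ∑ v ∈ G, α v * (∑ j, (h j.succ : ℚ) * (v j : ℚ)) + (1 / 4) * h 0 +
        ∑ j, (if j ∈ P then 0 else (1 / (M j : ℚ)) * ((h 0 : ℚ) + M j * h j.succ)) := by
    intro h
    rw [ptl_qf_cons]
    have e1 : ∑ j, (h j.succ : ℚ) * u0 j = ∑ v ∈ G, α v * (∑ j, (h j.succ : ℚ) * (v j : ℚ)) +
        ∑ j, (h j.succ : ℚ) * (if j ∈ P then 0 else 1) := by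
      simp only [hu0, mul_add, Finset.sum_add_distrib]
      congr 1
      simp only [Finset.mul_sum]
      rw [Finset.sum_comm]
      exact Finset.sum_congr rfl fun v _ => Finset.sum_congr rfl fun j _ => by ring
    have e2 : ∑ j, (if j ∈ P then 0 else (1 / (M j : ℚ)) * ((h 0 : ℚ) + M j * h j.succ)) =
        (h 0 : ℚ) * ∑ j, (if j ∈ P then 0 else 1 / (M j : ℚ)) +
          ∑ j, (h j.succ : ℚ) * (if j ∈ P then 0 else 1) := by
      rw [Finset.mul_sum, ← Finset.sum_add_distrib]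
      refine Finset.sum_congr rfl fun j _ => ?_
      have := hMq j
      split_ifs
      · ring
      · field_simp
    rw [e1, e2, hq0]
    ring
  have hqb : ∀ h : Fin (n + 1) → ℤ, qf h (bq n t) =
      (h 0 : ℚ) * (-t) + ∑ j : Fin n, (h j.succ : ℚ) := by
    intro h
    unfold bq
    rw [ptl_qf_cons]
    simp only [mul_one]
  have hterms : ∀ h ∈ H, 0 ≤ ∑ v ∈ G, α v * (∑ j, (h j.succ : ℚ) * (v j : ℚ)) ∧
      0 ≤ ∑ j, (if j ∈ P then 0 else (1 / (M j : ℚ)) * ((h 0 : ℚ) + M j * h j.succ)) := by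
    intro h hh
    obtain ⟨b1, b2, b3⟩ := hnn h hh
    refine ⟨Finset.sum_nonneg fun v hv => mul_nonneg (hα v hv).le (b1 v hv),
      Finset.sum_nonneg fun j _ => ?_⟩
    split_ifs with hj
    · exact le_rfl
    · exact mul_nonneg (hM0 j) (b3 j hj)
  have hqa0 : ∀ h ∈ H, 0 ≤ qf h (Fin.cons q0 u0) := by
    intro h hh
    obtain ⟨-, b2, -⟩ := hnn h hh
    obtain ⟨d1, d2⟩ := hterms h hh
    rw [hqa h]
    linarith
  have hzero : ∀ h ∈ H, qf h (Fin.cons q0 u0) = 0 → qf h (bq n t) = 0 := by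
    intro h hh h0
    obtain ⟨b1, b2, b3⟩ := hnn h hh
    obtain ⟨d1, d2⟩ := hterms h hh
    rw [hqa h] at h0
    have e0 : (h 0 : ℚ) = 0 := by linarith
    have e1 : ∑ v ∈ G, α v * (∑ j, (h j.succ : ℚ) * (v j : ℚ)) = 0 := by linarith
    have e2 : ∑ j, (if j ∈ P then 0 else (1 / (M j : ℚ)) * ((h 0 : ℚ) + M j * h j.succ)) = 0 := by
      linarith
    have e3 : ∀ v ∈ G, ∑ j, (h j.succ : ℚ) * (v j : ℚ) = 0 := by
      intro v hv
      have h1 := (Finset.sum_eq_zero_iff_of_nonneg fun v hv =>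
        mul_nonneg (hα v hv).le (b1 v hv)).1 e1 v hv
      exact (mul_eq_zero.1 h1).resolve_left (hα v hv).ne'
    have e4 : ∀ j, j ∉ P → (h j.succ : ℚ) = 0 := by
      intro j hj
      have h1 := (Finset.sum_eq_zero_iff_of_nonneg (fun j _ => by
        split_ifs with hj
        · exact le_rfl
        · exact mul_nonneg (hM0 j) (b3 j hj))).1 e2 j (Finset.mem_univ j)
      rw [if_neg hj, e0, zero_add] at h1
      have hMj := hMq j
      rcases mul_eq_zero.1 h1 with h2 | h2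
      · exact absurd h2 (by positivity)
      · exact (mul_eq_zero.1 h2).resolve_left hMj.ne'
    have e5 : ∑ j : Fin n, (h j.succ : ℚ) = ∑ v ∈ ρ, γ v * ∑ j, (h j.succ : ℚ) * (v j : ℚ) := by
      simp only [Finset.mul_sum]
      rw [Finset.sum_comm]
      refine Finset.sum_congr rfl fun j _ => ?_
      by_cases hj : j ∈ P
      · have h1 : ∑ v ∈ ρ, γ v * ((h j.succ : ℚ) * (v j : ℚ)) =
            (h j.succ : ℚ) * ∑ v ∈ ρ, γ v * (v j : ℚ) := by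
          rw [Finset.mul_sum]
          exact Finset.sum_congr rfl fun v _ => by ring
        rw [h1, hg.one j hj, mul_one]
      · rw [e4 j hj]
        simp
    rw [hqb h, e0, zero_mul, zero_add, e5]
    exact Finset.sum_eq_zero fun v hv => by rw [e3 v (hg.sub hv), mul_zero]
  set a0 : Fin (n + 1) → ℚ := Fin.cons q0 u0 with ha0
  set Sα := ∑ v ∈ G, α v with hSα
  set Sy := ∑ j, y j with hSy
  set W : ℚ := ∑ i, (w i : ℚ) with hW
  have c1 : Small fun s => 0 < q0 + s * (-t - q0) := small_affine hq0pos _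
  have c2 : Small fun s => 0 < (1 - q0) + s * (q0 + t) := small_affine (by linarith) _
  have c3 : Small fun s => ∀ h ∈ H, 0 ≤ qf h a0 + s * (qf h (bq n t) - qf h a0) := by
    refine Small.finset _ fun h hh => ?_
    rcases (hqa0 h hh).eq_or_lt with h1 | h1
    · refine ⟨1, one_pos, fun s _ _ => ?_⟩
      rw [← h1, hzero h hh h1.symm]
      simp
    · obtain ⟨τ, hτ, h2⟩ := small_affine h1 (qf h (bq n t) - qf h a0)
      exact ⟨τ, hτ, fun s h3 h4 => (h2 s h3 h4).le⟩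
  have c4 : Small fun s => ∀ h ∈ H, qf h a0 + s * (qf h (bq n t) - qf h a0) = qf h (bq n t) ∨
      ∀ z : ℤ, qf h a0 + s * (qf h (bq n t) - qf h a0) ≠ z := by
    refine Small.finset _ fun h _ => ?_
    by_cases heq : qf h (bq n t) - qf h a0 = 0
    · refine ⟨1, one_pos, fun s _ _ => Or.inl ?_⟩
      rw [heq]
      linarith
    · obtain ⟨τ, hτ, h1⟩ := small_nonint (qf h a0) heq
      exact ⟨τ, hτ, fun s h2 h3 => Or.inr (h1 s h2 h3)⟩
  have c5 : Small fun s => ∀ j ∈ (Finset.univ : Finset (Fin n)), y j < 1 →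
      0 < (1 - y j - (Sα - Sy)) + s * (Sα - W / N) := by
    refine Small.finset _ fun j _ => ?_
    by_cases hj : y j < 1
    · obtain ⟨τ, hτ, h1⟩ := small_affine (c := 1 - y j - (Sα - Sy)) (by
        have := hd2 j hj
        linarith) (Sα - W / N)
      exact ⟨τ, hτ, fun t h2 h3 _ => h1 t h2 h3⟩
    · exact ⟨1, one_pos, fun t _ _ h => absurd h hj⟩
  obtain ⟨s, hs0, hs1, e1, e2, e3, e4, e5⟩ := (c1.and (c2.and (c3.and (c4.and c5)))).exists
  have hb0 : bq n t 0 = -t := rfl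
  have hb1 : ∀ j : Fin n, bq n t j.succ = 1 := fun j => rfl
  have ha00 : a0 0 = q0 := rfl
  have ha01 : ∀ j : Fin n, a0 j.succ = u0 j := fun j => rfl
  refine ⟨fun i => (1 - s) * a0 i + s * bq n t i, fun j => ?_, fun j hj => ?_, ?_, ?_,
    fun h hh => ?_, fun h hh => ?_, fun j hj => ?_⟩
  · show 1 ≤ (1 - s) * a0 j.succ + s * bq n t j.succ
    rw [hb1, ha01]
    have := hu1 j
    nlinarith
  · show (1 - s) * a0 j.succ + s * bq n t j.succ = 1
    rw [hb1, ha01, huy j hj]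
    ring
  · show 0 < (1 - s) * a0 0 + s * bq n t 0
    rw [hb0, ha00]
    linarith
  · show (1 - s) * a0 0 + s * bq n t 0 < 1
    rw [hb0, ha00]
    linarith
  · rw [ptl_qf_lin]
    exact e3 h hh
  · rw [ptl_qf_lin]
    exact e4 h hh
  · have h1 : ∑ i : Fin n, (w i : ℚ) * ((1 - s) * a0 i.succ + s * bq n t i.succ) =
        (1 - s) * (N * Sα) + s * W := by
      rw [← hwsum, hW, Finset.mul_sum, Finset.mul_sum, ← Finset.sum_add_distrib]
      refine Finset.sum_congr rfl fun i _ => ?_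
      rw [hb1, ha01]
      ring
    have h2 : ((1 - s) * (N * Sα) + s * W) / N = (1 - s) * Sα + s * (W / N) := by
      field_simp
    have h3 := e5 j (Finset.mem_univ j) hj
    rw [h1, h2]
    linarith

/-- The point `a` of the cone (as `exists_aC` in `Pert.lean`).

Proof.  `a⁰ = ∑ α_v c0 v + ∑_{j ∉ P} (1/M_j) c1 (M_j e_j) + (1/8) cx2`. -/
theorem exists_aC2 {f : MvPolynomial (Fin n) ℂ} {M : Fin n → ℕ} {w' : Fin n → ℕ} {N' : ℕ}
    {w : Fin n → ℕ} {N : ℕ} (hD : DatL f M w' N' w N)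
    {P : Finset (Fin n)} (hP : ∀ j, j ∈ P ↔ 0 < w j) {ρ : Finset (Fin n →₀ ℕ)}
    {γ : (Fin n →₀ ℕ) → ℚ} (hg : GoodP P (face f w' N') ρ γ) (hM : ∀ j, 2 * n + 2 ≤ M j)
    {g : Fin n → ℂ} (hg0 : ∀ j, g j ≠ 0) (t : ℚ) (H : Finset (Fin (n + 1) → ℤ))
    (hH : ∀ h ∈ H, ∀ v ∈ (Fs (cw2 (kof w' N')) (Cay2 (Fc f) M g)).support, 0 ≤ h ⬝ᵥ v)
    {y : Fin n → ℚ} {α : (Fin n →₀ ℕ) → ℚ} (hα : ∀ v ∈ face f w' N', 0 < α v)
    (ha1 : ∀ j ∈ P, 1 ≤ ∑ v ∈ face f w' N', α v * (v j : ℚ))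
    (hay : ∀ j, 0 < y j → ∑ v ∈ face f w' N', α v * (v j : ℚ) = 1)
    (hyP : ∀ j, j ∉ P → y j = 0)
    (hd1 : ∑ v ∈ face f w' N', α v - ∑ j, y j < 1)
    (hd2 : ∀ j, y j < 1 → ∑ v ∈ face f w' N', α v - ∑ j, y j < 1 - y j) :
    ∃ a : Fin (n + 1) → ℚ, (∀ j : Fin n, 1 ≤ a j.succ) ∧
      (∀ j : Fin n, 0 < y j → a j.succ = 1) ∧ 0 < a 0 ∧ a 0 < 1 ∧ (∀ h ∈ H, 0 ≤ qf h a) ∧
      (∀ h ∈ H, qf h a = qf h (bq n t) ∨ ∀ z : ℤ, qf h a ≠ z) ∧
      ∀ j, y j < 1 → (∑ i, (w i : ℚ) * a i.succ) / N - ∑ i, y i < 1 - y j := by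
  exact exists_aC2g (κ := kof w' N') (G := face f w' N') (fun v hv => by
      obtain ⟨h1, h2⟩ := Finset.mem_filter.1 hv
      refine ⟨h1, ?_⟩
      rw [kof_dot, h2]
      rfl) hM (fun j hj => by
      have h1 : w j = 0 := by
        by_contra h
        exact hj ((hP j).2 (Nat.pos_of_ne_zero h))
      have h2 := hD.out j h1
      show 2 * (M j : ℤ) * (w' j : ℤ) = (N' : ℤ)
      exact_mod_cast h2) hD.hN hD.lev (fun j hj => by
      by_contra h
      exact hj ((hP j).2 (Nat.pos_of_ne_zero h))) hg hg0 t H hH hα ha1 hay hyP hd2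

end MPb07157Z
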