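import Pool.Agent.Lib.MP_b07157_agNL.NDL

/-!
# The standing hypotheses, local version
-/

noncomputable section

namespace MPb07157T

open Finset Matrix

variable {n : ℕ}

/-- The exponents of `F + x₀² + x₀ g`. -/
private theorem wkl_support_sub {F : (Fin n → ℤ) →₀ ℂ} {M : Fin n → ℕ} {g : Fin n → ℂ}
    {v : Fin (n + 1) → ℤ} (hv : v ∈ (Cay2 F M g).support) :
    (∃ v' ∈ F.support, v = c0 v') ∨ v = cx2 n ∨ ∃ j, v = c1 ((M j : ℤ) • ee j) := by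
  classical
  unfold Cay2 at hv
  rcases Finset.mem_union.1 (Finsupp.support_add hv) with h | h
  · obtain ⟨v', hv', rfl⟩ := Finset.mem_image.1 (Finsupp.mapDomain_support h)
    exact Or.inl ⟨v', hv', rfl⟩
  · rcases Finset.mem_union.1 (Finsupp.support_add h) with hu | hu
    · right
      left
      have := Finsupp.support_single_subset hu
      rw [Finset.mem_singleton] at this
      exact this
    · right
      right
      obtain ⟨j, -, hj⟩ := Finset.mem_biUnion.1 (Finsupp.support_finsetSum hu)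
      have := Finsupp.support_single_subset hj
      rw [Finset.mem_singleton] at this
      exact ⟨j, this⟩

private theorem wkl_dot_cw2 (σ : (Fin n → ℤ) × ℤ) (x : ℤ) (v : Fin n → ℤ) :
    (cw2 σ).1 ⬝ᵥ (Fin.cons x v : Fin (n + 1) → ℤ) = σ.2 * x + 2 * (σ.1 ⬝ᵥ v) := by
  unfold cw2
  simp only [dotProduct, Fin.sum_univ_succ, Fin.cons_zero, Fin.cons_succ, Pi.smul_apply,
    smul_eq_mul, Finset.mul_sum]
  congr 1
  exact Finset.sum_congr rfl fun j _ => by ring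

private theorem wkl_ee (r : ℕ) (l : Fin r) (v : Fin r → ℤ) : ee l ⬝ᵥ v = v l := by
  unfold ee
  simp

private theorem wkl_dot_ee {r : ℕ} (l : Fin r) (v : Fin r → ℤ) : v ⬝ᵥ ee l = v l := by
  unfold ee
  simp

private theorem wkl_et {r : ℕ} (σ τ : (Fin r → ℤ) × ℤ) (v : Fin r → ℤ) :
    et σ τ ⬝ᵥ v = σ.2 * (τ.1 ⬝ᵥ v) - τ.2 * (σ.1 ⬝ᵥ v) := by
  unfold et
  rw [sub_dotProduct, smul_dotProduct, smul_dotProduct, smul_eq_mul, smul_eq_mul]

private theorem wkl_le {f : MvPolynomial (Fin n) ℂ} {M : Fin n → ℕ} {g : Fin n → ℂ}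
    {σ : (Fin n → ℤ) × ℤ} (hσ : WtL f M σ) {v : Fin (n + 1) → ℤ}
    (hv : v ∈ (Cay2 (Fc f) M g).support) : (cw2 σ).2 ≤ (cw2 σ).1 ⬝ᵥ v := by
  have e : (cw2 σ).2 = 2 * σ.2 := rfl
  rcases wkl_support_sub hv with ⟨v', hv', rfl⟩ | rfl | ⟨j, rfl⟩
  · unfold c0
    rw [wkl_dot_cw2, mul_zero, zero_add, e]
    have := hσ.2.2.1 v' hv'
    omega
  · unfold cx2
    rw [wkl_dot_cw2, dotProduct_zero, mul_zero, add_zero, e]
    omega
  · unfold c1
    rw [wkl_dot_cw2, mul_one, dotProduct_smul, wkl_dot_ee, smul_eq_mul, e]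
    have := hσ.2.2.2 j
    linarith

private theorem wkl_nonneg {f : MvPolynomial (Fin n) ℂ} {M : Fin n → ℕ} {g : Fin n → ℂ}
    {v : Fin (n + 1) → ℤ} (hv : v ∈ (Cay2 (Fc f) M g).support) (j : Fin (n + 1)) : 0 ≤ v j := by
  rcases wkl_support_sub hv with ⟨v', hv', rfl⟩ | rfl | ⟨i, rfl⟩
  · unfold c0
    refine Fin.cases ?_ (fun j => ?_) j
    · simp
    · rw [Fin.cons_succ]
      obtain ⟨v'', -, rfl⟩ := mem_Fc_support.1 hv'
      exact castv_nonneg v'' j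
  · unfold cx2
    refine Fin.cases ?_ (fun j => ?_) j
    · simp
    · simp
  · unfold c1
    refine Fin.cases ?_ (fun j => ?_) j
    · simp
    · rw [Fin.cons_succ, Pi.smul_apply, smul_eq_mul]
      unfold ee
      by_cases h : j = i
      · subst h
        simp
      · simp [h]

/-- Everything about the cones (as `exists_wokc` in `Wok.lean`). -/
theorem exists_wokcL {f : MvPolynomial (Fin n) ℂ} (hnd : NDcpt f) {M : Fin n → ℕ}
    (hM : ∀ j, 1 ≤ M j) {g : Fin n → ℂ} (hgen : Gen f g) {Sg : Finset ((Fin n → ℤ) × ℤ)}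
    (hcut : CutsOut Sg (fM f M)) (hSg : ∀ σ ∈ Sg, WtL f M σ) :
    ∃ Ho : (Fin (n + 1) → ℤ) × ℤ → Finset (Fin (n + 1) → ℤ),
      WOKc (CC n) (ee 0) (Sg.image cw2) Ho (Cay2 (Fc f) M g) ∧
      ∀ κ ∈ Sg, ∃ O : Finset (Fin (n + 1) → ℤ),
        Ho (cw2 κ) = H2c (CC n) (Sg.image cw2) (cw2 κ) ∪ O ∧ ee 0 ∈ O ∧ (∀ h ∈ O, 0 < h 0) ∧
        ∀ x : Fin (n + 1) → ℝ, (∀ h ∈ Ho (cw2 κ), 0 ≤ rdot h x) →
          ∃ l : (Fin (n + 1) → ℤ) → ℝ,
            (∀ v ∈ (Fs (cw2 κ) (Cay2 (Fc f) M g)).support, 0 ≤ l v) ∧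
            ∀ j, ∑ v ∈ (Fs (cw2 κ) (Cay2 (Fc f) M g)).support, l v * (v j : ℝ) = x j := by
  classical
  have hex : ∀ σ' : (Fin (n + 1) → ℤ) × ℤ, ∃ O : Finset (Fin (n + 1) → ℤ),
      σ' ∈ Sg.image cw2 → (ee 0 ∈ O ∧ (∀ h ∈ O, 0 < h 0) ∧
      (∀ h ∈ O, ∀ v ∈ (Fs σ' (Cay2 (Fc f) M g)).support, 0 ≤ h ⬝ᵥ v) ∧
      ∀ x : Fin (n + 1) → ℝ, (∀ h ∈ H2c (CC n) (Sg.image cw2) σ' ∪ O, 0 ≤ rdot h x) →
        ∃ l : (Fin (n + 1) → ℤ) → ℝ, (∀ v ∈ (Fs σ' (Cay2 (Fc f) M g)).support, 0 ≤ l v) ∧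
          ∀ j, ∑ v ∈ (Fs σ' (Cay2 (Fc f) M g)).support, l v * (v j : ℝ) = x j) := by
    intro σ'
    by_cases h : σ' ∈ Sg.image cw2
    · obtain ⟨κ, hκ, rfl⟩ := Finset.mem_image.1 h
      obtain ⟨O, hO⟩ := exists_outL hM hcut hSg hκ (g := g) fun j => (hgen j).1
      exact ⟨O, fun _ => hO⟩
    · exact ⟨∅, fun h' => absurd h' h⟩
  choose O hO using hex
  let Ho : (Fin (n + 1) → ℤ) × ℤ → Finset (Fin (n + 1) → ℤ) := fun σ' =>
    H2c (CC n) (Sg.image cw2) σ' ∪ O σ'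
  have hall' : ∀ σ' ∈ Sg.image cw2, ∀ l, ee l ∈ Ho σ' := by
    intro σ' hσ' l
    refine Fin.cases ?_ (fun j => ?_) l
    · exact Finset.mem_union_right _ (hO σ' hσ').1
    · refine Finset.mem_union_left _ (Finset.mem_union_right _ (Finset.mem_image_of_mem _ ?_))
      exact Finset.mem_image_of_mem _ (Finset.mem_univ j)
  have hHF : ∀ σ' ∈ Sg.image cw2, ∀ h ∈ Ho σ', ∀ v ∈ (Fs σ' (Cay2 (Fc f) M g)).support,
      0 ≤ h ⬝ᵥ v := by
    intro σ' hσ' h hh v hv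
    rcases Finset.mem_union.1 hh with hh | hh
    · have hv' : v ∈ (Cay2 (Fc f) M g).support ∧ σ'.1 ⬝ᵥ v = σ'.2 := by
        unfold Fs at hv
        rw [Finsupp.support_filter, Finset.mem_filter] at hv
        exact hv
      unfold H2c at hh
      rcases Finset.mem_union.1 hh with hh | hh
      · obtain ⟨τ', hτ', rfl⟩ := Finset.mem_image.1 hh
        obtain ⟨τ, hτ, rfl⟩ := Finset.mem_image.1 hτ'
        obtain ⟨σ, hσ, rfl⟩ := Finset.mem_image.1 hσ'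
        rw [wkl_et, hv'.2]
        have h1 := wkl_le (hSg τ hτ) hv'.1
        have h2 : 0 < (cw2 σ).2 := by
          have := (hSg σ hσ).1
          show 0 < 2 * σ.2
          omega
        nlinarith
      · obtain ⟨l, -, rfl⟩ := Finset.mem_image.1 hh
        rw [wkl_ee]
        exact wkl_nonneg hv'.1 l
    · exact (hO σ' hσ').2.2.1 h hh v hv
  refine ⟨Ho, ⟨?_, ?_, fun v hv j => wkl_nonneg hv j, ?_, ?_, ?_, ?_, hall', ?_, hHF, ?_⟩, ?_⟩
  · intro σ' hσ'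
    obtain ⟨σ, hσ, rfl⟩ := Finset.mem_image.1 hσ'
    have := (hSg σ hσ).1
    show 0 < 2 * σ.2
    omega
  · intro σ' hσ' j
    obtain ⟨σ, hσ, rfl⟩ := Finset.mem_image.1 hσ'
    unfold cw2
    refine Fin.cases ?_ (fun j => ?_) j
    · exact (hSg σ hσ).1.le
    · have := (hSg σ hσ).2.1 j
      show 0 ≤ (2 : ℤ) * σ.1 j
      omega
  · intro σ' hσ' v hv
    obtain ⟨σ, hσ, rfl⟩ := Finset.mem_image.1 hσ'
    exact wkl_le (hSg σ hσ) hv
  · intro j hj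
    obtain ⟨i, -, rfl⟩ := Finset.mem_image.1 hj
    unfold ee
    simp
  · intro σ' hσ' τ' hτ'
    obtain ⟨σ, hσ, rfl⟩ := Finset.mem_image.1 hσ'
    obtain ⟨τ, hτ, rfl⟩ := Finset.mem_image.1 hτ'
    rw [wkl_et, wkl_dot_ee, wkl_dot_ee]
    unfold cw2
    simp only [Fin.cons_zero]
    ring
  · intro σ' hσ'
    exact Finset.subset_union_left
  · intro σ' hσ' h hh h2
    rcases Finset.mem_union.1 hh with hh | hh
    · exact absurd hh h2
    · rw [wkl_dot_ee]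
      exact (hO σ' hσ').2.1 h hh
  · intro σ' hσ'
    obtain ⟨σ, hσ, rfl⟩ := Finset.mem_image.1 hσ'
    exact nd_cay2 hnd hM hgen (hSg σ hσ) (Ho (cw2 σ)) (hall' _ hσ') (hHF _ hσ')
      (hO (cw2 σ) hσ').2.2.2
  · intro κ hκ
    have hκ' : cw2 κ ∈ Sg.image cw2 := Finset.mem_image_of_mem _ hκ
    obtain ⟨h1, h2, -, h4⟩ := hO (cw2 κ) hκ'
    exact ⟨O (cw2 κ), rfl, h1, h2, h4⟩

end MPb07157T
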